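import Mathlib

/-!
# CP maps on von Neumann algebras and dilations of CP-semigroups over `ℕ ^ k`

Maps of a von Neumann algebra `A ⊆ B(H)` into itself are represented by functions `T` on all of
`B(H)`, of which only the values on `A` matter; every condition below only concerns elements of `A`.
-/

open scoped InnerProductSpace ComplexOrder
open Filter Topology

namespace Run7.h610.CPD

/-- The algebra `B(H)` of bounded operators on `H`. -/
abbrev Op (H : Type*) [NormedAddCommGroup H] [InnerProductSpace ℂ H] : Type _ := H →L[ℂ] H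

variable {H : Type*} [NormedAddCommGroup H] [InnerProductSpace ℂ H] [CompleteSpace H]
variable {K : Type*} [NormedAddCommGroup K] [InnerProductSpace ℂ K] [CompleteSpace K]

/-- `T` is additive on `A`. -/
def IsAddOn (A : VonNeumannAlgebra H) (T : Op H → Op H) : Prop :=
  ∀ a ∈ A, ∀ b ∈ A, T (a + b) = T a + T b

/-- `T` is homogeneous on `A`. -/
def IsSMulOn (A : VonNeumannAlgebra H) (T : Op H → Op H) : Prop :=
  ∀ (c : ℂ), ∀ a ∈ A, T (c • a) = c • T a

/-- `T` restricts to a linear map `A → A`. -/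
def IsLinearOn (A : VonNeumannAlgebra H) (T : Op H → Op H) : Prop :=
  (∀ a ∈ A, T a ∈ A) ∧ IsAddOn A T ∧ IsSMulOn A T

/-- `T` restricts to a completely positive map on `A ⊆ B(H)`: for all `n`, all `a₁, …, aₙ ∈ A` and
`ξ₁, …, ξₙ ∈ H` the number `∑ i j, ⟪ξ i, T (a i ^* a j) ξ j⟫` is real and `≥ 0`. -/
def IsCP (A : VonNeumannAlgebra H) (T : Op H → Op H) : Prop :=
  ∀ (n : ℕ) (a : Fin n → Op H) (ξ : Fin n → H), (∀ i, a i ∈ A) →
    0 ≤ ∑ i, ∑ j, ⟪ξ i, T (star (a i) * a j) (ξ j)⟫_ℂ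

/-- `T` restricts to a normal map on `A ⊆ B(H)`: it is continuous for the weak operator topology on
bounded subsets of `A` (convergence is tested on filters). -/
def IsNormal (A : VonNeumannAlgebra H) (T : Op H → Op H) : Prop :=
  ∀ (l : Filter (Op H)) (a₀ : Op H), (∀ᶠ a in l, a ∈ A) → a₀ ∈ A →
    (∃ C : ℝ, ∀ᶠ a in l, ‖a‖ ≤ C) →
    (∀ ξ η : H, Tendsto (fun a : Op H => ⟪ξ, a η⟫_ℂ) l (𝓝 ⟪ξ, a₀ η⟫_ℂ)) →
    ∀ ξ η : H, Tendsto (fun a : Op H => ⟪ξ, T a η⟫_ℂ) l (𝓝 ⟪ξ, T a₀ η⟫_ℂ)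

/-- Let `V : H → K` be an isometry, by which `H` is regarded as a subspace of `K`. The operator
`b` on `K` is `a ∈ B(H)`, extended by zero: it agrees with `a` on `H` and vanishes on the
orthogonal complement of `H`. That is, `b = V a V^*`. -/
def IsAmp (V : H →ₗᵢ[ℂ] K) (a : Op H) (b : Op K) : Prop :=
  (∀ ξ : H, b (V ξ) = V (a ξ)) ∧ ∀ x : K, (∀ ξ : H, ⟪V ξ, x⟫_ℂ = 0) → b x = 0

/-- `φ` restricts to a (not necessarily unital) `*`-endomorphism of the von Neumann algebra `B`. -/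
structure IsStarEndo (B : VonNeumannAlgebra K) (φ : Op K → Op K) : Prop where
  /-- `φ` is a linear map `B → B` -/
  linear : IsLinearOn B φ
  /-- `φ` is multiplicative on `B` -/
  map_mul : ∀ b ∈ B, ∀ c ∈ B, φ (b * c) = φ b * φ c
  /-- `φ` preserves adjoints on `B` -/
  map_star : ∀ b ∈ B, φ (star b) = star (φ b)

/-- `H ⊆ K` via the isometry `V`, `p` is the orthogonal projection of `K` onto `H`, `B` is a von
Neumann algebra on `K` with `p ∈ B`, and `A = p B p` as a corner. -/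
structure IsCorner (A : VonNeumannAlgebra H) (V : H →ₗᵢ[ℂ] K) (p : Op K)
    (B : VonNeumannAlgebra K) : Prop where
  /-- `p` is the orthogonal projection onto `H` (it is `1` on `H` and `0` on `H^⊥`) -/
  isProj : IsAmp V 1 p
  /-- `p ∈ B` -/
  proj_mem : p ∈ B
  /-- `A = p B p` -/
  corner : ∀ b : Op K, (∃ a ∈ A, IsAmp V a b) ↔ ∃ c ∈ B, p * c * p = b

/-- `θ = (θ_s)`, `s ∈ ℕ ^ k`, is a semigroup of `*`-endomorphisms of `B` (not required to be
unital, and not even required to be normal). -/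
structure IsEndoSemigroup {k : ℕ} (B : VonNeumannAlgebra K) (θ : (Fin k → ℕ) → Op K → Op K) :
    Prop where
  /-- every `θ_s` is a `*`-endomorphism of `B` -/
  endo : ∀ s, IsStarEndo B (θ s)
  /-- `θ_0 = id` -/
  θ_zero : ∀ b ∈ B, θ 0 b = b
  /-- `θ_{s+t} = θ_s ∘ θ_t` -/
  θ_add : ∀ s t, ∀ b ∈ B, θ (s + t) b = θ s (θ t b)

/-- `(p, K, B, θ)` is a dilation of the semigroup `T = (T_s)`, `s ∈ ℕ ^ k`, of linear maps of the
von Neumann algebra `A ⊆ B(H)`: `p` is the projection of `K` onto `H`, `A = p B p` is a corner of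
the von Neumann algebra `B` on `K`, `θ` is a semigroup of `*`-endomorphisms of `B`, and
`T_s(a) = p θ_s(a) p` for all `a ∈ A` and all `s`. -/
structure IsDilation {k : ℕ} (A : VonNeumannAlgebra H) (T : (Fin k → ℕ) → Op H → Op H)
    (V : H →ₗᵢ[ℂ] K) (p : Op K) (B : VonNeumannAlgebra K) (θ : (Fin k → ℕ) → Op K → Op K) :
    Prop where
  /-- `A = p B p` is a corner of `B` -/
  isCorner : IsCorner A V p B
  /-- `θ` is a semigroup of `*`-endomorphisms of `B` -/
  isSemigroup : IsEndoSemigroup B θ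
  /-- `T_s(a) = p θ_s(a) p`, where `b` is `a` regarded as an element of `B` -/
  dilates : ∀ s, ∀ a ∈ A, ∀ b, IsAmp V a b → IsAmp V (T s a) (p * θ s b * p)

/-- The semigroup `T_s = T₁^{s₁} T₂^{s₂} T₃^{s₃}` over `ℕ ^ 3` of a commuting triple. -/
def semigroupOf (T : Fin 3 → Op H → Op H) : (Fin 3 → ℕ) → Op H → Op H :=
  fun s a => (T 0)^[s 0] ((T 1)^[s 1] ((T 2)^[s 2] a))

end Run7.h610.CPD
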