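import Mathlib

namespace Run7.h610.CPD

/-- the out-neighbour sets of the three Markov chains -/
def NB : Fin 3 → Fin 4 → Finset (Fin 4)
  | 0, x => if x = 0 ∨ x = 2 then {0, 1} else {2, 3}
  | 1, x => if x = 0 then {0, 3} else if x = 1 then {1, 2} else if x = 2 then {0, 1} else {2, 3}
  | 2, x => if x = 0 ∨ x = 2 then {2, 3} else {0, 1}

theorem NB_card : ∀ i x, (Finset.univ.filter fun y => y ∈ NB i x).card = 2 := by decide

variable {B : Type*} [Ring B] [StarRing B] [Algebra ℂ B]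

/-- The algebraic core: no such system of projections and endomorphisms exists. -/
theorem core (hpos : ∀ x : B, star x * x = 0 → x = 0)
    (E : Fin 4 → B) (hEs : ∀ x, star (E x) = E x)
    (hE : ∀ x y, E x * E y = if x = y then E x else 0)
    (θ : Fin 3 → (B →⋆ₙₐ[ℂ] B)) (hcomm : ∀ i j b, θ i (θ j b) = θ j (θ i b))
    (hdil : ∀ i y, (∑ x, E x) * θ i (E y) * (∑ x, E x) =
      ∑ x, (if y ∈ NB i x then (1 / 2 : ℂ) else 0) • E x) :
    E 0 = 0 := by
  have hθs : ∀ i x, star (θ i (E x)) = θ i (E x) := fun i x => by rw [← map_star, hEs]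
  have hθθ : ∀ i x, θ i (E x) * θ i (E x) = θ i (E x) := fun i x => by
    rw [← map_mul, hE, if_pos rfl]
  have hpE : ∀ x, (∑ y, E y) * E x = E x := fun x => by
    rw [Finset.sum_mul]; simp [hE]
  have hEp : ∀ x, E x * (∑ y, E y) = E x := fun x => by
    rw [Finset.mul_sum]; simp [hE]
  -- compressions
  have h1 : ∀ i x x' y, E x * θ i (E y) * E x' =
      if x = x' then (if y ∈ NB i x then (1 / 2 : ℂ) else 0) • E x else 0 := by
    intro i x x' y
    have : E x * ((∑ x, E x) * θ i (E y) * (∑ x, E x)) * E x' =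
        E x * (∑ x, (if y ∈ NB i x then (1 / 2 : ℂ) else 0) • E x) * E x' := by rw [hdil i y]
    have e1 : E x * ((∑ x, E x) * θ i (E y) * (∑ x, E x)) * E x' = E x * θ i (E y) * E x' := by
      rw [show E x * ((∑ x, E x) * θ i (E y) * (∑ x, E x)) * E x' =
        (E x * (∑ x, E x)) * θ i (E y) * ((∑ x, E x) * E x') by simp only [mul_assoc], hpE, hEp]
    rw [e1, Finset.mul_sum, Finset.sum_mul] at this
    rw [this]
    have e2 : ∀ z, E x * ((if y ∈ NB i z then (1 / 2 : ℂ) else 0) • E z) * E x' =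
        if z = x then (if x = x' then (if y ∈ NB i x then (1 / 2 : ℂ) else 0) • E x else 0)
          else 0 := by
      intro z
      rw [mul_smul_comm, smul_mul_assoc, hE]
      by_cases hz : z = x
      · subst hz
        rw [if_pos rfl, if_pos rfl, hE]
        split_ifs <;> simp
      · rw [if_neg hz, if_neg (Ne.symm hz), zero_mul, smul_zero]
    rw [Finset.sum_congr rfl fun z _ => e2 z]
    simp
  -- vanishing
  have h2 : ∀ i x y, y ∉ NB i x → θ i (E y) * E x = 0 := by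
    intro i x y hy
    apply hpos
    rw [star_mul, hθs, hEs, mul_assoc, ← mul_assoc (θ i (E y)), hθθ, ← mul_assoc, h1,
      if_pos rfl, if_neg hy, zero_smul]
  -- the projection is increasing
  have hthp : ∀ i, θ i (∑ y, E y) * (∑ y, E y) = ∑ y, E y := by
    intro i
    have hps : star (∑ y, E y) = ∑ y, E y := by rw [star_sum]; simp [hEs]
    have hpp : (∑ y, E y) * (∑ y, E y) = ∑ y, E y := by
      rw [Finset.mul_sum]
      exact Finset.sum_congr rfl fun x _ => hpE x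
    have hsum : (∑ x, E x) * θ i (∑ y, E y) * (∑ x, E x) = ∑ x, E x := by
      have e : (∑ x, E x) * θ i (∑ y, E y) * (∑ x, E x) =
          ∑ y, (∑ x, E x) * θ i (E y) * (∑ x, E x) := by
        rw [map_sum]
        generalize (∑ x, E x) = p
        rw [Finset.mul_sum, Finset.sum_mul]
      rw [e, Finset.sum_congr rfl fun y _ => hdil i y, Finset.sum_comm]
      refine Finset.sum_congr rfl fun x _ => ?_
      rw [← Finset.sum_smul]
      have : (∑ y, if y ∈ NB i x then (1 / 2 : ℂ) else 0) = 1 := by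
        have hcard : (Finset.univ.filter fun y => y ∈ NB i x).card = 2 := NB_card i x
        rw [← Finset.sum_filter, Finset.sum_const, hcard]; norm_num
      rw [this, one_smul]
    have hθps : star (θ i (∑ y, E y)) = θ i (∑ y, E y) := by rw [← map_star, hps]
    have hθpp : θ i (∑ y, E y) * θ i (∑ y, E y) = θ i (∑ y, E y) := by rw [← map_mul, hpp]
    set p := ∑ y, E y with hp
    have hz : star (θ i p * p - p) * (θ i p * p - p) = 0 := by
      rw [star_sub, star_mul, hθps, hps]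
      have e1 : (p * θ i p - p) * (θ i p * p - p) =
          p * (θ i p * θ i p) * p - p * θ i p * p - p * θ i p * p + p * p := by
        noncomm_ring
      have e2 : p * (θ i p) * p = p := hsum
      rw [e1, hθpp, e2, hpp]; abel
    exact sub_eq_zero.1 (hpos _ hz)
  have hincr : ∀ i x, ∑ y, θ i (E y) * E x = E x := by
    intro i x
    rw [← Finset.sum_mul, ← map_sum, ← hpE x, ← mul_assoc, hthp]
  -- squares
  have sq : ∀ i j x z y, (∀ y', y' ≠ y → y' ∉ NB i x ∨ z ∉ NB j y') →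
      θ i (θ j (E z)) * (θ i (E y) * E x) = θ i (θ j (E z)) * E x := by
    intro i j x z y hy
    have : θ i (θ j (E z)) * E x = ∑ y', θ i (θ j (E z)) * (θ i (E y') * E x) := by
      rw [← Finset.mul_sum, hincr]
    rw [this, Finset.sum_eq_single y]
    · intro y' _ hy'
      rcases hy y' hy' with h | h
      · rw [h2 i x y' h, mul_zero]
      · rw [← mul_assoc, ← map_mul, h2 j y' z h, map_zero, zero_mul]
    · simp
  -- exchanging two consecutive steps
  have sw : ∀ i j x z y y', (∀ a, a ≠ y → a ∉ NB i x ∨ z ∉ NB j a) →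
      (∀ a, a ≠ y' → a ∉ NB j x ∨ z ∉ NB i a) →
      θ i (θ j (E z)) * (θ i (E y) * E x) = θ j (θ i (E z)) * (θ j (E y') * E x) := by
    intro i j x z y y' h h'
    rw [sq i j x z y h, sq j i x z y' h', hcomm]
  -- exchanging the last two steps of a path of length three
  have sw2 : ∀ i j k x y z z' w, (∀ a, a ≠ z → a ∉ NB j y ∨ w ∉ NB k a) →
      (∀ a, a ≠ z' → a ∉ NB k y ∨ w ∉ NB j a) →
      θ i (θ j (θ k (E w))) * (θ i (θ j (E z)) * (θ i (E y) * E x)) =
      θ i (θ j (θ k (E w))) * (θ i (θ k (E z')) * (θ i (E y) * E x)) := by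
    intro i j k x y z z' w h h'
    have e1 := congrArg (fun b => θ i b * E x) (sw j k y w z z' h h')
    simp only [map_mul] at e1
    calc θ i (θ j (θ k (E w))) * (θ i (θ j (E z)) * (θ i (E y) * E x))
        = θ i (θ j (θ k (E w))) * (θ i (θ j (E z)) * θ i (E y)) * E x := by
          simp only [mul_assoc]
      _ = θ i (θ k (θ j (E w))) * (θ i (θ k (E z')) * θ i (E y)) * E x := e1
      _ = θ i (θ j (θ k (E w))) * (θ i (θ k (E z')) * (θ i (E y) * E x)) := by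
          rw [hcomm k j]; simp only [mul_assoc]
  -- the hexagon
  have hex : θ 0 (θ 1 (θ 2 (E 0))) * (θ 0 (θ 1 (E 3)) * (θ 0 (E 0) * E 0)) =
      θ 0 (θ 1 (θ 2 (E 0))) * (θ 0 (θ 1 (E 1)) * (θ 0 (E 1) * E 0)) := by
    have p012 : ∀ b, θ 1 (θ 0 (θ 2 b)) = θ 0 (θ 1 (θ 2 b)) := fun b => hcomm 1 0 _
    have p120 : ∀ b, θ 1 (θ 2 (θ 0 b)) = θ 0 (θ 1 (θ 2 b)) := fun b => by
      rw [hcomm 2 0, hcomm 1 0]
    have p210 : ∀ b, θ 2 (θ 1 (θ 0 b)) = θ 0 (θ 1 (θ 2 b)) := fun b => by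
      rw [hcomm 2 1, p120]
    have p201 : ∀ b, θ 2 (θ 0 (θ 1 b)) = θ 0 (θ 1 (θ 2 b)) := fun b => by
      rw [← hcomm 1 0 b, p210]
    have p021 : ∀ b, θ 0 (θ 2 (θ 1 b)) = θ 0 (θ 1 (θ 2 b)) := fun b => by rw [hcomm 2 1]
    calc θ 0 (θ 1 (θ 2 (E 0))) * (θ 0 (θ 1 (E 3)) * (θ 0 (E 0) * E 0))
        = θ 0 (θ 1 (θ 2 (E 0))) * (θ 1 (θ 0 (E 3)) * (θ 1 (E 3) * E 0)) := by
          rw [sw 0 1 0 3 0 3 (by decide) (by decide)]
      _ = θ 0 (θ 1 (θ 2 (E 0))) * (θ 1 (θ 2 (E 0)) * (θ 1 (E 3) * E 0)) := by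
          rw [← p012, sw2 1 0 2 0 3 3 0 0 (by decide) (by decide)]
      _ = θ 0 (θ 1 (θ 2 (E 0))) * (θ 2 (θ 1 (E 0)) * (θ 2 (E 2) * E 0)) := by
          rw [sw 1 2 0 0 3 2 (by decide) (by decide)]
      _ = θ 0 (θ 1 (θ 2 (E 0))) * (θ 2 (θ 0 (E 0)) * (θ 2 (E 2) * E 0)) := by
          rw [← p210, sw2 2 1 0 0 2 0 0 0 (by decide) (by decide)]
      _ = θ 0 (θ 1 (θ 2 (E 0))) * (θ 0 (θ 2 (E 0)) * (θ 0 (E 1) * E 0)) := by
          rw [sw 2 0 0 0 2 1 (by decide) (by decide)]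
      _ = θ 0 (θ 1 (θ 2 (E 0))) * (θ 0 (θ 1 (E 1)) * (θ 0 (E 1) * E 0)) := by
          rw [← p021, sw2 0 2 1 0 1 0 1 0 (by decide) (by decide)]
  -- contradiction
  set ω1 := θ 0 (θ 1 (θ 2 (E 0))) * (θ 0 (θ 1 (E 3)) * (θ 0 (E 0) * E 0)) with hω1
  have hn : star ω1 * ω1 = (1 / 8 : ℂ) • E 0 := by
    have hs : star ω1 = E 0 * θ 0 (E 0) * θ 0 (θ 1 (E 3)) * θ 0 (θ 1 (θ 2 (E 0))) := by
      rw [hω1]
      simp only [star_mul, ← map_star, hEs, mul_assoc]
    rw [hs, hω1]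
    calc E 0 * θ 0 (E 0) * θ 0 (θ 1 (E 3)) * θ 0 (θ 1 (θ 2 (E 0))) *
          (θ 0 (θ 1 (θ 2 (E 0))) * (θ 0 (θ 1 (E 3)) * (θ 0 (E 0) * E 0)))
        = E 0 * θ 0 (E 0 * θ 1 (E 3 * θ 2 (E 0 * E 0) * E 3) * E 0) * E 0 := by
          simp only [map_mul, mul_assoc]
      _ = (1 / 8 : ℂ) • E 0 := by
          rw [hE 0 0, if_pos rfl, h1, if_pos rfl, if_pos (by decide), map_smul, mul_smul_comm,
            smul_mul_assoc, h1, if_pos rfl, if_pos (by decide), smul_smul, map_smul,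
            mul_smul_comm, smul_mul_assoc, h1, if_pos rfl, if_pos (by decide), smul_smul]
          norm_num
  have hz : star ω1 * ω1 = 0 := by
    have hs : star ω1 = E 0 * θ 0 (E 0) * θ 0 (θ 1 (E 3)) * θ 0 (θ 1 (θ 2 (E 0))) := by
      rw [hω1]
      simp only [star_mul, ← map_star, hEs, mul_assoc]
    have e : star ω1 * ω1 = star ω1 *
        (θ 0 (θ 1 (θ 2 (E 0))) * (θ 0 (θ 1 (E 1)) * (θ 0 (E 1) * E 0))) := by rw [← hex]
    rw [e, hs]
    calc E 0 * θ 0 (E 0) * θ 0 (θ 1 (E 3)) * θ 0 (θ 1 (θ 2 (E 0))) *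
          (θ 0 (θ 1 (θ 2 (E 0))) * (θ 0 (θ 1 (E 1)) * (θ 0 (E 1) * E 0)))
        = E 0 * θ 0 (E 0 * θ 1 (E 3 * θ 2 (E 0 * E 0) * E 1) * E 1) * E 0 := by
          simp only [map_mul, mul_assoc]
      _ = 0 := by
          rw [hE 0 0, if_pos rfl, h1, if_neg (by decide)]
          simp
  rw [hn] at hz
  have : E 0 = (8 : ℂ) • ((1 / 8 : ℂ) • E 0) := by rw [smul_smul]; norm_num
  rw [this, hz, smul_zero]

end Run7.h610.CPD
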