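import Mathlib
import Pool.Agent.Run7.h610.CPDefs
import Pool.Agent.Run7.h610.CPCore

open scoped InnerProductSpace ComplexOrder
open Filter Topology

namespace Run7.h610.CPD

/-- the Hilbert space `ℂ⁴` -/
abbrev H4 := EuclideanSpace ℂ (Fin 4)

/-- the von Neumann algebra `B(H)` of all bounded operators -/
noncomputable def topVN (H : Type*) [NormedAddCommGroup H] [InnerProductSpace ℂ H]
    [CompleteSpace H] : VonNeumannAlgebra H where
  toStarSubalgebra := ⊤
  centralizer_centralizer' := by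
    apply Set.eq_univ_of_univ_subset
    exact Set.subset_centralizer_centralizer

theorem mem_topVN {H : Type*} [NormedAddCommGroup H] [InnerProductSpace ℂ H]
    [CompleteSpace H] (a : H →L[ℂ] H) : a ∈ (topVN H).toStarSubalgebra := trivial

/-- the multiplication operator by `g` on `ℂ⁴` -/
noncomputable def mulOp (g : Fin 4 → ℂ) : H4 →L[ℂ] H4 :=
  Matrix.toEuclideanCLM (n := Fin 4) (𝕜 := ℂ) (Matrix.diagonal g)

theorem mulOp_apply (g : Fin 4 → ℂ) (ξ : H4) (x : Fin 4) : mulOp g ξ x = g x * ξ x := by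
  have : (mulOp g ξ).ofLp = (Matrix.diagonal g).mulVec ξ.ofLp := rfl
  show (mulOp g ξ).ofLp x = _
  rw [this, Matrix.mulVec_diagonal]

theorem mulOp_mul (g g' : Fin 4 → ℂ) : mulOp g * mulOp g' = mulOp (g * g') := by
  rw [mulOp, mulOp, mulOp, ← map_mul, Matrix.diagonal_mul_diagonal]; rfl

theorem mulOp_star (g : Fin 4 → ℂ) : star (mulOp g) = mulOp (star g) := by
  rw [mulOp, mulOp, ← map_star, Matrix.star_eq_conjTranspose, Matrix.diagonal_conjTranspose]

theorem mulOp_one : mulOp 1 = 1 := by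
  rw [mulOp, show (1 : Fin 4 → ℂ) = fun _ => 1 from rfl, Matrix.diagonal_one, map_one]

theorem mulOp_add (g g' : Fin 4 → ℂ) : mulOp (g + g') = mulOp g + mulOp g' := by
  ext ξ x; simp [mulOp_apply, add_mul]

theorem mulOp_smul (c : ℂ) (g : Fin 4 → ℂ) : mulOp (c • g) = c • mulOp g := by
  ext ξ x; simp [mulOp_apply, mul_assoc]

theorem norm_mulOp (g : Fin 4 → ℂ) : ‖mulOp g‖ = ‖g‖ :=
  Matrix.l2_opNorm_diagonal g

/-- the diagonal entries of an operator on `ℂ⁴` -/
noncomputable def dg (a : H4 →L[ℂ] H4) (y : Fin 4) : ℂ := a (EuclideanSpace.single y 1) y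

theorem dg_eq_inner (a : H4 →L[ℂ] H4) (y : Fin 4) :
    dg a y = ⟪EuclideanSpace.single y (1 : ℂ), a (EuclideanSpace.single y 1)⟫_ℂ := by
  rw [EuclideanSpace.inner_single_left]; simp [dg]

theorem dg_mulOp (g : Fin 4 → ℂ) (y : Fin 4) : dg (mulOp g) y = g y := by
  rw [dg, mulOp_apply]; simp

theorem norm_dg_le (a : H4 →L[ℂ] H4) (y : Fin 4) : ‖dg a y‖ ≤ ‖a‖ := by
  rw [dg_eq_inner]
  calc ‖⟪EuclideanSpace.single y (1 : ℂ), a (EuclideanSpace.single y 1)⟫_ℂ‖
      ≤ ‖EuclideanSpace.single y (1 : ℂ)‖ * ‖a (EuclideanSpace.single y 1)‖ :=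
        norm_inner_le_norm _ _
    _ ≤ 1 * (‖a‖ * ‖EuclideanSpace.single y (1 : ℂ)‖) := by
        gcongr
        · simp
        · exact a.le_opNorm _
    _ = ‖a‖ := by simp

/-- the average of the diagonal entries over the out-neighbours -/
noncomputable def avg (i : Fin 3) (a : H4 →L[ℂ] H4) (x : Fin 4) : ℂ :=
  (1 / 2 : ℂ) * ∑ y ∈ NB i x, dg a y

/-- The three maps: `T_i(a)` is the multiplication operator by `x ↦` the average of the diagonal
entries `a_{yy}` of `a` over the two out-neighbours `y ∈ NB i x`. -/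
noncomputable def TT (i : Fin 3) (a : Op H4) : Op H4 := mulOp (avg i a)

theorem TT_linear (i : Fin 3) : IsLinearOn (topVN H4) (TT i) := by
  refine ⟨fun a _ => trivial, fun a _ b _ => ?_, fun c a _ => ?_⟩
  · rw [TT, TT, TT, ← mulOp_add]
    congr 1
    funext x
    simp [avg, dg, Finset.sum_add_distrib, mul_add]
  · rw [TT, TT, ← mulOp_smul]
    congr 1
    funext x
    simp [avg, dg, ← Finset.mul_sum]
    ring

theorem TT_comm (i j : Fin 3) (a : Op H4) : TT i (TT j a) = TT j (TT i a) := by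
  simp only [TT]
  congr 1
  funext x
  simp only [avg, dg_mulOp]
  fin_cases i <;> fin_cases j <;> fin_cases x <;> simp [NB] <;> ring

theorem TT_one (i : Fin 3) : TT i 1 = 1 := by
  rw [TT, ← mulOp_one]
  congr 1
  funext x
  simp only [avg, dg_mulOp]
  fin_cases i <;> fin_cases x <;> simp [NB]

theorem NB_card' (i : Fin 3) (x : Fin 4) : (NB i x).card = 2 := by
  revert i x; decide

theorem TT_norm (i : Fin 3) (a : Op H4) : ‖TT i a‖ ≤ ‖a‖ := by
  rw [TT, norm_mulOp, pi_norm_le_iff_of_nonneg (norm_nonneg _)]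
  intro x
  rw [avg, norm_mul]
  have h1 : ‖∑ y ∈ NB i x, dg a y‖ ≤ 2 * ‖a‖ := by
    calc ‖∑ y ∈ NB i x, dg a y‖ ≤ ∑ y ∈ NB i x, ‖dg a y‖ :=
          norm_sum_le _ _
      _ ≤ ∑ _y ∈ NB i x, ‖a‖ := Finset.sum_le_sum fun y _ => norm_dg_le _ y
      _ = 2 * ‖a‖ := by
          rw [Finset.sum_const, NB_card']; simp
  have h2 : ‖(1 / 2 : ℂ)‖ = 1 / 2 := by norm_num
  rw [h2]
  linarith

theorem inner_mulOp (g : Fin 4 → ℂ) (ξ η : H4) :
    ⟪ξ, mulOp g η⟫_ℂ = ∑ x, star (ξ x) * (g x * η x) := by
  rw [PiLp.inner_apply]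
  refine Finset.sum_congr rfl fun x _ => ?_
  rw [mulOp_apply]
  simp [mul_comm]

theorem TT_normal (i : Fin 3) : IsNormal (topVN H4) (TT i) := by
  intro l a₀ _ _ _ h ξ η
  simp only [TT, inner_mulOp, avg, dg_eq_inner]
  refine tendsto_finsetSum _ fun x _ => ?_
  refine Tendsto.const_mul _ (Tendsto.mul_const _ (Tendsto.const_mul _ ?_))
  exact tendsto_finsetSum _ fun y _ => h _ _

theorem TT_cp (i : Fin 3) : IsCP (topVN H4) (TT i) := by
  intro n a ξ _
  have key : ∑ k, ∑ j, ⟪ξ k, TT i (star (a k) * a j) (ξ j)⟫_ℂ =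
      ∑ x, ∑ y ∈ NB i x, (1 / 2 : ℂ) *
        ⟪∑ j, (ξ j x) • a j (EuclideanSpace.single y 1),
          ∑ j, (ξ j x) • a j (EuclideanSpace.single y 1)⟫_ℂ := by
    have e1 : ∀ k j y, dg (star (a k) * a j) y =
        ⟪a k (EuclideanSpace.single y 1), a j (EuclideanSpace.single y 1)⟫_ℂ := by
      intro k j y
      rw [dg_eq_inner]
      change ⟪_, (ContinuousLinearMap.adjoint (a k)) _⟫_ℂ = _
      rw [ContinuousLinearMap.adjoint_inner_right]
      rfl
    simp only [TT, inner_mulOp, avg, e1]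
    simp only [sum_inner, inner_sum, inner_smul_left, inner_smul_right]
    calc ∑ k, ∑ j, ∑ x, star (ξ k x) * ((1 / 2 : ℂ) * (∑ y ∈ NB i x,
          ⟪a k (EuclideanSpace.single y 1), a j (EuclideanSpace.single y 1)⟫_ℂ) * ξ j x)
        = ∑ k, ∑ x, ∑ j, star (ξ k x) * ((1 / 2 : ℂ) * (∑ y ∈ NB i x,
          ⟪a k (EuclideanSpace.single y 1), a j (EuclideanSpace.single y 1)⟫_ℂ) * ξ j x) :=
          Finset.sum_congr rfl fun k _ => Finset.sum_comm
      _ = ∑ x, ∑ k, ∑ j, star (ξ k x) * ((1 / 2 : ℂ) * (∑ y ∈ NB i x,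
          ⟪a k (EuclideanSpace.single y 1), a j (EuclideanSpace.single y 1)⟫_ℂ) * ξ j x) :=
          Finset.sum_comm
      _ = _ := by
          refine Finset.sum_congr rfl fun x _ => ?_
          simp only [Finset.mul_sum, Finset.sum_mul]
          calc ∑ k, ∑ j, ∑ y ∈ NB i x, star (ξ k x) * ((1 / 2 : ℂ) *
                ⟪a k (EuclideanSpace.single y 1), a j (EuclideanSpace.single y 1)⟫_ℂ * ξ j x)
              = ∑ k, ∑ y ∈ NB i x, ∑ j, star (ξ k x) * ((1 / 2 : ℂ) *
                ⟪a k (EuclideanSpace.single y 1), a j (EuclideanSpace.single y 1)⟫_ℂ * ξ j x) :=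
                Finset.sum_congr rfl fun k _ => Finset.sum_comm
            _ = ∑ y ∈ NB i x, ∑ k, ∑ j, star (ξ k x) * ((1 / 2 : ℂ) *
                ⟪a k (EuclideanSpace.single y 1), a j (EuclideanSpace.single y 1)⟫_ℂ * ξ j x) :=
                Finset.sum_comm
            _ = ∑ y ∈ NB i x, ∑ j, ∑ k, star (ξ k x) * ((1 / 2 : ℂ) *
                ⟪a k (EuclideanSpace.single y 1), a j (EuclideanSpace.single y 1)⟫_ℂ * ξ j x) :=
                Finset.sum_congr rfl fun y _ => Finset.sum_comm
            _ = _ := by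
                refine Finset.sum_congr rfl fun y _ => Finset.sum_congr rfl fun j _ =>
                  Finset.sum_congr rfl fun k _ => ?_
                simp only [RCLike.star_def]
                ring
  rw [key]
  refine Finset.sum_nonneg fun x _ => Finset.sum_nonneg fun y _ => ?_
  rw [inner_self_eq_norm_sq_to_K]
  have : (1 / 2 : ℂ) * ((‖∑ j, (ξ j x) • a j (EuclideanSpace.single y 1)‖ : ℝ) : ℂ) ^ 2
      = ((1 / 2 * ‖∑ j, (ξ j x) • a j (EuclideanSpace.single y 1)‖ ^ 2 : ℝ) : ℂ) := by
    push_cast; ring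
  refine le_of_le_of_eq ?_ this.symm
  exact_mod_cast (by positivity)

/-! ### no dilation -/

section Amp

variable {H : Type*} [NormedAddCommGroup H] [InnerProductSpace ℂ H] [CompleteSpace H]
variable {K : Type*} [NormedAddCommGroup K] [InnerProductSpace ℂ K] [CompleteSpace K]

/-- For an isometric inclusion `V : H → K`: the operator `V a V^*` on `K`. -/
noncomputable def amp (V : H →ₗᵢ[ℂ] K) (a : Op H) : Op K :=
  V.toContinuousLinearMap ∘L a ∘L (ContinuousLinearMap.adjoint V.toContinuousLinearMap)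

theorem amp_isAmp (V : H →ₗᵢ[ℂ] K) (a : Op H) : IsAmp V a (amp V a) := by
  constructor
  · intro ξ
    have h : (ContinuousLinearMap.adjoint V.toContinuousLinearMap) (V ξ) = ξ := by
      refine ext_inner_right ℂ fun y => ?_
      rw [ContinuousLinearMap.adjoint_inner_left]
      simp
    change V (a ((ContinuousLinearMap.adjoint V.toContinuousLinearMap) (V ξ))) = _
    rw [h]
  · intro x hx
    have h : (ContinuousLinearMap.adjoint V.toContinuousLinearMap) x = 0 := by
      refine ext_inner_left ℂ fun y => ?_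
      rw [ContinuousLinearMap.adjoint_inner_right, inner_zero_right]
      exact hx y
    change V (a ((ContinuousLinearMap.adjoint V.toContinuousLinearMap) x)) = _
    rw [h, map_zero, map_zero]

theorem IsAmp.eq {V : H →ₗᵢ[ℂ] K} {a : Op H} {b : Op K} (h : IsAmp V a b) : b = amp V a := by
  have h' := amp_isAmp V a
  ext x
  -- split `x` along `H`
  set y := (ContinuousLinearMap.adjoint V.toContinuousLinearMap) x with hy
  have hperp : ∀ ξ : H, ⟪V ξ, x - V y⟫_ℂ = 0 := by
    intro ξ
    rw [inner_sub_right, V.inner_map_map, hy, ContinuousLinearMap.adjoint_inner_right]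
    simp
  have e : x = V y + (x - V y) := by abel
  rw [e, map_add, map_add, h.1, h'.1, h.2 _ hperp, h'.2 _ hperp]

theorem adjoint_comp_self (V : H →ₗᵢ[ℂ] K) :
    (ContinuousLinearMap.adjoint V.toContinuousLinearMap) ∘L V.toContinuousLinearMap = 1 := by
  ext x
  refine ext_inner_right ℂ fun y => ?_
  rw [ContinuousLinearMap.comp_apply, ContinuousLinearMap.adjoint_inner_left]
  simp

theorem amp_mul (V : H →ₗᵢ[ℂ] K) (a b : H →L[ℂ] H) : amp V a * amp V b = amp V (a * b) := by
  have h := adjoint_comp_self V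
  ext x
  have h' := congrArg (fun f => f (b ((ContinuousLinearMap.adjoint V.toContinuousLinearMap) x))) h
  simp only [ContinuousLinearMap.comp_apply, one_apply_eq_self] at h'
  change V.toContinuousLinearMap (a ((ContinuousLinearMap.adjoint V.toContinuousLinearMap)
    (V.toContinuousLinearMap (b ((ContinuousLinearMap.adjoint V.toContinuousLinearMap) x))))) = _
  rw [h']
  rfl

theorem amp_star (V : H →ₗᵢ[ℂ] K) (a : H →L[ℂ] H) : star (amp V a) = amp V (star a) := by
  rw [ContinuousLinearMap.star_eq_adjoint, ContinuousLinearMap.star_eq_adjoint, amp, amp,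
    ContinuousLinearMap.adjoint_comp, ContinuousLinearMap.adjoint_comp,
    ContinuousLinearMap.adjoint_adjoint]
  rfl

theorem amp_add (V : H →ₗᵢ[ℂ] K) (a b : H →L[ℂ] H) : amp V (a + b) = amp V a + amp V b := by
  ext x; simp [amp]

theorem amp_smul (V : H →ₗᵢ[ℂ] K) (c : ℂ) (a : H →L[ℂ] H) : amp V (c • a) = c • amp V a := by
  ext x; simp [amp]

theorem amp_zero (V : H →ₗᵢ[ℂ] K) : amp V (0 : H →L[ℂ] H) = 0 := by
  ext x; simp [amp]

theorem amp_sum (V : H →ₗᵢ[ℂ] K) {ι : Type*} (s : Finset ι) (a : ι → H →L[ℂ] H) :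
    amp V (∑ i ∈ s, a i) = ∑ i ∈ s, amp V (a i) := by
  classical
  induction s using Finset.induction_on with
  | empty => simp [amp_zero]
  | insert i s hi ih => rw [Finset.sum_insert hi, Finset.sum_insert hi, amp_add, ih]

theorem amp_injective (V : H →ₗᵢ[ℂ] K) {a : H →L[ℂ] H} (h : amp V a = 0) : a = 0 := by
  ext x
  have h1 := congrArg (fun f => f (V x)) h
  have h2 := congrArg (fun f => f x) (adjoint_comp_self V)
  simp only [ContinuousLinearMap.comp_apply, one_apply_eq_self] at h2
  change V.toContinuousLinearMap (a ((ContinuousLinearMap.adjoint V.toContinuousLinearMap)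
    (V.toContinuousLinearMap x))) = 0 at h1
  rw [h2] at h1
  have h3 : ‖V (a x)‖ = 0 := by
    rw [show V (a x) = 0 from h1, norm_zero]
  rw [V.norm_map] at h3
  simpa using h3

end Amp

theorem sum_smul_mulOp (g : Fin 4 → ℂ) : ∑ x, g x • mulOp (Pi.single x 1) = mulOp g := by
  ext ξ x
  simp [mulOp_apply, Finset.sum_apply, Pi.single_apply]

theorem one_eq_sum : (1 : H4 →L[ℂ] H4) = ∑ x, mulOp (Pi.single x 1) := by
  ext ξ x
  simp [mulOp_apply, Finset.sum_apply, Pi.single_apply]

universe v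

/-- the elements of a von Neumann algebra, as a `*`-algebra -/
abbrev Elt {K : Type*} [NormedAddCommGroup K] [InnerProductSpace ℂ K] [CompleteSpace K]
    (A : VonNeumannAlgebra K) : Type _ := A.toStarSubalgebra

/-- the star homomorphism of `Elt B` given by a `*`-endomorphism of `B` -/
noncomputable def IsStarEndo.hom {K : Type*} [NormedAddCommGroup K] [InnerProductSpace ℂ K]
    [CompleteSpace K] {B : VonNeumannAlgebra K} {φ : Op K → Op K} (h : IsStarEndo B φ) :
    Elt B →⋆ₙₐ[ℂ] Elt B where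
  toFun b := ⟨φ (b : Op K), h.linear.1 _ b.2⟩
  map_smul' c b := Subtype.ext (h.linear.2.2 c _ b.2)
  map_zero' := by
    apply Subtype.ext
    have := h.linear.2.2 0 0 (zero_mem B)
    simpa using this
  map_add' a b := Subtype.ext (h.linear.2.1 _ a.2 _ b.2)
  map_mul' a b := Subtype.ext (h.map_mul _ a.2 _ b.2)
  map_star' a := Subtype.ext (h.map_star _ a.2)

/-- the triple `TT` has no dilation -/
theorem no_dilation (K : Type v) [NormedAddCommGroup K] [InnerProductSpace ℂ K] [CompleteSpace K]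
    (V : H4 →ₗᵢ[ℂ] K) (p : Op K) (B : VonNeumannAlgebra K) (θ : (Fin 3 → ℕ) → Op K → Op K)
    (D : IsDilation (topVN H4) (semigroupOf TT) V p B θ) : False := by
  have hpV : p = amp V 1 := D.isCorner.isProj.eq
  have hmem : ∀ a : H4 →L[ℂ] H4, amp V a ∈ B.toStarSubalgebra := by
    intro a
    obtain ⟨c, hc, hcb⟩ := (D.isCorner.corner (amp V a)).1 ⟨a, trivial, amp_isAmp V a⟩
    rw [← hcb]
    exact mul_mem (mul_mem D.isCorner.proj_mem hc) D.isCorner.proj_mem
  let E : Fin 4 → Elt B := fun x => ⟨amp V (mulOp (Pi.single x 1)), hmem _⟩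
  have hE0 : E 0 = 0 := by
    refine core (B := Elt B) ?_ E ?_ ?_ (fun i => (D.isSemigroup.endo (Pi.single i 1)).hom) ?_ ?_
    · intro x hx
      apply Subtype.ext
      have h1 : star (x : K →L[ℂ] K) * (x : K →L[ℂ] K) = 0 := congrArg Subtype.val hx
      exact CStarRing.star_mul_self_eq_zero_iff _ |>.1 h1
    · intro x
      apply Subtype.ext
      change star (amp V _) = amp V _
      rw [amp_star, mulOp_star]
      congr 2
      funext y
      by_cases h : y = x <;> simp [h]
    · intro x y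
      apply Subtype.ext
      change amp V _ * amp V _ = _
      rw [amp_mul, mulOp_mul]
      by_cases h : x = y
      · subst h
        rw [if_pos rfl]
        change _ = amp V _
        congr 2
        funext z
        by_cases h : z = x <;> simp [h]
      · rw [if_neg h]
        have : (Pi.single x 1 : Fin 4 → ℂ) * Pi.single y 1 = 0 := by
          funext z
          by_cases h1 : z = x
          · subst h1; simp [h]
          · simp [h1]
        rw [this]
        have h0 : mulOp 0 = 0 := by ext ξ z; simp [mulOp_apply]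
        rw [h0, amp_zero]; rfl
    · intro i j b
      have h1 := D.isSemigroup.θ_add (Pi.single i 1) (Pi.single j 1) b b.2
      have h2 := D.isSemigroup.θ_add (Pi.single j 1) (Pi.single i 1) b b.2
      rw [add_comm, h2] at h1
      exact Subtype.ext h1.symm
    · intro i y
      have h1 := (D.dilates (Pi.single i 1) (mulOp (Pi.single y 1)) trivial _
        (amp_isAmp V _)).eq
      have hsg : semigroupOf TT (Pi.single i 1) = TT i := by
        funext a
        fin_cases i <;> simp [semigroupOf]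
      rw [hsg] at h1
      have hp : ((∑ x, E x : Elt B) : K →L[ℂ] K) = p := by
        have : ((∑ x, E x : Elt B) : K →L[ℂ] K) = ∑ x, ((E x : Elt B) : K →L[ℂ] K) := by
          exact map_sum (B.toStarSubalgebra.subtype) E Finset.univ
        rw [this, hpV, one_eq_sum, amp_sum]
      apply Subtype.ext
      change ((∑ x, E x : Elt B) : K →L[ℂ] K) * (θ (Pi.single i 1) (E y : K →L[ℂ] K)) *
        ((∑ x, E x : Elt B) : K →L[ℂ] K) = _
      rw [hp]
      have h1' : p * θ (Pi.single i 1) (E y : K →L[ℂ] K) * p =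
        amp V (TT i (mulOp (Pi.single y 1))) := h1
      rw [h1']
      have h2 : ((∑ x, (if y ∈ NB i x then (1 / 2 : ℂ) else 0) • E x : Elt B) : K →L[ℂ] K) =
          ∑ x, (if y ∈ NB i x then (1 / 2 : ℂ) else 0) • ((E x : Elt B) : K →L[ℂ] K) := by
        exact map_sum (B.toStarSubalgebra.subtype)
          (fun x => (if y ∈ NB i x then (1 / 2 : ℂ) else 0) • E x) Finset.univ
      rw [h2]
      have h3 : ∀ x, (if y ∈ NB i x then (1 / 2 : ℂ) else 0) • ((E x : Elt B) : K →L[ℂ] K) =
          amp V ((if y ∈ NB i x then (1 / 2 : ℂ) else 0) • mulOp (Pi.single x 1)) := by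
        intro x
        rw [amp_smul]
      rw [Finset.sum_congr rfl fun x _ => h3 x, ← amp_sum]
      congr 1
      rw [TT, sum_smul_mulOp (fun x => if y ∈ NB i x then (1 / 2 : ℂ) else 0)]
      congr 1
      funext x
      simp only [avg, dg_mulOp]
      by_cases hy : y ∈ NB i x
      · simp [Pi.single_apply, hy]
      · simp [Pi.single_apply, hy]
  have h1 : amp V (mulOp (Pi.single 0 1)) = 0 := congrArg Subtype.val hE0
  have h2 := amp_injective _ h1
  have h3 := congrArg (fun a => dg a 0) h2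
  simp only [dg_mulOp] at h3
  simp [dg] at h3

end Run7.h610.CPD
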