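import Mathlib

/-!
# Lebesgue covering dimension at most `n`

`CovDimLE X n`: every finite open cover of `X` has a finite open refinement such that every
point lies in at most `n + 1` members of the refinement.
-/

namespace Run7.h610

/-- `dim X ≤ n` (Lebesgue covering dimension): every finite open cover of `X` has a finite open
refinement in which every point of `X` lies in at most `n + 1` members. -/
def CovDimLE (X : Type*) [TopologicalSpace X] (n : ℕ) : Prop :=
  ∀ (k : ℕ) (U : Fin k → Set X), (∀ i, IsOpen (U i)) → (⋃ i, U i) = Set.univ →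
    ∃ (m : ℕ) (V : Fin m → Set X), (∀ j, IsOpen (V j)) ∧ (⋃ j, V j) = Set.univ ∧
      (∀ j, ∃ i, V j ⊆ U i) ∧ ∀ x, {j | x ∈ V j}.ncard ≤ n + 1

end Run7.h610
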