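import Mathlib
import Pool.Agent.Run7.h610.CXDefs

open Set Topology

namespace Run7.h610

/-! ### Step 1: points in general position -/

/-- finitely many points of `ℂ` can be moved by less than `η` so that no two of them are on a
real line through `0` and none of them is `0`. -/
lemma exists_general_position (m : ℕ) (z : Fin m → ℂ) {η : ℝ} (hη : 0 < η) :
    ∃ w : Fin m → ℂ, (∀ k, ‖w k - z k‖ < η) ∧ (∀ k, w k ≠ 0) ∧
      ∀ k l, k ≠ l → (w k * (starRingEnd ℂ) (w l)).im ≠ 0 := by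
  -- directions
  let u : Fin m → ℂ := fun k => (⟨1, (k : ℝ)⟩ : ℂ)
  -- bad parameters
  have hbad1 : ∀ k : Fin m, {t : ℝ | z k + (t : ℂ) * u k = 0}.Finite := by
    intro k
    apply Set.Subsingleton.finite
    intro s hs t ht
    simp only [mem_ofPred_eq] at hs ht
    have h1 := congrArg Complex.re hs
    have h2 := congrArg Complex.re ht
    simp [u] at h1 h2
    linarith
  have hbad2 : ∀ k l : Fin m, k ≠ l →
      {t : ℝ | ((z k + (t : ℂ) * u k) * (starRingEnd ℂ) (z l + (t : ℂ) * u l)).im = 0}.Finite := by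
    intro k l hkl
    have hkl' : ((k : ℕ) : ℝ) - ((l : ℕ) : ℝ) ≠ 0 := by
      intro h
      apply hkl
      have : ((k : ℕ) : ℝ) = ((l : ℕ) : ℝ) := by linarith
      exact Fin.ext (by exact_mod_cast this)
    -- quadratic polynomial
    let p : Polynomial ℝ :=
      Polynomial.C (((k : ℕ) : ℝ) - ((l : ℕ) : ℝ)) * Polynomial.X ^ 2 +
      Polynomial.C ((z k).im + ((k : ℕ) : ℝ) * (z l).re - (z k).re * ((l : ℕ) : ℝ) - (z l).im) *
        Polynomial.X +
      Polynomial.C ((z k).im * (z l).re - (z k).re * (z l).im)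
    have hp : p ≠ 0 := by
      intro h0
      have := congrArg (fun q => Polynomial.coeff q 2) h0
      simp only [p, Polynomial.coeff_add, Polynomial.coeff_C_mul, Polynomial.coeff_X_pow,
        Polynomial.coeff_X, Polynomial.coeff_C, Polynomial.coeff_zero] at this
      norm_num at this
      exact hkl' this
    refine (Polynomial.finite_setOfPred_isRoot hp).subset ?_
    intro t ht
    simp only [mem_ofPred_eq] at ht ⊢
    simp only [Polynomial.IsRoot.def, p, Polynomial.eval_add, Polynomial.eval_mul,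
      Polynomial.eval_C, Polynomial.eval_pow, Polynomial.eval_X]
    simp [u] at ht
    linarith
  -- choose t
  obtain ⟨B, hB⟩ : ∃ B : ℝ, 0 < B ∧ ∀ k : Fin m, ‖u k‖ ≤ B := by
    refine ⟨1 + ∑ k : Fin m, ‖u k‖, by positivity, fun k => ?_⟩
    have : ‖u k‖ ≤ ∑ k : Fin m, ‖u k‖ :=
      Finset.single_le_sum (f := fun k => ‖u k‖) (fun i _ => norm_nonneg _) (Finset.mem_univ k)
    linarith
  have hfin : ((⋃ k : Fin m, {t : ℝ | z k + (t : ℂ) * u k = 0}) ∪
      ⋃ k : Fin m, ⋃ l : Fin m, ⋃ _ : k ≠ l,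
        {t : ℝ | ((z k + (t : ℂ) * u k) * (starRingEnd ℂ) (z l + (t : ℂ) * u l)).im = 0}).Finite := by
    refine Set.Finite.union (Set.finite_iUnion hbad1) ?_
    refine Set.finite_iUnion fun k => Set.finite_iUnion fun l => ?_
    exact Set.finite_iUnion fun h => hbad2 k l h
  have hinf : (Set.Ioo (0 : ℝ) (η / B)).Infinite := Set.Ioo_infinite (by positivity [hB.1])
  obtain ⟨t, ht, htn⟩ := hinf.exists_notMem_finite hfin
  simp only [mem_union, mem_iUnion, mem_ofPred_eq, not_or, not_exists] at htn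
  refine ⟨fun k => z k + (t : ℂ) * u k, fun k => ?_, fun k => htn.1 k, fun k l hkl => htn.2 k l hkl⟩
  have : ‖z k + (t : ℂ) * u k - z k‖ = t * ‖u k‖ := by
    rw [add_sub_cancel_left, norm_mul, Complex.norm_real, Real.norm_eq_abs, abs_of_pos ht.1]
  rw [this]
  calc t * ‖u k‖ ≤ t * B := by gcongr; exacts [ht.1.le, hB.2 k]
    _ < η / B * B := by gcongr; exacts [hB.1, ht.2]
    _ = η := by field_simp [hB.1.ne']

variable {X : Type*} [TopologicalSpace X] [CompactSpace X] [T2Space X]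

/-- On a compact Hausdorff space of covering dimension at most one, nowhere vanishing complex
functions are dense. -/
lemma exists_nonvanishing_near (hX : CovDimLE X 1) (F : C(X, ℂ)) {η : ℝ} (hη : 0 < η) :
    ∃ G : C(X, ℂ), (∀ x, G x ≠ 0) ∧ ‖G - F‖ ≤ η := by
  classical
  -- finite cover of X by preimages of balls
  have hcomp : IsCompact (univ : Set X) := isCompact_univ
  obtain ⟨t, ht⟩ := hcomp.elim_finite_subcover (fun y : X => F ⁻¹' Metric.ball (F y) (η / 4))
    (fun y => Metric.isOpen_ball.preimage F.continuous)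
    (fun x _ => mem_iUnion.2 ⟨x, by simp [hη]⟩)
  -- enumerate
  let e := t.equivFin
  obtain ⟨m, V, hVo, hVu, hVU, hVc⟩ := hX t.card
    (fun i => F ⁻¹' Metric.ball (F (e.symm i : X)) (η / 4))
    (fun i => Metric.isOpen_ball.preimage F.continuous)
    (by
      refine eq_univ_of_forall fun x => ?_
      obtain ⟨y, hy⟩ := mem_iUnion.1 (ht (mem_univ x))
      obtain ⟨hyt, hxy⟩ := mem_iUnion.1 hy
      exact mem_iUnion.2 ⟨e ⟨y, hyt⟩, by simpa using hxy⟩)
  choose i hi using hVU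
  obtain ⟨w, hwz, hw0, hwgen⟩ := exists_general_position m (fun j => F (e.symm (i j) : X))
    (η := η / 4) (by positivity)
  obtain ⟨ρ, hρ⟩ := PartitionOfUnity.exists_isSubordinate (s := (univ : Set X)) isClosed_univ V hVo
    (by rw [hVu])
  have hsum : ∀ x, ∑ j, ρ j x = 1 := fun x => by
    rw [← finsum_eq_sum_of_fintype]; exact ρ.sum_eq_one (mem_univ x)
  have hmem : ∀ x j, ρ j x ≠ 0 → x ∈ V j := fun x j h => hρ j (subset_tsupport _ h)
  let G : C(X, ℂ) := ⟨fun x => ∑ j, ((ρ j x : ℝ) : ℂ) * w j, by fun_prop⟩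
  refine ⟨G, fun x hx => ?_, ?_⟩
  · -- nonvanishing
    have hG : ∑ j, ((ρ j x : ℝ) : ℂ) * w j = 0 := hx
    obtain ⟨k0, hk0⟩ : ∃ k0, ρ k0 x ≠ 0 := by
      by_contra hcon
      push Not at hcon
      have := hsum x
      simp [hcon] at this
    by_cases hex : ∃ l, l ≠ k0 ∧ ρ l x ≠ 0
    · obtain ⟨l, hlk, hl⟩ := hex
      have hothers : ∀ j, j ≠ k0 → j ≠ l → ρ j x = 0 := by
        intro j hj1 hj2
        by_contra hj
        have hsub : ({k0, l, j} : Finset (Fin m)) ⊆ (Set.toFinite {j | x ∈ V j}).toFinset := by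
          intro a ha
          simp only [Finset.mem_insert, Finset.mem_singleton] at ha
          simp only [Set.Finite.mem_toFinset, mem_ofPred_eq]
          rcases ha with rfl | rfl | rfl
          · exact hmem x _ hk0
          · exact hmem x _ hl
          · exact hmem x _ hj
        have hcard := Finset.card_le_card hsub
        have h3 : ({k0, l, j} : Finset (Fin m)).card = 3 := by
          rw [Finset.card_eq_three]
          exact ⟨k0, l, j, hlk.symm, hj1.symm, hj2.symm, rfl⟩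
        rw [h3, ← Set.ncard_eq_toFinset_card] at hcard
        have := hVc x
        omega
      have h1 : ∑ j, ((ρ j x : ℝ) : ℂ) * w j =
          ((ρ k0 x : ℝ) : ℂ) * w k0 + ((ρ l x : ℝ) : ℂ) * w l := by
        rw [← Finset.sum_subset (Finset.subset_univ ({k0, l} : Finset (Fin m)))]
        · rw [Finset.sum_pair hlk.symm]
        · intro j _ hj
          simp only [Finset.mem_insert, Finset.mem_singleton, not_or] at hj
          rw [hothers j hj.1 hj.2]; simp
      rw [h1] at hG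
      have h2 : (((ρ k0 x : ℝ) : ℂ) * w k0 + ((ρ l x : ℝ) : ℂ) * w l) *
          (starRingEnd ℂ) (w l) = 0 := by rw [hG, zero_mul]
      have h3 := congrArg Complex.im h2
      have h4 : ((((ρ k0 x : ℝ) : ℂ) * w k0 + ((ρ l x : ℝ) : ℂ) * w l) *
          (starRingEnd ℂ) (w l)).im = ρ k0 x * (w k0 * (starRingEnd ℂ) (w l)).im := by
        simp
        ring
      rw [h4, Complex.zero_im] at h3
      rcases mul_eq_zero.1 h3 with h | h
      · exact hk0 h
      · exact hwgen k0 l hlk.symm h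
    · push Not at hex
      have h1 : ∑ j, ((ρ j x : ℝ) : ℂ) * w j = ((ρ k0 x : ℝ) : ℂ) * w k0 := by
        refine Finset.sum_eq_single k0 (fun j _ hj => ?_) (by simp)
        rw [hex j hj]; simp
      rw [h1] at hG
      rcases mul_eq_zero.1 hG with h | h
      · exact hk0 (by exact_mod_cast h)
      · exact hw0 _ h
  · -- close
    rw [ContinuousMap.norm_le _ hη.le]
    intro x
    have h1 : (G - F) x = ∑ j, ((ρ j x : ℝ) : ℂ) * (w j - F x) := by
      simp only [mul_sub, Finset.sum_sub_distrib, ← Finset.sum_mul]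
      have : (∑ j, ((ρ j x : ℝ) : ℂ)) = 1 := by
        rw [← Complex.ofReal_sum, hsum x]; simp
      rw [this, one_mul]; rfl
    rw [h1]
    calc ‖∑ j, ((ρ j x : ℝ) : ℂ) * (w j - F x)‖
        ≤ ∑ j, ‖((ρ j x : ℝ) : ℂ) * (w j - F x)‖ := norm_sum_le _ _
      _ ≤ ∑ j, ρ j x * η := by
        refine Finset.sum_le_sum fun j _ => ?_
        rw [norm_mul, Complex.norm_real, Real.norm_eq_abs, abs_of_nonneg (ρ.nonneg j x)]
        by_cases hj : ρ j x = 0
        · simp [hj]
        · have hx := hi j (hmem x j hj)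
          simp only [mem_preimage, Metric.mem_ball, dist_eq_norm] at hx
          have h2 := hwz j
          refine mul_le_mul_of_nonneg_left ?_ (ρ.nonneg j x)
          calc ‖w j - F x‖ = ‖(w j - F (e.symm (i j) : X)) - (F x - F (e.symm (i j) : X))‖ := by
                congr 1; ring
            _ ≤ ‖w j - F (e.symm (i j) : X)‖ + ‖F x - F (e.symm (i j) : X)‖ := norm_sub_le _ _
            _ ≤ η := by linarith
      _ = η := by rw [← Finset.sum_mul, hsum x, one_mul]


/-! ### Step 2: extension of nonvanishing functions from closed sets -/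

/-- If nowhere vanishing functions are dense in `C(X)`, every nowhere vanishing continuous function
on a closed subset extends to a nowhere vanishing continuous function on `X`. -/
lemma exists_nonvanishing_extension (hX : CovDimLE X 1) {A : Set X} (hA : IsClosed A)
    (u : C(A, ℂ)) (hu : ∀ a, u a ≠ 0) :
    ∃ U : C(X, ℂ), (∀ x, U x ≠ 0) ∧ ∀ a : A, U a = u a := by
  have : CompactSpace A := isCompact_iff_compactSpace.1 hA.isCompact
  -- lower bound
  obtain ⟨m, hm, hmu⟩ : ∃ m : ℝ, 0 < m ∧ ∀ a, m ≤ ‖u a‖ := by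
    rcases isEmpty_or_nonempty A with hE | hE
    · exact ⟨1, one_pos, fun a => (hE.false a).elim⟩
    · obtain ⟨a0, ha0⟩ := (isCompact_univ (X := A)).exists_isMinOn univ_nonempty
        (continuous_norm.comp u.continuous).continuousOn
      exact ⟨‖u a0‖, norm_pos_iff.2 (hu a0), fun a => ha0.2 (mem_univ a)⟩
  obtain ⟨F, hF⟩ := ContinuousMap.exists_restrict_eq hA u
  obtain ⟨G, hG0, hGF⟩ := exists_nonvanishing_near hX F (η := m / 2) (by positivity)
  have hFa : ∀ a : A, F a = u a := fun a => by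
    have := congrArg (fun q => q a) hF
    simpa using this
  have hclose : ∀ a : A, ‖G a / u a - 1‖ < 1 := by
    intro a
    have h1 : ‖G a - F a‖ ≤ m / 2 := ((G - F).norm_coe_le_norm a).trans hGF
    have h2 : G a / u a - 1 = (G a - F a) / u a := by
      rw [hFa a]; field_simp [hu a]
    rw [h2, norm_div, div_lt_one (norm_pos_iff.2 (hu a))]
    linarith [hmu a]
  have hslit : ∀ a : A, G a / u a ∈ Complex.slitPlane := by
    intro a
    have := hclose a
    rw [Complex.mem_slitPlane_iff]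
    left
    have h1 : |(G a / u a - 1).re| < 1 := (Complex.abs_re_le_norm _).trans_lt this
    rw [Complex.sub_re, Complex.one_re, abs_lt] at h1
    linarith [h1.1]
  let ℓ : C(A, ℂ) := ⟨fun a => Complex.log (G a / u a), by
    refine continuous_iff_continuousAt.2 fun a => ?_
    refine ContinuousAt.clog ?_ (hslit a)
    exact ContinuousAt.div (by fun_prop) (by fun_prop) (hu a)⟩
  obtain ⟨L, hL⟩ := ContinuousMap.exists_restrict_eq hA ℓ
  refine ⟨⟨fun x => G x * Complex.exp (-(L x)), by fun_prop⟩, fun x => ?_, fun a => ?_⟩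
  · exact mul_ne_zero (hG0 x) (Complex.exp_ne_zero _)
  · have hLa : L a = Complex.log (G a / u a) := by
      have := congrArg (fun q => q a) hL
      simpa [ℓ] using this
    have hne : G a / u a ≠ 0 := div_ne_zero (hG0 a) (hu a)
    change G a * Complex.exp (-(L a)) = u a
    rw [hLa, Complex.exp_neg, Complex.exp_log hne]
    field_simp [hu a, hG0 a]

/-! ### Step 3: exact factorisation of nonvanishing functions -/

/-- the principal square root is continuous on the slit plane and squares back -/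
lemma sqrt_props {w : ℂ} (hw : ‖w - 1‖ ≤ 1 / 2) :
    w ∈ Complex.slitPlane ∧ (Complex.exp (Complex.log w / 2)) ^ 2 = w ∧
      1 ≤ ‖1 + Complex.exp (Complex.log w / 2)‖ := by
  have hre : |(w - 1).re| ≤ 1 / 2 := (Complex.abs_re_le_norm _).trans hw
  rw [Complex.sub_re, Complex.one_re, abs_le] at hre
  have hslit : w ∈ Complex.slitPlane := by
    rw [Complex.mem_slitPlane_iff]; left; linarith [hre.1]
  have hw0 : w ≠ 0 := Complex.slitPlane_ne_zero hslit
  refine ⟨hslit, ?_, ?_⟩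
  · rw [← Complex.exp_nat_mul]
    have : ((2 : ℕ) : ℂ) * (Complex.log w / 2) = Complex.log w := by push_cast; ring
    rw [this, Complex.exp_log hw0]
  · have h1 : 0 ≤ (Complex.exp (Complex.log w / 2)).re := by
      rw [Complex.exp_re]
      refine mul_nonneg (Real.exp_pos _).le ?_
      have him : (Complex.log w / 2).im = Complex.arg w / 2 := by
        simp [Complex.log_im]
      rw [him]
      refine Real.cos_nonneg_of_mem_Icc ⟨?_, ?_⟩
      · linarith [Complex.neg_pi_lt_arg w]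
      · linarith [Complex.arg_le_pi w]
    calc (1 : ℝ) ≤ (1 + Complex.exp (Complex.log w / 2)).re := by
          rw [Complex.add_re, Complex.one_re]; linarith
      _ ≤ |(1 + Complex.exp (Complex.log w / 2)).re| := le_abs_self _
      _ ≤ _ := Complex.abs_re_le_norm _


/-- squared norm of the pair -/
noncomputable def NN (F G : ℂ) : ℝ := ‖F‖ ^ 2 + ‖G‖ ^ 2

/-- the number under the square root -/
noncomputable def ww (F G H : ℂ) : ℂ :=
  1 + 4 * (H - F * G) * (starRingEnd ℂ) (F * G) / ((NN F G : ℝ) : ℂ) ^ 2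

/-- the correction factor -/
noncomputable def ss (F G H : ℂ) : ℂ :=
  2 * (H - F * G) / (((NN F G : ℝ) : ℂ) * (1 + Complex.exp (Complex.log (ww F G H) / 2)))

lemma pointwise {F G H : ℂ} {r : ℝ} (hr : 0 < r) (hN : r ^ 2 ≤ NN F G)
    (hd : ‖H - F * G‖ ≤ r ^ 2 / 8) :
    ww F G H ∈ Complex.slitPlane ∧
    ((NN F G : ℝ) : ℂ) * (1 + Complex.exp (Complex.log (ww F G H) / 2)) ≠ 0 ∧
    (F + ss F G H * (starRingEnd ℂ) G) * (G + ss F G H * (starRingEnd ℂ) F) = H ∧
    ‖ss F G H * (starRingEnd ℂ) G‖ ≤ r / 4 ∧ ‖ss F G H * (starRingEnd ℂ) F‖ ≤ r / 4 := by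
  set N := NN F G with hNdef
  have hNpos : 0 < N := lt_of_lt_of_le (by positivity) hN
  have hNc : ((N : ℝ) : ℂ) ≠ 0 := by exact_mod_cast hNpos.ne'
  have hNeq : N = ‖F‖ ^ 2 + ‖G‖ ^ 2 := rfl
  have hFG : ‖F * G‖ ≤ N / 2 := by
    rw [norm_mul, hNeq]
    nlinarith [sq_nonneg (‖F‖ - ‖G‖)]
  have hw : ‖ww F G H - 1‖ ≤ 1 / 2 := by
    have h1 : ww F G H - 1 = 4 * (H - F * G) * (starRingEnd ℂ) (F * G) / ((N : ℝ) : ℂ) ^ 2 := by
      rw [ww]; ring
    rw [h1, norm_div, norm_mul, norm_mul, RCLike.norm_conj, norm_pow, Complex.norm_real,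
      Real.norm_eq_abs, abs_of_pos hNpos, div_le_iff₀ (by positivity)]
    have h4 : ‖(4 : ℂ)‖ = 4 := by norm_num
    rw [h4]
    have h5 : ‖H - F * G‖ ≤ N / 8 := hd.trans (by linarith)
    calc 4 * ‖H - F * G‖ * ‖F * G‖ ≤ 4 * (N / 8) * (N / 2) := by gcongr
      _ ≤ 1 / 2 * N ^ 2 := by nlinarith
  obtain ⟨hslit, hsq, hge⟩ := sqrt_props hw
  set σ := Complex.exp (Complex.log (ww F G H) / 2) with hσ
  have hσ0 : 1 + σ ≠ 0 := by
    intro h
    rw [h, norm_zero] at hge
    linarith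
  have hconjF : F * (starRingEnd ℂ) F = ((‖F‖ ^ 2 : ℝ) : ℂ) := by
    rw [Complex.mul_conj, Complex.normSq_eq_norm_sq]
  have hconjG : G * (starRingEnd ℂ) G = ((‖G‖ ^ 2 : ℝ) : ℂ) := by
    rw [Complex.mul_conj, Complex.normSq_eq_norm_sq]
  have hNN : ((N : ℝ) : ℂ) = F * (starRingEnd ℂ) F + G * (starRingEnd ℂ) G := by
    rw [hconjF, hconjG, hNeq]; push_cast; ring
  have hs : ss F G H = 2 * (H - F * G) / (((N : ℝ) : ℂ) * (1 + σ)) := rfl
  have hw2 : σ ^ 2 * ((N : ℝ) : ℂ) ^ 2 =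
      ((N : ℝ) : ℂ) ^ 2 + 4 * (H - F * G) * ((starRingEnd ℂ) F * (starRingEnd ℂ) G) := by
    rw [hsq, ww, ← hNdef, map_mul]
    field_simp
  have hnorm : ‖ss F G H‖ ≤ r ^ 2 / (4 * N) := by
    rw [hs, norm_div, norm_mul, norm_mul, Complex.norm_real, Real.norm_eq_abs, abs_of_pos hNpos]
    have h2 : ‖(2 : ℂ)‖ = 2 := by norm_num
    rw [h2, div_le_div_iff₀ (by positivity) (by positivity)]
    have hrr : 0 ≤ r ^ 2 := by positivity
    calc 2 * ‖H - F * G‖ * (4 * N) ≤ 2 * (r ^ 2 / 8) * (4 * N) := by gcongr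
      _ = r ^ 2 * (N * 1) := by ring
      _ ≤ r ^ 2 * (N * ‖1 + σ‖) := by gcongr
  have key : ∀ a : ℂ, ‖a‖ ^ 2 ≤ N → ‖ss F G H * (starRingEnd ℂ) a‖ ≤ r / 4 := by
    intro a ha
    rw [norm_mul, RCLike.norm_conj]
    calc ‖ss F G H‖ * ‖a‖ ≤ r ^ 2 / (4 * N) * ‖a‖ := by gcongr
      _ ≤ r / 4 := by
        rw [div_mul_eq_mul_div, div_le_div_iff₀ (by positivity) (by positivity)]
        have h1 : r * ‖a‖ ≤ N := by nlinarith [sq_nonneg (r - ‖a‖)]
        nlinarith [mul_le_mul_of_nonneg_left h1 hr.le]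
  refine ⟨hslit, mul_ne_zero hNc hσ0, ?_, key G (by rw [hNeq]; nlinarith [sq_nonneg ‖F‖]),
    key F (by rw [hNeq]; nlinarith [sq_nonneg ‖G‖])⟩
  -- algebra
  have hsN : ss F G H * (((N : ℝ) : ℂ) * (1 + σ)) = 2 * (H - F * G) := by
    rw [hs]; field_simp
  have hgoal : ss F G H * ((N : ℝ) : ℂ) +
      (ss F G H) ^ 2 * ((starRingEnd ℂ) F * (starRingEnd ℂ) G) = H - F * G := by
    have hne : (((N : ℝ) : ℂ) * (1 + σ)) ^ 2 ≠ 0 := pow_ne_zero _ (mul_ne_zero hNc hσ0)
    apply mul_right_cancel₀ hne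
    have e1 : (ss F G H * ((N : ℝ) : ℂ) +
        (ss F G H) ^ 2 * ((starRingEnd ℂ) F * (starRingEnd ℂ) G)) *
          (((N : ℝ) : ℂ) * (1 + σ)) ^ 2 =
        (ss F G H * (((N : ℝ) : ℂ) * (1 + σ))) * (((N : ℝ) : ℂ) ^ 2 * (1 + σ)) +
        (ss F G H * (((N : ℝ) : ℂ) * (1 + σ))) ^ 2 *
          ((starRingEnd ℂ) F * (starRingEnd ℂ) G) := by ring
    rw [e1, hsN]
    linear_combination (-(H - F * G)) * hw2
  linear_combination hgoal + ss F G H * (-hNN)

variable (f g h : C(X, ℂ))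

lemma exact_factor (hX : CovDimLE X 1) (hh : ∀ x, h x ≠ 0) {r : ℝ} (hr : 0 < r)
    (hd : ‖h - f * g‖ ≤ r ^ 2 / 8) :
    ∃ f' g' : C(X, ℂ), f' * g' = h ∧ ‖f' - f‖ ≤ 9 / 4 * r ∧ ‖g' - g‖ ≤ 9 / 4 * r := by
  have hdx : ∀ x, ‖h x - f x * g x‖ ≤ r ^ 2 / 8 := fun x =>
    ((h - f * g).norm_coe_le_norm x).trans hd
  have hNcont : Continuous fun x => NN (f x) (g x) := by unfold NN; fun_prop
  let R : Set X := {x | r ^ 2 ≤ NN (f x) (g x)}
  have hR : IsClosed R := isClosed_le continuous_const hNcont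
  have hpt : ∀ x : R, _ := fun x : R => pointwise (F := f x) (G := g x) (H := h x) hr x.2 (hdx x)
  let a : C(R, ℂ) := ⟨fun x => f x + ss (f x) (g x) (h x) * (starRingEnd ℂ) (g x), by
    have hww : Continuous fun x : R => ww (f x) (g x) (h x) := by
      unfold ww
      refine continuous_const.add (Continuous.div ?_ ?_ ?_)
      · fun_prop
      · exact ((Complex.continuous_ofReal.comp (hNcont.comp continuous_subtype_val)).pow 2)
      · intro x
        have := (mul_ne_zero_iff.1 (hpt x).2.1).1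
        exact pow_ne_zero _ this
    have hlog : Continuous fun x : R => Complex.log (ww (f x) (g x) (h x)) :=
      hww.clog fun x => (hpt x).1
    have hss : Continuous fun x : R => ss (f x) (g x) (h x) := by
      unfold ss
      refine Continuous.div (by fun_prop) ?_ fun x => (hpt x).2.1
      exact (Complex.continuous_ofReal.comp (hNcont.comp continuous_subtype_val)).mul
        (continuous_const.add (Complex.continuous_exp.comp (hlog.div_const 2)))
    fun_prop⟩
  have ha : ∀ x : R, a x = f x + ss (f x) (g x) (h x) * (starRingEnd ℂ) (g x) := fun x => rfl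
  have ha0 : ∀ x, a x ≠ 0 := by
    intro x h0
    have := (hpt x).2.2.1
    rw [← ha x, h0, zero_mul] at this
    exact hh x this.symm
  obtain ⟨U, hU0, hUa⟩ := exists_nonvanishing_extension hX hR a ha0
  -- data on R
  have hUR : ∀ x, r ^ 2 ≤ NN (f x) (g x) →
      ‖U x - f x‖ ≤ r / 4 ∧ ‖h x / U x - g x‖ ≤ r / 4 := by
    intro x hx
    have h1 := hpt ⟨x, hx⟩
    have h2 : U x = f x + ss (f x) (g x) (h x) * (starRingEnd ℂ) (g x) := hUa ⟨x, hx⟩
    have h3 : h x / U x = g x + ss (f x) (g x) (h x) * (starRingEnd ℂ) (f x) := by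
      rw [div_eq_iff (hU0 x), h2, mul_comm]
      exact h1.2.2.1.symm
    constructor
    · rw [h2, add_sub_cancel_left]; exact h1.2.2.2.1
    · rw [h3, add_sub_cancel_left]; exact h1.2.2.2.2
  have hsmallf : ∀ x, NN (f x) (g x) ≤ r ^ 2 → ‖f x‖ ≤ r := fun x hx => by
    unfold NN at hx
    exact abs_le_of_sq_le_sq' (by nlinarith [sq_nonneg ‖g x‖]) hr.le |>.2
  have hsmallg : ∀ x, NN (f x) (g x) ≤ r ^ 2 → ‖g x‖ ≤ r := fun x hx => by
    unfold NN at hx
    exact abs_le_of_sq_le_sq' (by nlinarith [sq_nonneg ‖f x‖]) hr.le |>.2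
  let ρ : ℝ := 5 / 4 * r
  have hρ : 0 < ρ := by positivity
  have hUnorm : ∀ x, 0 < ‖U x‖ := fun x => norm_pos_iff.2 (hU0 x)
  let M : C(X, ℝ) := ⟨fun x => if NN (f x) (g x) ≤ r ^ 2 then
      max (‖h x‖ / ρ) (min ρ ‖U x‖) else ‖U x‖, by
    refine Continuous.if_le (by fun_prop) (by fun_prop) hNcont continuous_const ?_
    intro x hx
    have h1 := hUR x hx.ge
    have hf := hsmallf x hx.le
    have hg := hsmallg x hx.le
    have h2 : ‖U x‖ ≤ ρ := by
      calc ‖U x‖ = ‖(U x - f x) + f x‖ := by ring_nf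
        _ ≤ ‖U x - f x‖ + ‖f x‖ := norm_add_le _ _
        _ ≤ ρ := by simp only [ρ]; linarith [h1.1]
    have h3 : ‖h x / U x‖ ≤ ρ := by
      calc ‖h x / U x‖ = ‖(h x / U x - g x) + g x‖ := by ring_nf
        _ ≤ ‖h x / U x - g x‖ + ‖g x‖ := norm_add_le _ _
        _ ≤ ρ := by simp only [ρ]; linarith [h1.2]
    rw [norm_div, div_le_iff₀ (hUnorm x)] at h3
    rw [min_eq_right h2, max_eq_right]
    rw [div_le_iff₀ hρ]
    linarith [mul_comm ρ ‖U x‖]⟩
  have hM : ∀ x, M x = if NN (f x) (g x) ≤ r ^ 2 then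
      max (‖h x‖ / ρ) (min ρ ‖U x‖) else ‖U x‖ := fun x => rfl
  have hMpos : ∀ x, 0 < M x := by
    intro x
    rw [hM]
    split_ifs
    · exact lt_max_of_lt_left (div_pos (norm_pos_iff.2 (hh x)) hρ)
    · exact hUnorm x
  let f' : C(X, ℂ) := ⟨fun x => U x / ((‖U x‖ : ℝ) : ℂ) * ((M x : ℝ) : ℂ), by
    refine Continuous.mul (Continuous.div (by fun_prop) (by fun_prop) fun x => ?_) (by fun_prop)
    exact_mod_cast (hUnorm x).ne'⟩
  have hf' : ∀ x, f' x = U x / ((‖U x‖ : ℝ) : ℂ) * ((M x : ℝ) : ℂ) := fun x => rfl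
  have hf'norm : ∀ x, ‖f' x‖ = M x := by
    intro x
    rw [hf', norm_mul, norm_div, Complex.norm_real, Complex.norm_real, norm_norm,
      div_self (hUnorm x).ne', one_mul, Real.norm_eq_abs, abs_of_pos (hMpos x)]
  have hf'0 : ∀ x, f' x ≠ 0 := fun x => norm_pos_iff.1 (by rw [hf'norm]; exact hMpos x)
  let g' : C(X, ℂ) := ⟨fun x => h x / f' x, Continuous.div (by fun_prop) (by fun_prop) hf'0⟩
  have hg' : ∀ x, g' x = h x / f' x := fun x => rfl
  refine ⟨f', g', ?_, ?_, ?_⟩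
  · ext x
    simp only [ContinuousMap.mul_apply, hg']
    field_simp [hf'0 x]
  · rw [ContinuousMap.norm_le _ (by positivity)]
    intro x
    rw [ContinuousMap.sub_apply]
    by_cases hx : NN (f x) (g x) ≤ r ^ 2
    · have hMle : M x ≤ ρ := by
        rw [hM, if_pos hx]
        refine max_le ?_ (min_le_left _ _)
        rw [div_le_iff₀ hρ]
        have h1 : ‖f x * g x‖ ≤ r ^ 2 / 2 := by
          rw [norm_mul]; unfold NN at hx
          nlinarith [sq_nonneg (‖f x‖ - ‖g x‖)]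
        have h2 : ‖h x‖ ≤ ‖h x - f x * g x‖ + ‖f x * g x‖ := by
          simpa using norm_add_le (h x - f x * g x) (f x * g x)
        have h3 := hdx x
        have : ρ * ρ = 25 / 16 * r ^ 2 := by simp only [ρ]; ring
        nlinarith [sq_nonneg r]
      calc ‖f' x - f x‖ ≤ ‖f' x‖ + ‖f x‖ := norm_sub_le _ _
        _ ≤ ρ + r := add_le_add ((hf'norm x).le.trans hMle) (hsmallf x hx)
        _ = 9 / 4 * r := by simp only [ρ]; ring
    · have hx' : r ^ 2 ≤ NN (f x) (g x) := (not_le.1 hx).le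
      have : f' x = U x := by
        rw [hf', hM, if_neg hx]
        have : ((‖U x‖ : ℝ) : ℂ) ≠ 0 := by exact_mod_cast (hUnorm x).ne'
        field_simp
      rw [this]
      linarith [(hUR x hx').1]
  · rw [ContinuousMap.norm_le _ (by positivity)]
    intro x
    rw [ContinuousMap.sub_apply]
    by_cases hx : NN (f x) (g x) ≤ r ^ 2
    · have hg'le : ‖g' x‖ ≤ ρ := by
        rw [hg', norm_div, hf'norm, div_le_iff₀ (hMpos x), ← div_le_iff₀' hρ]
        rw [hM, if_pos hx]
        exact le_max_left _ _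
      calc ‖g' x - g x‖ ≤ ‖g' x‖ + ‖g x‖ := norm_sub_le _ _
        _ ≤ ρ + r := add_le_add hg'le (hsmallg x hx)
        _ = 9 / 4 * r := by simp only [ρ]; ring
    · have hx' : r ^ 2 ≤ NN (f x) (g x) := (not_le.1 hx).le
      have : f' x = U x := by
        rw [hf', hM, if_neg hx]
        have : ((‖U x‖ : ℝ) : ℂ) ≠ 0 := by exact_mod_cast (hUnorm x).ne'
        field_simp
      rw [hg', this]
      linarith [(hUR x hx').2]

/-! ### Step 4: iteration -/

lemma step (hX : CovDimLE X 1) {r : ℝ} (hr : 0 < r) (hd : ‖h - f * g‖ ≤ r ^ 2 / 16) :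
    ∃ f' g' : C(X, ℂ), ‖f' - f‖ ≤ 9 / 4 * r ∧ ‖g' - g‖ ≤ 9 / 4 * r ∧
      ‖h - f' * g'‖ ≤ (r / 2) ^ 2 / 16 := by
  obtain ⟨k, hk0, hk⟩ := exists_nonvanishing_near hX h (η := (r / 2) ^ 2 / 16) (by positivity)
  obtain ⟨f', g', hfg, hf, hg⟩ := exact_factor f g k hX hk0 hr (by
    calc ‖k - f * g‖ = ‖(k - h) + (h - f * g)‖ := by congr 1; ring
      _ ≤ ‖k - h‖ + ‖h - f * g‖ := norm_add_le _ _
      _ ≤ r ^ 2 / 8 := by nlinarith [sq_nonneg r])
  refine ⟨f', g', hf, hg, ?_⟩
  rw [hfg, norm_sub_rev]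
  exact hk

theorem uniformly_open (hX : CovDimLE X 1) {ε : ℝ} (hε : 0 < ε)
    (hd : ‖h - f * g‖ < ε ^ 2 / 400) :
    ∃ f' g' : C(X, ℂ), ‖f' - f‖ < ε ∧ ‖g' - g‖ < ε ∧ f' * g' = h := by
  set r : ℝ := ε / 5 with hrdef
  have hr : 0 < r := by positivity
  have hstart : ‖h - f * g‖ ≤ r ^ 2 / 16 := by
    rw [hrdef]; refine hd.le.trans (le_of_eq ?_); ring
  have hstep : ∀ (n : ℕ) (p : C(X, ℂ) × C(X, ℂ)), ∃ q : C(X, ℂ) × C(X, ℂ),
      ‖h - p.1 * p.2‖ ≤ (r / 2 ^ n) ^ 2 / 16 →
        ‖q.1 - p.1‖ ≤ 9 / 4 * (r / 2 ^ n) ∧ ‖q.2 - p.2‖ ≤ 9 / 4 * (r / 2 ^ n) ∧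
          ‖h - q.1 * q.2‖ ≤ (r / 2 ^ (n + 1)) ^ 2 / 16 := by
    intro n p
    by_cases hp : ‖h - p.1 * p.2‖ ≤ (r / 2 ^ n) ^ 2 / 16
    · obtain ⟨f', g', h1, h2, h3⟩ := step p.1 p.2 h hX (r := r / 2 ^ n) (by positivity) hp
      refine ⟨(f', g'), fun _ => ⟨h1, h2, ?_⟩⟩
      have : r / 2 ^ (n + 1) = r / 2 ^ n / 2 := by rw [pow_succ]; field_simp
      rw [this]; exact h3
    · exact ⟨p, fun h => absurd h hp⟩
  choose Q hQ using hstep
  let seq : ℕ → C(X, ℂ) × C(X, ℂ) := fun n => Nat.rec (f, g) (fun n p => Q n p) n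
  have hseq0 : seq 0 = (f, g) := rfl
  have hseqs : ∀ n, seq (n + 1) = Q n (seq n) := fun n => rfl
  have hinv : ∀ n, ‖h - (seq n).1 * (seq n).2‖ ≤ (r / 2 ^ n) ^ 2 / 16 := by
    intro n
    induction n with
    | zero => simpa [hseq0] using hstart
    | succ n ih => rw [hseqs]; exact (hQ n (seq n) ih).2.2
  have hd1 : ∀ n, dist (seq n).1 (seq (n + 1)).1 ≤ (9 / 2 * r) / 2 / 2 ^ n := by
    intro n
    rw [hseqs, dist_eq_norm, norm_sub_rev]
    refine (hQ n (seq n) (hinv n)).1.trans (le_of_eq ?_)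
    ring
  have hd2 : ∀ n, dist (seq n).2 (seq (n + 1)).2 ≤ (9 / 2 * r) / 2 / 2 ^ n := by
    intro n
    rw [hseqs, dist_eq_norm, norm_sub_rev]
    refine (hQ n (seq n) (hinv n)).2.1.trans (le_of_eq ?_)
    ring
  obtain ⟨F, hF⟩ := cauchySeq_tendsto_of_complete (cauchySeq_of_le_geometric_two hd1)
  obtain ⟨G, hG⟩ := cauchySeq_tendsto_of_complete (cauchySeq_of_le_geometric_two hd2)
  have hF0 : dist (seq 0).1 F ≤ 9 / 2 * r := dist_le_of_le_geometric_two_of_tendsto₀ hd1 hF
  have hG0 : dist (seq 0).2 G ≤ 9 / 2 * r := dist_le_of_le_geometric_two_of_tendsto₀ hd2 hG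
  refine ⟨F, G, ?_, ?_, ?_⟩
  · rw [hseq0, dist_eq_norm, norm_sub_rev] at hF0
    refine lt_of_le_of_lt hF0 ?_
    rw [hrdef]; linarith
  · rw [hseq0, dist_eq_norm, norm_sub_rev] at hG0
    refine lt_of_le_of_lt hG0 ?_
    rw [hrdef]; linarith
  · have hlim : Filter.Tendsto (fun n => h - (seq n).1 * (seq n).2) Filter.atTop
        (𝓝 (h - F * G)) := tendsto_const_nhds.sub (hF.mul hG)
    have hzero : Filter.Tendsto (fun n => h - (seq n).1 * (seq n).2) Filter.atTop (𝓝 0) := by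
      rw [tendsto_zero_iff_norm_tendsto_zero]
      refine squeeze_zero (fun _ => norm_nonneg _) hinv ?_
      have h1 : Filter.Tendsto (fun n : ℕ => r / 2 ^ n) Filter.atTop (𝓝 0) := by
        have := tendsto_pow_atTop_nhds_zero_of_lt_one (r := (1 / 2 : ℝ)) (by norm_num) (by norm_num)
        have h2 := this.const_mul r
        simp only [mul_zero] at h2
        refine h2.congr fun n => ?_
        rw [div_pow, one_pow]; ring
      have h3 := (h1.pow 2).div_const 16
      simpa using h3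
    have := tendsto_nhds_unique hlim hzero
    exact (sub_eq_zero.1 this).symm

end Run7.h610
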