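import Mathlib

/-!
# Directed multigraphs, directed cuts and dijoins: definitions
-/

namespace Run7.h610.DJ

universe u v

/-- A digraph with vertex set `V` and arc set `A`: the arc `a` goes from `src a` to `tgt a`.
Parallel arcs are allowed (and so are loops, which lie in no cut). -/
structure Dig (V : Type u) (A : Type v) where
  /-- tail of an arc -/
  src : A → V
  /-- head of an arc -/
  tgt : A → V

variable {V : Type u} {A : Type v}

/-- `δ⁺(X)`: the arcs leaving `X`. -/
def Dig.outArcs (D : Dig V A) (X : Set V) : Set A := {a | D.src a ∈ X ∧ D.tgt a ∉ X}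

/-- `δ⁻(X)`: the arcs entering `X`. -/
def Dig.inArcs (D : Dig V A) (X : Set V) : Set A := {a | D.src a ∉ X ∧ D.tgt a ∈ X}

/-- `C` is a directed cut: a nonempty arc set `δ⁺(X)` with `∅ ≠ X ≠ V` and `δ⁻(X) = ∅`. -/
def Dig.IsDicut (D : Dig V A) (C : Set A) : Prop :=
  C.Nonempty ∧ ∃ X : Set V, X ≠ ∅ ∧ X ≠ Set.univ ∧ D.inArcs X = ∅ ∧ C = D.outArcs X

/-- `F` is a `k`-dijoin: it has at least `k` arcs in every directed cut. -/
def Dig.IsKDijoin (D : Dig V A) (k : ℕ) (F : Set A) : Prop :=
  ∀ C : Set A, D.IsDicut C → k ≤ (F ∩ C).ncard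

/-- The underlying undirected graph of the digraph whose arcs are the arcs of `F` and whose
vertices are their endpoints. -/
def Dig.supportGraph (D : Dig V A) (F : Set A) :
    SimpleGraph {v : V // ∃ a ∈ F, D.src a = v ∨ D.tgt a = v} :=
  SimpleGraph.fromRel (fun p q => ∃ a ∈ F, D.src a = p ∧ D.tgt a = q)

/-- `F` is weakly connected: any two endpoints of arcs of `F` are joined in the underlying
undirected graph of `F` (the empty set is allowed as well). -/
def Dig.WeaklyConnected (D : Dig V A) (F : Set A) : Prop := (D.supportGraph F).Preconnected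

end Run7.h610.DJ
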