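import Mathlib

/-!
# Splitting an integral vector over a ring family

`V` is a finite set and `L` a family of subsets of `V` closed under union and intersection.
If `g : V → ℤ` has total `0` and `g(X) ≥ 2` for every `X ∈ L` with `∅ ≠ X ≠ V`, then
`g = y + z` with `y, z : V → ℤ` of total `0` and `y(X), z(X) ≥ 1` for all those `X`.
-/

namespace Run7.h610.DJ

open Finset

variable {V : Type*} [Fintype V] [DecidableEq V]

/-- Integral vectors of total `0` that are at least `1` on all nontrivial members of `L`. -/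
def InB (L : Finset V → Prop) (y : V → ℤ) : Prop :=
  (∑ v, y v = 0) ∧ ∀ X : Finset V, L X → X ≠ ∅ → X ≠ univ → 1 ≤ ∑ v ∈ X, y v

/-- the vector with a one at `u` -/
def chi (u : V) : V → ℤ := fun v => if v = u then 1 else 0

omit [Fintype V] in
lemma sum_chi (u : V) (X : Finset V) : ∑ v ∈ X, chi u v = if u ∈ X then 1 else 0 := by
  simp [chi]

lemma sum_chi_univ (u : V) : ∑ v, chi u v = 1 := by simp [chi]

omit [Fintype V] in
/-- A family of sets in which intersecting members have their union in the family, and an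
additive function nonpositive on the members, is nonpositive on the union. -/
lemma union_nonpos (f : V → ℤ) : ∀ (n : ℕ) (C : Finset (Finset V)), C.card ≤ n →
    (∀ A ∈ C, ∀ B ∈ C, (A ∩ B).Nonempty → A ∪ B ∈ C) →
    (∀ A ∈ C, ∑ v ∈ A, f v ≤ 0) → ∑ v ∈ C.biUnion id, f v ≤ 0 := by
  intro n
  induction n with
  | zero =>
    intro C hc _ _
    have : C = ∅ := Finset.card_eq_zero.mp (Nat.le_zero.mp hc)
    simp [this]
  | succ n ih =>
    intro C hc hU hf
    rcases C.eq_empty_or_nonempty with h0 | hne
    · simp [h0]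
    · obtain ⟨M, hM, hmax⟩ := C.exists_max_image (fun A => A.card) hne
      set C' := C.filter (fun A => Disjoint A M) with hC'
      -- every member either lies in `M` or is disjoint from it
      have hsub : ∀ A ∈ C, ¬ Disjoint A M → A ⊆ M := by
        intro A hA hd
        have h1 : A ∪ M ∈ C := by
          apply hU A hA M hM
          rw [Finset.not_disjoint_iff_nonempty_inter] at hd
          exact hd
        have h2 := hmax _ h1
        have h3 : A ∪ M = M := by
          symm
          apply Finset.eq_of_subset_of_card_le Finset.subset_union_right h2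
        exact Finset.union_eq_right.mp h3
      have hun : C.biUnion id = C'.biUnion id ∪ M := by
        ext v
        simp only [mem_biUnion, id, mem_union, hC', mem_filter]
        constructor
        · rintro ⟨A, hA, hv⟩
          by_cases hd : Disjoint A M
          · exact Or.inl ⟨A, ⟨hA, hd⟩, hv⟩
          · exact Or.inr (hsub A hA hd hv)
        · rintro (⟨A, ⟨hA, _⟩, hv⟩ | hv)
          · exact ⟨A, hA, hv⟩
          · exact ⟨M, hM, hv⟩
      have hdisj : Disjoint (C'.biUnion id) M := by
        rw [Finset.disjoint_biUnion_left]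
        intro A hA
        exact (mem_filter.mp hA).2
      rw [hun, Finset.sum_union hdisj]
      rcases M.eq_empty_or_nonempty with hMe | hMne
      · -- then all members are empty
        have : ∀ A ∈ C, A = ∅ := by
          intro A hA
          have := hmax A hA
          rw [hMe] at this
          simpa using this
        have h1 : C'.biUnion id = ∅ := by
          rw [Finset.eq_empty_iff_forall_notMem]
          intro v hv
          simp only [mem_biUnion, id, hC', mem_filter] at hv
          obtain ⟨A, ⟨hA, _⟩, hv⟩ := hv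
          rw [this A hA] at hv
          simp at hv
        simp [h1, hMe]
      · have hlt : C'.card ≤ n := by
          have : C' ⊂ C := by
            rw [hC', Finset.filter_ssubset]
            exact ⟨M, hM, by simpa [disjoint_self] using hMne.ne_empty⟩
          have := Finset.card_lt_card this
          omega
        have h1 := ih C' hlt ?_ ?_
        · have h2 := hf M hM
          linarith
        · intro A hA B hB hAB
          rw [hC', mem_filter] at hA hB ⊢
          refine ⟨hU A hA.1 B hB.1 hAB, ?_⟩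
          rw [Finset.disjoint_union_left]
          exact ⟨hA.2, hB.2⟩
        · intro A hA
          exact hf A (mem_filter.mp hA).1

/-- The exchange property. -/
lemma exchange (L : Finset V → Prop) (hI : ∀ X Y, L X → L Y → L (X ∩ Y))
    (hU : ∀ X Y, L X → L Y → L (X ∪ Y)) {y y' : V → ℤ} (hy : InB L y) (hy' : InB L y')
    {w : V} (hw : y' w < y w) :
    ∃ w', y w' < y' w' ∧ InB L (fun v => y v - chi w v + chi w' v) := by
  classical
  by_contra hcon
  push Not at hcon
  -- the tight sets containing `w`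
  have htight : ∀ w', y w' < y' w' → ∃ X : Finset V, L X ∧ X ≠ ∅ ∧ X ≠ univ ∧ w ∈ X ∧ w' ∉ X ∧
      ∑ v ∈ X, y v = 1 := by
    intro w' hw'
    have h1 := hcon w' hw'
    rw [InB, not_and] at h1
    have h2 : ∑ v, (y v - chi w v + chi w' v) = 0 := by
      rw [Finset.sum_add_distrib, Finset.sum_sub_distrib, hy.1, sum_chi_univ, sum_chi_univ]
      norm_num
    have h3 := h1 h2
    push Not at h3
    obtain ⟨X, hLX, hX0', hX1, hX2⟩ := h3
    have hX0 : X ≠ ∅ := hX0'.ne_empty
    have h4 : ∑ v ∈ X, (y v - chi w v + chi w' v)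
        = ∑ v ∈ X, y v - (if w ∈ X then 1 else 0) + (if w' ∈ X then 1 else 0) := by
      rw [Finset.sum_add_distrib, Finset.sum_sub_distrib, sum_chi, sum_chi]
    rw [h4] at hX2
    have h5 := hy.2 X hLX hX0 hX1
    refine ⟨X, hLX, hX0, hX1, ?_⟩
    by_cases ha : w ∈ X <;> by_cases hb : w' ∈ X <;> simp only [ha, hb, if_true, if_false] at hX2 ⊢
    · exfalso; omega
    · refine ⟨trivial, not_false, by omega⟩
    · exfalso; omega
    · exfalso; omega
  -- complements of tight sets containing `w`
  set C : Finset (Finset V) := univ.filter (fun A => L Aᶜ ∧ Aᶜ ≠ ∅ ∧ Aᶜ ≠ univ ∧ w ∈ Aᶜ ∧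
    ∑ v ∈ Aᶜ, y v = 1) with hC
  have hcompl : ∀ (f : V → ℤ), ∑ v, f v = 0 → ∀ A : Finset V, ∑ v ∈ A, f v = - ∑ v ∈ Aᶜ, f v := by
    intro f hf A
    have := Finset.sum_add_sum_compl A f
    rw [hf] at this
    omega
  have hCU : ∀ A ∈ C, ∀ B ∈ C, (A ∩ B).Nonempty → A ∪ B ∈ C := by
    intro A hA B hB hAB
    rw [hC, mem_filter] at hA hB ⊢
    obtain ⟨-, hA1, hA2, hA3, hA4, hA5⟩ := hA
    obtain ⟨-, hB1, hB2, hB3, hB4, hB5⟩ := hB
    have hc : (A ∪ B)ᶜ = Aᶜ ∩ Bᶜ := by rw [Finset.compl_union]
    have hwi : w ∈ Aᶜ ∩ Bᶜ := mem_inter.mpr ⟨hA4, hB4⟩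
    have hne : Aᶜ ∩ Bᶜ ≠ ∅ := Finset.ne_empty_of_mem hwi
    have hnu : Aᶜ ∩ Bᶜ ≠ univ := by
      intro h
      apply hA3
      rw [Finset.eq_univ_iff_forall] at h ⊢
      intro v
      exact (mem_inter.mp (h v)).1
    have hue : Aᶜ ∪ Bᶜ ≠ ∅ := Finset.ne_empty_of_mem (mem_union_left _ hA4)
    have huu : Aᶜ ∪ Bᶜ ≠ univ := by
      obtain ⟨v, hv⟩ := hAB
      intro h
      have := Finset.eq_univ_iff_forall.mp h v
      rw [mem_inter] at hv
      rw [mem_union, mem_compl, mem_compl] at this
      rcases this with h | h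
      · exact h hv.1
      · exact h hv.2
    have e1 := hy.2 _ (hI _ _ hA1 hB1) hne hnu
    have e2 := hy.2 _ (hU _ _ hA1 hB1) hue huu
    have e3 := Finset.sum_union_inter (s₁ := Aᶜ) (s₂ := Bᶜ) (f := y)
    rw [hc]
    refine ⟨mem_univ _, hI _ _ hA1 hB1, hne, hnu, hwi, by omega⟩
  have hCf : ∀ A ∈ C, ∑ v ∈ A, (y' v - y v) ≤ 0 := by
    intro A hA
    rw [hC, mem_filter] at hA
    obtain ⟨-, hA1, hA2, hA3, hA4, hA5⟩ := hA
    rw [Finset.sum_sub_distrib, hcompl y' hy'.1 A, hcompl y hy.1 A]
    have := hy'.2 _ hA1 hA2 hA3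
    omega
  have h1 := union_nonpos (fun v => y' v - y v) C.card C le_rfl hCU hCf
  set U := C.biUnion id with hUdef
  have hwU : w ∉ U := by
    intro h
    rw [hUdef, mem_biUnion] at h
    obtain ⟨A, hA, hwA⟩ := h
    rw [hC, mem_filter] at hA
    exact (mem_compl.mp hA.2.2.2.2.1) hwA
  have hsuppU : ∀ v, y v < y' v → v ∈ U := by
    intro v hv
    obtain ⟨X, a1, a2, a3, a4, a5, a6⟩ := htight v hv
    rw [hUdef, mem_biUnion]
    refine ⟨Xᶜ, ?_, by simpa using a5⟩
    rw [hC, mem_filter, compl_compl]
    exact ⟨mem_univ _, a1, a2, a3, a4, a6⟩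
  have h2 : ∑ v ∈ Uᶜ, (y' v - y v) < 0 := by
    have : ∑ v ∈ Uᶜ, (y' v - y v) < ∑ v ∈ Uᶜ, (0:ℤ) := by
      apply Finset.sum_lt_sum
      · intro v hv
        have : ¬ y v < y' v := fun h => (mem_compl.mp hv) (hsuppU v h)
        omega
      · exact ⟨w, mem_compl.mpr hwU, by omega⟩
    simpa using this
  have h3 := Finset.sum_add_sum_compl U (fun v => y' v - y v)
  have h4 : ∑ v, (y' v - y v) = 0 := by
    rw [Finset.sum_sub_distrib, hy'.1, hy.1]; norm_num
  omega

/-- `ℓ¹` distance as a natural number -/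
def dist1 (y z : V → ℤ) : ℕ := ∑ v, (y v - z v).natAbs

lemma dist1_lt {y y' : V → ℤ} {w w' : V} (hw : y' w < y w) (hw' : y w' < y' w') :
    dist1 (fun v => y v - chi w v + chi w' v) y' < dist1 y y' := by
  unfold dist1
  have hne : w ≠ w' := by rintro rfl; omega
  apply Finset.sum_lt_sum
  · intro v _
    by_cases h1 : v = w
    · subst h1
      simp only [chi, if_true, if_neg hne]
      omega
    · by_cases h2 : v = w'
      · subst h2
        simp only [chi, if_true, if_neg h1]
        omega
      · simp only [chi, if_neg h1, if_neg h2]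
        omega
  · refine ⟨w, mem_univ _, ?_⟩
    simp only [chi, if_true, if_neg hne]
    omega

/-- The walk used in the midpoint lemma. -/
lemma walk (L : Finset V → Prop) (hI : ∀ X Y, L X → L Y → L (X ∩ Y))
    (hU : ∀ X Y, L X → L Y → L (X ∪ Y)) {y₁ z₁ : V → ℤ} (hy₁ : InB L y₁) (hz₁ : InB L z₁)
    (u v : V) : ∀ (n : ℕ) (y z : V → ℤ) (w : V), InB L y → InB L z →
    dist1 y y₁ + dist1 z z₁ ≤ n →
    (∀ a, y a + z a = y₁ a + z₁ a + chi u a - 2 * chi v a + chi w a) →
    ∃ y' z', InB L y' ∧ InB L z' ∧ ∀ a, y' a + z' a = y₁ a + z₁ a + chi u a - chi v a := by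
  intro n
  induction n with
  | zero =>
    intro y z w hy hz hd hs
    by_cases hwv : w = v
    · refine ⟨y, z, hy, hz, ?_⟩
      intro a
      rw [hs a, hwv]
      ring
    · exfalso
      have h1 : 0 < (y w - y₁ w) + (z w - z₁ w) := by
        have := hs w
        simp only [chi, if_true, if_neg hwv] at this
        by_cases h : w = u
        · rw [if_pos h] at this; omega
        · rw [if_neg h] at this; omega
      have e1 : (y w - y₁ w).natAbs ≤ dist1 y y₁ :=
        Finset.single_le_sum (f := fun a => (y a - y₁ a).natAbs) (fun _ _ => Nat.zero_le _)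
          (mem_univ w)
      have e2 : (z w - z₁ w).natAbs ≤ dist1 z z₁ :=
        Finset.single_le_sum (f := fun a => (z a - z₁ a).natAbs) (fun _ _ => Nat.zero_le _)
          (mem_univ w)
      omega
  | succ n ih =>
    intro y z w hy hz hd hs
    by_cases hwv : w = v
    · refine ⟨y, z, hy, hz, ?_⟩
      intro a
      rw [hs a, hwv]
      ring
    · have h1 : 0 < (y w - y₁ w) + (z w - z₁ w) := by
        have := hs w
        simp only [chi, if_true, if_neg hwv] at this
        by_cases h : w = u
        · rw [if_pos h] at this; omega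
        · rw [if_neg h] at this; omega
      by_cases hyw : y₁ w < y w
      · obtain ⟨w', hw', hB⟩ := exchange L hI hU hy hy₁ hyw
        have hlt := dist1_lt hyw hw'
        refine ih _ z w' hB hz (by omega) ?_
        intro a
        have := hs a
        linarith
      · have hzw : z₁ w < z w := by omega
        obtain ⟨w', hw', hB⟩ := exchange L hI hU hz hz₁ hzw
        have hlt := dist1_lt hzw hw'
        refine ih y _ w' hy hB (by omega) ?_
        intro a
        have := hs a
        linarith

/-- The midpoint lemma. -/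
lemma midpoint (L : Finset V → Prop) (hI : ∀ X Y, L X → L Y → L (X ∩ Y))
    (hU : ∀ X Y, L X → L Y → L (X ∪ Y)) {y₁ z₁ y₂ z₂ : V → ℤ} (hy₁ : InB L y₁) (hz₁ : InB L z₁)
    (hy₂ : InB L y₂) (hz₂ : InB L z₂) (u v : V) (g : V → ℤ)
    (h1 : ∀ a, y₁ a + z₁ a = g a - chi u a + chi v a)
    (h2 : ∀ a, y₂ a + z₂ a = g a + chi u a - chi v a) :
    ∃ y z, InB L y ∧ InB L z ∧ ∀ a, y a + z a = g a := by
  obtain ⟨y, z, hy, hz, h⟩ := walk L hI hU hy₁ hz₁ u v _ y₂ z₂ u hy₂ hz₂ le_rfl (by
    intro a
    have e1 := h1 a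
    have e2 := h2 a
    linarith)
  refine ⟨y, z, hy, hz, ?_⟩
  intro a
  rw [h a]
  have e1 := h1 a
  linarith

/-- the number of odd entries -/
def oddc (g : V → ℤ) : ℕ := (univ.filter (fun v => Odd (g v))).card

/-- Gluing at a tight set. -/
lemma glue (L : Finset V → Prop) (hI : ∀ X Y, L X → L Y → L (X ∩ Y))
    (hU : ∀ X Y, L X → L Y → L (X ∪ Y)) (X : Finset V) (hX : L X)
    {y₁ y₂ : V → ℤ} (h1 : InB (fun Y => L Y ∧ (X ⊆ Y ∨ Disjoint X Y)) y₁)
    (h2 : InB (fun Y => L Y ∧ (Y ⊆ X ∨ Xᶜ ⊆ Y)) y₂)
    (e1 : ∑ v ∈ X, y₁ v = 1) (e2 : ∑ v ∈ X, y₂ v = 1) :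
    InB L (fun v => if v ∈ X then y₂ v else y₁ v) := by
  classical
  have hsum : ∀ Y : Finset V, ∑ v ∈ Y, (if v ∈ X then y₂ v else y₁ v)
      = ∑ v ∈ Y ∩ X, y₂ v + ∑ v ∈ Y \ X, y₁ v := by
    intro Y
    rw [Finset.sum_ite]
    congr 1
    apply Finset.sum_congr _ (fun _ _ => rfl)
    ext v; simp
  have hc1 : ∑ v ∈ Xᶜ, y₁ v = -1 := by
    have := Finset.sum_add_sum_compl X y₁
    rw [h1.1, e1] at this; omega
  have hc2 : ∑ v ∈ Xᶜ, y₂ v = -1 := by
    have := Finset.sum_add_sum_compl X y₂
    rw [h2.1, e2] at this; omega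
  constructor
  · have := hsum univ
    rw [this]
    have a1 : univ ∩ X = X := by simp
    have a2 : univ \ X = Xᶜ := by rw [Finset.compl_eq_univ_sdiff]
    rw [a1, a2, e2, hc1]; norm_num
  · intro Y hLY hY0 hY1
    rw [hsum]
    by_cases hd : Disjoint X Y
    · have a1 : Y ∩ X = ∅ := by
        rw [Finset.inter_comm]; exact Finset.disjoint_iff_inter_eq_empty.mp hd
      have a2 : Y \ X = Y := by
        rw [Finset.sdiff_eq_self_iff_disjoint]; exact hd.symm
      rw [a1, a2]
      have := h1.2 Y ⟨hLY, Or.inr hd⟩ hY0 hY1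
      simpa using this
    · by_cases hc : Xᶜ ⊆ Y
      · have b1 := h2.2 Y ⟨hLY, Or.inr hc⟩ hY0 hY1
        have b2 : Y \ X = Xᶜ := by
          ext v
          simp only [mem_sdiff, mem_compl]
          constructor
          · exact fun h => h.2
          · exact fun h => ⟨hc (mem_compl.mpr h), h⟩
        have b3 : ∑ v ∈ Y, y₂ v = ∑ v ∈ Y ∩ X, y₂ v + ∑ v ∈ Y \ X, y₂ v := by
          rw [← Finset.sum_inter_add_sum_sdiff Y X]
        rw [b2] at b3
        rw [b2, hc1]
        rw [b3, hc2] at b1
        exact b1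
      · -- crossing case
        have c1 : (Y ∩ X).Nonempty := by
          rw [Finset.inter_comm]
          exact Finset.not_disjoint_iff_nonempty_inter.mp hd
        have c2 : Y ∪ X ≠ univ := by
          intro h
          apply hc
          intro v hv
          have := Finset.eq_univ_iff_forall.mp h v
          rw [mem_union] at this
          rcases this with h | h
          · exact h
          · exact absurd h (mem_compl.mp hv)
        have c3 : Y ∩ X ≠ univ := by
          intro h
          apply hY1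
          rw [Finset.eq_univ_iff_forall] at h ⊢
          intro v
          exact (mem_inter.mp (h v)).1
        have c4 : Y ∪ X ≠ ∅ := by
          intro h
          apply hY0
          exact (Finset.union_eq_empty.mp h).1
        have d1 := h2.2 (Y ∩ X) ⟨hI _ _ hLY hX, Or.inl Finset.inter_subset_right⟩
          c1.ne_empty c3
        have d2 := h1.2 (Y ∪ X) ⟨hU _ _ hLY hX, Or.inl Finset.subset_union_right⟩ c4 c2
        have d3 : ∑ v ∈ Y ∪ X, y₁ v = ∑ v ∈ Y \ X, y₁ v + ∑ v ∈ X, y₁ v := by
          rw [← Finset.sum_sdiff (Finset.subset_union_right : X ⊆ Y ∪ X),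
            Finset.union_sdiff_right]
        omega

omit [Fintype V] in
lemma sum_ite_mem' (g : V → ℤ) (X Y : Finset V) (h : ℤ) (r : V) :
    ∑ v ∈ Y, (if v ∈ X then (if v = r then h else 0) else g v)
      = (if r ∈ Y ∩ X then h else 0) + ∑ v ∈ Y \ X, g v := by
  rw [Finset.sum_ite]
  congr 1
  · have : (Y.filter (fun v => v ∈ X)) = Y ∩ X := by ext v; simp
    rw [this]
    simp
  · apply Finset.sum_congr _ (fun _ _ => rfl)
    ext v; simp

/-- **The splitting theorem.** -/
theorem split_aux : ∀ (n : ℕ) (L : Finset V → Prop), (∀ X Y, L X → L Y → L (X ∩ Y)) →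
    (∀ X Y, L X → L Y → L (X ∪ Y)) → ∀ (g : V → ℤ), oddc g ≤ n → ∑ v, g v = 0 →
    (∀ X : Finset V, L X → X ≠ ∅ → X ≠ univ → 2 ≤ ∑ v ∈ X, g v) →
    ∃ y z, InB L y ∧ InB L z ∧ ∀ a, y a + z a = g a := by
  classical
  intro n
  induction n using Nat.strong_induction_on with
  | _ n ih =>
  intro L hI hU g hn hg0 hg
  by_cases hodd : ∃ u, Odd (g u)
  · obtain ⟨u, hu⟩ := hodd
    -- another odd vertex
    have hv : ∃ v, v ≠ u ∧ Odd (g v) := by
      by_contra hcon
      push Not at hcon
      have h1 : Odd (∑ v, g v) := by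
        rw [← Finset.add_sum_erase univ g (mem_univ u)]
        apply Odd.add_even hu
        apply Finset.even_sum
        intro c hc
        exact Int.not_odd_iff_even.mp (hcon c (Finset.ne_of_mem_erase hc))
      rw [hg0] at h1
      exact absurd h1 (by decide)
    obtain ⟨v, hvu, hv⟩ := hv
    -- gluing at a tight set that separates two odd vertices
    have key : ∀ (a b : V), Odd (g a) → Odd (g b) → ∀ X : Finset V, L X → a ∈ X → b ∉ X →
        ∑ w ∈ X, g w = 2 → ∃ y z, InB L y ∧ InB L z ∧ ∀ a, y a + z a = g a := by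
      intro a b ha hb X hLX haX hbX hX2
      set g₁ : V → ℤ := fun w => if w ∈ X then (if w = a then 2 else 0) else g w with hg₁
      set g₂ : V → ℤ := fun w => if w ∈ Xᶜ then (if w = b then -2 else 0) else g w with hg₂
      have hXc : ∑ w ∈ Xᶜ, g w = -2 := by
        have := Finset.sum_add_sum_compl X g
        omega
      have hX0 : X ≠ ∅ := Finset.ne_empty_of_mem haX
      have hX1 : X ≠ univ := fun h => hbX (h ▸ mem_univ b)
      have s₁ : ∀ Y : Finset V, ∑ w ∈ Y, g₁ w = (if a ∈ Y then 2 else 0) + ∑ w ∈ Y \ X, g w := by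
        intro Y
        rw [hg₁, sum_ite_mem']
        congr 1
        simp [haX]
      have s₂ : ∀ Y : Finset V, ∑ w ∈ Y, g₂ w = (if b ∈ Y then -2 else 0) + ∑ w ∈ Y ∩ X, g w := by
        intro Y
        rw [hg₂, sum_ite_mem']
        congr 1
        · simp [hbX]
        · apply Finset.sum_congr _ (fun _ _ => rfl)
          ext v; simp
      have o₁ : oddc g₁ < oddc g := by
        apply Finset.card_lt_card
        rw [Finset.ssubset_iff_of_subset]
        · refine ⟨a, by simpa using ha, ?_⟩
          simp only [mem_filter, hg₁, haX, if_true, mem_univ, true_and]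
          decide
        · intro w hw
          simp only [mem_filter, mem_univ, true_and, hg₁] at hw ⊢
          by_cases h : w ∈ X
          · rw [if_pos h] at hw
            by_cases h' : w = a
            · rw [if_pos h'] at hw; exact absurd hw (by decide)
            · rw [if_neg h'] at hw; exact absurd hw (by decide)
          · rwa [if_neg h] at hw
      have o₂ : oddc g₂ < oddc g := by
        apply Finset.card_lt_card
        rw [Finset.ssubset_iff_of_subset]
        · refine ⟨b, by simpa using hb, ?_⟩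
          have : b ∈ Xᶜ := mem_compl.mpr hbX
          simp only [mem_filter, hg₂, this, if_true, mem_univ, true_and]
          decide
        · intro w hw
          simp only [mem_filter, mem_univ, true_and, hg₂] at hw ⊢
          by_cases h : w ∈ Xᶜ
          · rw [if_pos h] at hw
            by_cases h' : w = b
            · rw [if_pos h'] at hw; exact absurd hw (by decide)
            · rw [if_neg h'] at hw; exact absurd hw (by decide)
          · rwa [if_neg h] at hw
      have P₂ : ∃ y z, InB (fun Y => L Y ∧ (Y ⊆ X ∨ Xᶜ ⊆ Y)) y ∧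
          InB (fun Y => L Y ∧ (Y ⊆ X ∨ Xᶜ ⊆ Y)) z ∧ ∀ a, y a + z a = g₂ a := by
       refine ih (oddc g₂) (lt_of_lt_of_le o₂ hn)
        (fun Y => L Y ∧ (Y ⊆ X ∨ Xᶜ ⊆ Y)) ?_ ?_ g₂ le_rfl ?_ ?_
       · rintro Y Z ⟨hY, hY'⟩ ⟨hZ, hZ'⟩
         refine ⟨hI _ _ hY hZ, ?_⟩
         rcases hY' with h | h
         · exact Or.inl (Finset.inter_subset_left.trans h)
         · rcases hZ' with h' | h'
           · exact Or.inl (Finset.inter_subset_right.trans h')
           · exact Or.inr (Finset.subset_inter h h')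
       · rintro Y Z ⟨hY, hY'⟩ ⟨hZ, hZ'⟩
         refine ⟨hU _ _ hY hZ, ?_⟩
         rcases hY' with h | h
         · rcases hZ' with h' | h'
           · exact Or.inl (Finset.union_subset h h')
           · exact Or.inr (h'.trans Finset.subset_union_right)
         · exact Or.inr (h.trans Finset.subset_union_left)
       · rw [s₂]
         simp [hX2]
       · rintro Y ⟨hY, hY'⟩ hY0 hY1
         rcases hY' with h | h
         · have hb' : b ∉ Y := fun hb' => hbX (h hb')
           rw [s₂, if_neg hb', Finset.inter_eq_left.mpr h]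
           have := hg Y hY hY0 hY1
           omega
         · have hb' : b ∈ Y := h (mem_compl.mpr hbX)
           rw [s₂, if_pos hb']
           have h1 := hg Y hY hY0 hY1
           have h2 : ∑ w ∈ Y, g w = ∑ w ∈ Y ∩ X, g w + ∑ w ∈ Y \ X, g w := by
             rw [← Finset.sum_inter_add_sum_sdiff Y X]
           have h3 : Y \ X = Xᶜ := by
             ext v
             simp only [mem_sdiff, mem_compl]
             constructor
             · exact fun h => h.2
             · exact fun h'' => ⟨h (mem_compl.mpr h''), h''⟩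
           rw [h3, hXc] at h2
           omega
      have P₁ : ∃ y z, InB (fun Y => L Y ∧ (X ⊆ Y ∨ Disjoint X Y)) y ∧
          InB (fun Y => L Y ∧ (X ⊆ Y ∨ Disjoint X Y)) z ∧ ∀ a, y a + z a = g₁ a := by
       refine ih (oddc g₁) (lt_of_lt_of_le o₁ hn)
        (fun Y => L Y ∧ (X ⊆ Y ∨ Disjoint X Y)) ?_ ?_ g₁ le_rfl ?_ ?_
       · rintro Y Z ⟨hY, hY'⟩ ⟨hZ, hZ'⟩
         refine ⟨hI _ _ hY hZ, ?_⟩
         rcases hY' with h | h
         · rcases hZ' with h' | h'
           · exact Or.inl (Finset.subset_inter h h')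
           · exact Or.inr (Finset.disjoint_of_subset_right Finset.inter_subset_right h')
         · exact Or.inr (Finset.disjoint_of_subset_right Finset.inter_subset_left h)
       · rintro Y Z ⟨hY, hY'⟩ ⟨hZ, hZ'⟩
         refine ⟨hU _ _ hY hZ, ?_⟩
         rcases hY' with h | h
         · exact Or.inl (h.trans Finset.subset_union_left)
         · rcases hZ' with h' | h'
           · exact Or.inl (h'.trans Finset.subset_union_right)
           · exact Or.inr (Finset.disjoint_union_right.mpr ⟨h, h'⟩)
       · rw [s₁]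
         have : univ \ X = Xᶜ := by rw [Finset.compl_eq_univ_sdiff]
         rw [this, hXc]
         simp
       · rintro Y ⟨hY, hY'⟩ hY0 hY1
         rcases hY' with h | h
         · rw [s₁, if_pos (h haX)]
           have h1 := hg Y hY hY0 hY1
           have h2 := Finset.sum_sdiff (f := g) h
           omega
         · have ha' : a ∉ Y := fun ha' => (Finset.disjoint_left.mp h haX) ha'
           rw [s₁, if_neg ha', Finset.sdiff_eq_self_iff_disjoint.mpr h.symm]
           have := hg Y hY hY0 hY1
           omega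
      obtain ⟨y₁, z₁, hy₁, hz₁, hs₁⟩ := P₁
      obtain ⟨y₂, z₂, hy₂, hz₂, hs₂⟩ := P₂
      -- tightness of the pieces on `X`
      have t1 : ∑ w ∈ X, g₁ w = 2 := by rw [s₁, if_pos haX]; simp
      have t2 : ∑ w ∈ X, g₂ w = 2 := by rw [s₂, if_neg hbX]; simp [hX2]
      have t1' : ∑ w ∈ X, y₁ w + ∑ w ∈ X, z₁ w = 2 := by
        rw [← t1, ← Finset.sum_add_distrib]
        exact Finset.sum_congr rfl (fun w _ => hs₁ w)
      have t2' : ∑ w ∈ X, y₂ w + ∑ w ∈ X, z₂ w = 2 := by
        rw [← t2, ← Finset.sum_add_distrib]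
        exact Finset.sum_congr rfl (fun w _ => hs₂ w)
      have m1 : (fun Y => L Y ∧ (X ⊆ Y ∨ Disjoint X Y)) X := ⟨hLX, Or.inl (Finset.Subset.refl X)⟩
      have m2 : (fun Y => L Y ∧ (Y ⊆ X ∨ Xᶜ ⊆ Y)) X := ⟨hLX, Or.inl (Finset.Subset.refl X)⟩
      have u1 := hy₁.2 X m1 hX0 hX1
      have u2 := hz₁.2 X m1 hX0 hX1
      have u3 := hy₂.2 X m2 hX0 hX1
      have u4 := hz₂.2 X m2 hX0 hX1
      refine ⟨_, _, glue L hI hU X hLX hy₁ hy₂ (by omega) (by omega),
        glue L hI hU X hLX hz₁ hz₂ (by omega) (by omega), ?_⟩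
      intro w
      by_cases hw : w ∈ X
      · simp only [if_pos hw]
        rw [hs₂ w, hg₂]
        simp [hw]
      · simp only [if_neg hw]
        rw [hs₁ w, hg₁]
        simp [hw]
    by_cases hsep1 : ∃ X : Finset V, L X ∧ u ∈ X ∧ v ∉ X ∧ ∑ w ∈ X, g w = 2
    · obtain ⟨X, h1, h2, h3, h4⟩ := hsep1
      exact key u v hu hv X h1 h2 h3 h4
    by_cases hsep2 : ∃ X : Finset V, L X ∧ v ∈ X ∧ u ∉ X ∧ ∑ w ∈ X, g w = 2
    · obtain ⟨X, h1, h2, h3, h4⟩ := hsep2
      exact key v u hv hu X h1 h2 h3 h4
    -- now both `g ± (χ_u - χ_v)` satisfy the hypothesis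
    have step : ∀ (a b : V), a ≠ b → Odd (g a) → Odd (g b) →
        (¬ ∃ X : Finset V, L X ∧ a ∈ X ∧ b ∉ X ∧ ∑ w ∈ X, g w = 2) →
        ∃ y z, InB L y ∧ InB L z ∧ ∀ w, y w + z w = g w - chi a w + chi b w := by
      intro a b hab ha hb hns
      have hodd' : ∀ w, Odd (g w - chi a w + chi b w) ↔ (Odd (g w) ∧ w ≠ a ∧ w ≠ b) := by
        intro w
        by_cases h1 : w = a
        · subst h1
          have : Even (g w - 1) := by
            obtain ⟨k, hk⟩ := ha
            exact ⟨k, by omega⟩
          simp only [chi, if_true, if_neg hab, add_zero]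
          constructor
          · intro h
            exact absurd h (Int.not_odd_iff_even.mpr this)
          · rintro ⟨_, h, _⟩
            exact absurd rfl h
        · by_cases h2 : w = b
          · subst h2
            have : Even (g w + 1) := by
              obtain ⟨k, hk⟩ := hb
              exact ⟨k + 1, by omega⟩
            simp only [chi, if_true, if_neg h1, sub_zero]
            constructor
            · intro h
              exact absurd h (Int.not_odd_iff_even.mpr this)
            · rintro ⟨_, _, h⟩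
              exact absurd rfl h
          · simp [chi, h1, h2]
      have o : oddc (fun w => g w - chi a w + chi b w) < oddc g := by
        apply Finset.card_lt_card
        rw [Finset.ssubset_iff_of_subset]
        · refine ⟨a, by simpa using ha, ?_⟩
          simp [hodd']
        · intro w hw
          simp only [mem_filter, mem_univ, true_and, hodd'] at hw ⊢
          exact hw.1
      have q1 : ∑ w, (g w - chi a w + chi b w) = 0 := by
        rw [Finset.sum_add_distrib, Finset.sum_sub_distrib, hg0, sum_chi_univ, sum_chi_univ]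
        norm_num
      have q2 : ∀ X : Finset V, L X → X ≠ ∅ → X ≠ univ →
          2 ≤ ∑ w ∈ X, (g w - chi a w + chi b w) := by
        intro X hX hX0 hX1
        have e : ∑ w ∈ X, (g w - chi a w + chi b w)
            = ∑ w ∈ X, g w - (if a ∈ X then 1 else 0) + (if b ∈ X then 1 else 0) := by
          rw [Finset.sum_add_distrib, Finset.sum_sub_distrib, sum_chi, sum_chi]
        rw [e]
        have h2 := hg X hX hX0 hX1
        by_cases haX : a ∈ X <;> by_cases hbX : b ∈ X
        · rw [if_pos haX, if_pos hbX]; omega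
        · rw [if_pos haX, if_neg hbX]
          have : ∑ w ∈ X, g w ≠ 2 := fun h => hns ⟨X, hX, haX, hbX, h⟩
          omega
        · rw [if_neg haX, if_pos hbX]; omega
        · rw [if_neg haX, if_neg hbX]; omega
      exact ih _ (lt_of_lt_of_le o hn) L hI hU (fun w => g w - chi a w + chi b w) le_rfl q1 q2
    obtain ⟨y₁, z₁, hy₁, hz₁, hs₁⟩ := step u v hvu.symm hu hv hsep1
    obtain ⟨y₂, z₂, hy₂, hz₂, hs₂⟩ := step v u hvu hv hu hsep2
    exact midpoint L hI hU hy₁ hz₁ hy₂ hz₂ u v g hs₁ (fun a => by
      have := hs₂ a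
      linarith)
  · -- all entries even
    push Not at hodd
    have hev : ∀ v, g v = g v / 2 + g v / 2 := by
      intro v
      obtain ⟨k, hk⟩ := Int.not_odd_iff_even.mp (hodd v)
      omega
    have hsum : ∀ X : Finset V, ∑ v ∈ X, g v = ∑ v ∈ X, g v / 2 + ∑ v ∈ X, g v / 2 := by
      intro X
      rw [← Finset.sum_add_distrib]
      exact Finset.sum_congr rfl (fun v _ => hev v)
    have hB : InB L (fun v => g v / 2) := by
      constructor
      · have := hsum univ
        rw [hg0] at this
        show ∑ v, g v / 2 = 0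
        omega
      · intro X hX hX0 hX1
        have h1 := hg X hX hX0 hX1
        have h2 := hsum X
        show 1 ≤ ∑ v ∈ X, g v / 2
        omega
    exact ⟨_, _, hB, hB, fun a => (hev a).symm⟩

/-- **The splitting theorem.** -/
theorem split (L : Finset V → Prop) (hI : ∀ X Y, L X → L Y → L (X ∩ Y))
    (hU : ∀ X Y, L X → L Y → L (X ∪ Y)) (g : V → ℤ) (hg0 : ∑ v, g v = 0)
    (hg : ∀ X : Finset V, L X → X ≠ ∅ → X ≠ univ → 2 ≤ ∑ v ∈ X, g v) :
    ∃ y z, InB L y ∧ InB L z ∧ ∀ a, y a + z a = g a :=
  split_aux (oddc g) L hI hU g le_rfl hg0 hg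

end Run7.h610.DJ
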