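import Mathlib
import Pool.Agent.Run7.h610.DJDefs
import Pool.Agent.Run7.h610.DJSplit

/-!
# Weakly connected 2-dijoins split into two dijoins
-/

namespace Run7.h610.DJ

open Finset

universe u v

variable {V : Type u} {A : Type v}

/-- Along the connected set `F` one unit can be sent from `p` to `q`. -/
lemma unit_flow [Fintype A] [DecidableEq A] (D : Dig V A) (F : Set A) (Ff : Finset A)
    (hFf : ∀ a, a ∈ Ff ↔ a ∈ F)
    {p q : {v : V // ∃ a ∈ F, D.src a = v ∨ D.tgt a = v}} (h : (D.supportGraph F).Reachable p q) :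
    ∃ x : A → ℤ, ∀ f : V → ℤ, f p - f q = ∑ a ∈ Ff, (f (D.src a) - f (D.tgt a)) * x a := by
  obtain ⟨P⟩ := h
  induction P with
  | nil => exact ⟨0, fun f => by simp⟩
  | @cons p r q hadj P ih =>
    obtain ⟨x, hx⟩ := ih
    rw [Dig.supportGraph, SimpleGraph.fromRel_adj] at hadj
    obtain ⟨-, h | h⟩ := hadj
    · obtain ⟨a, ha, h1, h2⟩ := h
      refine ⟨fun b => (if b = a then 1 else 0) + x b, fun f => ?_⟩
      have e : ∑ b ∈ Ff, (f (D.src b) - f (D.tgt b)) * ((if b = a then 1 else 0) + x b)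
          = ∑ b ∈ Ff, (if b = a then f (D.src b) - f (D.tgt b) else 0)
            + ∑ b ∈ Ff, (f (D.src b) - f (D.tgt b)) * x b := by
        rw [← Finset.sum_add_distrib]
        refine Finset.sum_congr rfl (fun b _ => ?_)
        split_ifs <;> ring
      rw [e, ← hx f, Finset.sum_ite_eq', if_pos ((hFf a).mpr ha), h1, h2]
      ring
    · obtain ⟨a, ha, h1, h2⟩ := h
      refine ⟨fun b => (if b = a then -1 else 0) + x b, fun f => ?_⟩
      have e : ∑ b ∈ Ff, (f (D.src b) - f (D.tgt b)) * ((if b = a then -1 else 0) + x b)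
          = ∑ b ∈ Ff, (if b = a then -(f (D.src b) - f (D.tgt b)) else 0)
            + ∑ b ∈ Ff, (f (D.src b) - f (D.tgt b)) * x b := by
        rw [← Finset.sum_add_distrib]
        refine Finset.sum_congr rfl (fun b _ => ?_)
        split_ifs <;> ring
      rw [e, ← hx f, Finset.sum_ite_eq', if_pos ((hFf a).mpr ha), h1, h2]
      ring

/-- **Main theorem.** -/
theorem two_dijoins [Finite V] [Finite A] (D : Dig V A) (F : Set A)
    (hconn : D.WeaklyConnected F) (h2 : D.IsKDijoin 2 F) :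
    ∃ F₁ F₂ : Set A, F₁ ∪ F₂ = F ∧ F₁ ∩ F₂ = ∅ ∧ D.IsKDijoin 1 F₁ ∧ D.IsKDijoin 1 F₂ := by
  classical
  have : Fintype V := Fintype.ofFinite V
  have : Fintype A := Fintype.ofFinite A
  let W := {v : V // ∃ a ∈ F, D.src a = v ∨ D.tgt a = v}
  let Ff : Finset A := univ.filter (fun a => a ∈ F)
  have hFf : ∀ a, a ∈ Ff ↔ a ∈ F := fun a => by simp [Ff]
  -- indicator functions
  let ind : Set V → V → ℤ := fun X v => if v ∈ X then 1 else 0
  -- the vector `g`
  let g : W → ℤ := fun w => ∑ a ∈ Ff, ((if D.src a = w then 1 else 0) - (if D.tgt a = w then 1 else 0))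
  have hg : ∀ f : V → ℤ, ∑ w : W, f w * g w = ∑ a ∈ Ff, (f (D.src a) - f (D.tgt a)) := by
    intro f
    simp only [g, Finset.mul_sum]
    rw [Finset.sum_comm]
    refine Finset.sum_congr rfl (fun a ha => ?_)
    have haF := (hFf a).mp ha
    have e1 : ∑ w : W, f w * ((if D.src a = w then 1 else 0) - (if D.tgt a = w then 1 else 0))
        = ∑ w : W, (if (⟨D.src a, a, haF, Or.inl rfl⟩ : W) = w then f w else 0)
          - ∑ w : W, (if (⟨D.tgt a, a, haF, Or.inr rfl⟩ : W) = w then f w else 0) := by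
      rw [← Finset.sum_sub_distrib]
      refine Finset.sum_congr rfl (fun w _ => ?_)
      have c1 : ((⟨D.src a, a, haF, Or.inl rfl⟩ : W) = w) ↔ D.src a = w := by
        rw [Subtype.ext_iff]
      have c2 : ((⟨D.tgt a, a, haF, Or.inr rfl⟩ : W) = w) ↔ D.tgt a = w := by
        rw [Subtype.ext_iff]
      simp only [c1, c2]
      split_ifs <;> ring
    rw [e1, Finset.sum_ite_eq, Finset.sum_ite_eq]
    simp
  -- the ring family
  let L : Finset W → Prop := fun Y => ∃ X : Set V, D.inArcs X = ∅ ∧ ∀ w : W, w ∈ Y ↔ (w : V) ∈ X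
  have hI : ∀ Y Z, L Y → L Z → L (Y ∩ Z) := by
    rintro Y Z ⟨X, hX, hY⟩ ⟨X', hX', hZ⟩
    refine ⟨X ∩ X', ?_, fun w => by rw [Finset.mem_inter, hY, hZ]; rfl⟩
    rw [Set.eq_empty_iff_forall_notMem] at hX hX' ⊢
    rintro a ⟨h1, h3, h4⟩
    by_cases h : D.src a ∈ X
    · exact hX' a ⟨fun h' => h1 ⟨h, h'⟩, h4⟩
    · exact hX a ⟨h, h3⟩
  have hU : ∀ Y Z, L Y → L Z → L (Y ∪ Z) := by
    rintro Y Z ⟨X, hX, hY⟩ ⟨X', hX', hZ⟩
    refine ⟨X ∪ X', ?_, fun w => by rw [Finset.mem_union, hY, hZ]; rfl⟩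
    rw [Set.eq_empty_iff_forall_notMem] at hX hX' ⊢
    rintro a ⟨h1, h3⟩
    rcases h3 with h3 | h3
    · exact hX a ⟨fun h' => h1 (Or.inl h'), h3⟩
    · exact hX' a ⟨fun h' => h1 (Or.inr h'), h3⟩
  -- value on a member of the family
  have hval : ∀ (X : Set V), D.inArcs X = ∅ → ∀ x : A → ℤ,
      ∑ a ∈ Ff, (ind X (D.src a) - ind X (D.tgt a)) * x a
        = ∑ a ∈ Ff.filter (fun a => a ∈ D.outArcs X), x a := by
    intro X hX x
    rw [show ∑ a ∈ Ff.filter (fun a => a ∈ D.outArcs X), x a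
      = ∑ a ∈ Ff, if a ∈ D.outArcs X then x a else 0 from Finset.sum_filter _ _]
    refine Finset.sum_congr rfl (fun a _ => ?_)
    have h0 : a ∉ D.inArcs X := by rw [hX]; simp
    by_cases h1 : D.src a ∈ X <;> by_cases h3 : D.tgt a ∈ X
    · have : a ∉ D.outArcs X := fun h => h.2 h3
      simp [ind, h1, h3, this]
    · have : a ∈ D.outArcs X := ⟨h1, h3⟩
      simp [ind, h1, h3, this]
    · exact absurd ⟨h1, h3⟩ h0
    · have : a ∉ D.outArcs X := fun h => h1 h.1
      simp [ind, h1, h3, this]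
  have hgY : ∀ (X : Set V) (Y : Finset W), D.inArcs X = ∅ → (∀ w : W, w ∈ Y ↔ (w : V) ∈ X) →
      ∑ w ∈ Y, g w = ((Ff.filter (fun a => a ∈ D.outArcs X)).card : ℤ) := by
    intro X Y hX hY
    have e1 : ∑ w ∈ Y, g w = ∑ w : W, ind X w * g w := by
      rw [← Finset.sum_filter_add_sum_filter_not univ (fun w : W => w ∈ Y) (fun w => ind X w * g w)]
      have a1 : ∑ w ∈ univ.filter (fun w : W => ¬ w ∈ Y), ind X w * g w = 0 := by
        apply Finset.sum_eq_zero
        intro w hw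
        have : (w : V) ∉ X := fun h => (Finset.mem_filter.mp hw).2 ((hY w).mpr h)
        simp [ind, this]
      have a2 : (univ.filter (fun w : W => w ∈ Y)) = Y := by ext w; simp
      rw [a1, a2, add_zero]
      refine Finset.sum_congr rfl (fun w hw => ?_)
      have : (w : V) ∈ X := (hY w).mp hw
      simp [ind, this]
    rw [e1, hg (ind X)]
    have := hval X hX (fun _ => 1)
    simp only [mul_one] at this
    rw [this]
    simp
  -- connectivity gives arcs of `F` in the cut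
  have hcross : ∀ (X : Set V) (p q : W), D.inArcs X = ∅ → (p : V) ∈ X → (q : V) ∉ X →
      ∃ a ∈ F, a ∈ D.outArcs X := by
    intro X p q hX hp hq
    obtain ⟨x, hx⟩ := unit_flow D F Ff hFf (hconn p q)
    have h1 := hx (ind X)
    rw [hval X hX x] at h1
    have h3 : ind X p - ind X q = 1 := by simp [ind, hp, hq]
    rw [h3] at h1
    by_contra hcon
    push Not at hcon
    have : Ff.filter (fun a => a ∈ D.outArcs X) = ∅ := by
      rw [Finset.eq_empty_iff_forall_notMem]
      intro a ha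
      rw [Finset.mem_filter, hFf] at ha
      exact hcon a ha.1 ha.2
    rw [this] at h1
    simp at h1
  have hcard : ∀ X : Set V, (F ∩ D.outArcs X).ncard
      = (Ff.filter (fun a => a ∈ D.outArcs X)).card := by
    intro X
    rw [← Set.ncard_coe_finset]
    congr 1
    ext a
    simp [hFf]
  have hg0 : ∑ w, g w = 0 := by
    have := hg (fun _ => 1)
    simpa using this
  have hg2 : ∀ Y : Finset W, L Y → Y ≠ ∅ → Y ≠ univ → 2 ≤ ∑ w ∈ Y, g w := by
    rintro Y ⟨X, hX, hY⟩ hY0 hY1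
    obtain ⟨p, hp⟩ := Finset.nonempty_iff_ne_empty.mpr hY0
    obtain ⟨q, hq⟩ : ∃ q, q ∉ Y := by
      by_contra hcon
      push Not at hcon
      exact hY1 (Finset.eq_univ_iff_forall.mpr hcon)
    have hpX := (hY p).mp hp
    have hqX : (q : V) ∉ X := fun h => hq ((hY q).mpr h)
    obtain ⟨a, haF, haX⟩ := hcross X p q hX hpX hqX
    have h3 := h2 (D.outArcs X) ⟨⟨a, haX⟩, X, fun h => by rw [h] at hpX; exact hpX,
      fun h => hqX (h ▸ Set.mem_univ _), hX, rfl⟩
    rw [hgY X Y hX hY, ← hcard X]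
    exact_mod_cast h3
  obtain ⟨y, z, hy, hz, hs⟩ := split L hI hU g hg0 hg2
  -- the flow
  obtain ⟨x, hx⟩ : ∃ x : A → ℤ, ∀ f : V → ℤ,
      ∑ w : W, f w * y w = ∑ a ∈ Ff, (f (D.src a) - f (D.tgt a)) * x a := by
    rcases isEmpty_or_nonempty W with hW | ⟨⟨r⟩⟩
    · refine ⟨fun _ => 0, fun f => ?_⟩
      simp
    · have : ∀ w : W, ∃ x : A → ℤ, ∀ f : V → ℤ,
          f w - f r = ∑ a ∈ Ff, (f (D.src a) - f (D.tgt a)) * x a :=
        fun w => unit_flow D F Ff hFf (hconn w r)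
      choose X hX using this
      refine ⟨fun a => ∑ w : W, y w * X w a, fun f => ?_⟩
      have e1 : ∑ a ∈ Ff, (f (D.src a) - f (D.tgt a)) * ∑ w : W, y w * X w a
          = ∑ w : W, y w * ∑ a ∈ Ff, (f (D.src a) - f (D.tgt a)) * X w a := by
        simp only [Finset.mul_sum]
        rw [Finset.sum_comm]
        refine Finset.sum_congr rfl (fun w _ => Finset.sum_congr rfl (fun a _ => by ring))
      rw [e1]
      have e2 : ∑ w : W, y w * ∑ a ∈ Ff, (f (D.src a) - f (D.tgt a)) * X w a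
          = ∑ w : W, f w * y w - (∑ w : W, y w) * f r := by
        rw [Finset.sum_mul, ← Finset.sum_sub_distrib]
        refine Finset.sum_congr rfl (fun w _ => ?_)
        rw [← hX w f]
        ring
      rw [e2, hy.1]
      ring
  -- the flow through a directed cut
  have hflow : ∀ (X : Set V) (Y : Finset W), D.inArcs X = ∅ → (∀ w : W, w ∈ Y ↔ (w : V) ∈ X) →
      ∑ w ∈ Y, y w = ∑ a ∈ Ff.filter (fun a => a ∈ D.outArcs X), x a := by
    intro X Y hX hY
    rw [← hval X hX x, ← hx (ind X)]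
    rw [← Finset.sum_filter_add_sum_filter_not univ (fun w : W => w ∈ Y) (fun w => ind X w * y w)]
    have a1 : ∑ w ∈ univ.filter (fun w : W => ¬ w ∈ Y), ind X w * y w = 0 := by
      apply Finset.sum_eq_zero
      intro w hw
      have : (w : V) ∉ X := fun h => (Finset.mem_filter.mp hw).2 ((hY w).mpr h)
      simp [ind, this]
    have a2 : (univ.filter (fun w : W => w ∈ Y)) = Y := by ext w; simp
    rw [a1, a2, add_zero]
    refine Finset.sum_congr rfl (fun w hw => ?_)
    have : (w : V) ∈ X := (hY w).mp hw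
    simp [ind, this]
  -- data of a directed cut
  have hdata : ∀ C : Set A, D.IsDicut C → ∃ (X : Set V) (Y : Finset W), C = D.outArcs X ∧
      (1 ≤ ∑ a ∈ Ff.filter (fun a => a ∈ D.outArcs X), x a) ∧
      (∑ a ∈ Ff.filter (fun a => a ∈ D.outArcs X), x a + 1
        ≤ ((Ff.filter (fun a => a ∈ D.outArcs X)).card : ℤ)) := by
    rintro C hC
    have h3 := h2 C hC
    obtain ⟨hCne, X, hX0, hX1, hX, rfl⟩ := hC
    have hne : (F ∩ D.outArcs X).Nonempty := by
      rw [Set.nonempty_iff_ne_empty]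
      intro h
      rw [h] at h3
      simp at h3
    obtain ⟨a, haF, haX⟩ := hne
    let Y : Finset W := univ.filter (fun w : W => (w : V) ∈ X)
    have hY : ∀ w : W, w ∈ Y ↔ (w : V) ∈ X := fun w => by simp [Y]
    have hLY : L Y := ⟨X, hX, hY⟩
    have hY0 : Y ≠ ∅ := Finset.ne_empty_of_mem (a := (⟨D.src a, a, haF, Or.inl rfl⟩ : W))
      ((hY _).mpr haX.1)
    have hY1 : Y ≠ univ := by
      intro h
      have h4 : (⟨D.tgt a, a, haF, Or.inr rfl⟩ : W) ∈ Y := h ▸ mem_univ _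
      exact haX.2 ((hY _).mp h4)
    refine ⟨X, Y, rfl, ?_, ?_⟩
    · rw [← hflow X Y hX hY]
      exact hy.2 Y hLY hY0 hY1
    · rw [← hflow X Y hX hY, ← hgY X Y hX hY]
      have e1 : ∑ w ∈ Y, g w = ∑ w ∈ Y, y w + ∑ w ∈ Y, z w := by
        rw [← Finset.sum_add_distrib]
        exact Finset.sum_congr rfl (fun w _ => (hs w).symm)
      have e2 := hz.2 Y hLY hY0 hY1
      omega
  refine ⟨{a | a ∈ F ∧ 1 ≤ x a}, {a | a ∈ F ∧ x a ≤ 0}, ?_, ?_, ?_, ?_⟩
  · ext a
    simp only [Set.mem_union, Set.mem_ofPred_eq]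
    constructor
    · rintro (h | h) <;> exact h.1
    · intro h
      by_cases h' : 1 ≤ x a
      · exact Or.inl ⟨h, h'⟩
      · exact Or.inr ⟨h, by omega⟩
  · rw [Set.eq_empty_iff_forall_notMem]
    rintro a ⟨h1, h3⟩
    have := h1.2
    have := h3.2
    omega
  · intro C hC
    obtain ⟨X, Y, rfl, h1, h3⟩ := hdata C hC
    rw [Nat.one_le_iff_ne_zero]
    intro h0
    rw [Set.ncard_eq_zero (Set.toFinite _), Set.eq_empty_iff_forall_notMem] at h0
    have : ∑ a ∈ Ff.filter (fun a => a ∈ D.outArcs X), x a ≤ 0 := by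
      apply Finset.sum_nonpos
      intro a ha
      rw [Finset.mem_filter, hFf] at ha
      by_contra hcon
      exact h0 a ⟨⟨ha.1, by omega⟩, ha.2⟩
    omega
  · intro C hC
    obtain ⟨X, Y, rfl, h1, h3⟩ := hdata C hC
    rw [Nat.one_le_iff_ne_zero]
    intro h0
    rw [Set.ncard_eq_zero (Set.toFinite _), Set.eq_empty_iff_forall_notMem] at h0
    have : ((Ff.filter (fun a => a ∈ D.outArcs X)).card : ℤ)
        ≤ ∑ a ∈ Ff.filter (fun a => a ∈ D.outArcs X), x a := by
      have e : ((Ff.filter (fun a => a ∈ D.outArcs X)).card : ℤ)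
          = ∑ a ∈ Ff.filter (fun a => a ∈ D.outArcs X), (1:ℤ) := by simp
      rw [e]
      apply Finset.sum_le_sum
      intro a ha
      rw [Finset.mem_filter, hFf] at ha
      by_contra hcon
      exact h0 a ⟨⟨ha.1, by omega⟩, ha.2⟩
    omega

end Run7.h610.DJ
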