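import Mathlib

set_option autoImplicit false

/-!
Continued fractions written with the denominators `q` and the alternating sums `S`
(`S a n` is the `n`-th convergent), and the link with the Gauss map.
-/

namespace Run7.h610.CF

open Filter Topology

/-- `(q_n, q_{n-1})` for the digit sequence `a`. -/
def qq (a : ℕ → ℕ) : ℕ → ℕ × ℕ
  | 0 => (1, 0)
  | n + 1 => (a n * (qq a n).1 + (qq a n).2, (qq a n).1)

def q (a : ℕ → ℕ) (n : ℕ) : ℕ := (qq a n).1
def qm (a : ℕ → ℕ) (n : ℕ) : ℕ := (qq a n).2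

@[simp] lemma q_zero (a : ℕ → ℕ) : q a 0 = 1 := rfl
@[simp] lemma qm_zero (a : ℕ → ℕ) : qm a 0 = 0 := rfl
lemma q_succ (a : ℕ → ℕ) (n : ℕ) : q a (n + 1) = a n * q a n + qm a n := rfl
@[simp] lemma qm_succ (a : ℕ → ℕ) (n : ℕ) : qm a (n + 1) = q a n := rfl

/-- `n`-th convergent. -/
noncomputable def S (a : ℕ → ℕ) (n : ℕ) : ℝ :=
  ∑ i ∈ Finset.range n, (-1 : ℝ) ^ i * (1 / ((q a i : ℝ) * q a (i + 1)))

@[simp] lemma S_zero (a : ℕ → ℕ) : S a 0 = 0 := by simp [S]
lemma S_succ (a : ℕ → ℕ) (n : ℕ) :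
    S a (n + 1) = S a n + (-1 : ℝ) ^ n * (1 / ((q a n : ℝ) * q a (n + 1))) := by
  simp [S, Finset.sum_range_succ]

lemma qq_congr {a b : ℕ → ℕ} : ∀ {n : ℕ}, (∀ i < n, a i = b i) → qq a n = qq b n
  | 0, _ => rfl
  | n + 1, h => by
    have ih := qq_congr (n := n) (fun i hi => h i (by omega))
    simp [qq, ih, h n (by omega)]

lemma q_congr {a b : ℕ → ℕ} {n : ℕ} (h : ∀ i < n, a i = b i) : q a n = q b n := by
  simp [q, qq_congr h]
lemma qm_congr {a b : ℕ → ℕ} {n : ℕ} (h : ∀ i < n, a i = b i) : qm a n = qm b n := by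
  simp [qm, qq_congr h]

lemma S_congr {a b : ℕ → ℕ} {n : ℕ} (h : ∀ i < n, a i = b i) : S a n = S b n := by
  unfold S
  refine Finset.sum_congr rfl fun i hi => ?_
  rw [Finset.mem_range] at hi
  rw [q_congr (a := a) (b := b) (n := i) (fun j hj => h j (by omega)),
    q_congr (a := a) (b := b) (n := i + 1) (fun j hj => h j (by omega))]

lemma q_pos_aux {a : ℕ → ℕ} : ∀ {n : ℕ}, (∀ i < n, 1 ≤ a i) → 1 ≤ q a n ∧ qm a n ≤ q a n
  | 0, _ => by simp
  | n + 1, h => by
    have ih := q_pos_aux (n := n) (fun i hi => h i (by omega))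
    have h1 := h n (by omega)
    rw [q_succ, qm_succ]
    have : q a n ≤ a n * q a n := Nat.le_mul_of_pos_left _ h1
    omega

lemma q_pos {a : ℕ → ℕ} {n : ℕ} (h : ∀ i < n, 1 ≤ a i) : 1 ≤ q a n := (q_pos_aux h).1
lemma qm_le {a : ℕ → ℕ} {n : ℕ} (h : ∀ i < n, 1 ≤ a i) : qm a n ≤ q a n := (q_pos_aux h).2

/-- growth -/
lemma le_q {a : ℕ → ℕ} : ∀ {n : ℕ}, (∀ i < n, 1 ≤ a i) → n ≤ q a n
  | 0, _ => by simp
  | 1, h => by
    have := q_pos (n := 1) h; omega
  | n + 2, h => by
    have ih := le_q (n := n + 1) (fun i hi => h i (by omega))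
    have h1 := h (n + 1) (by omega)
    have h2 := q_pos (a := a) (n := n) (fun i hi => h i (by omega))
    rw [q_succ, qm_succ]
    have : q a (n + 1) ≤ a (n + 1) * q a (n + 1) := Nat.le_mul_of_pos_left _ h1
    omega

/-- the main identity -/
lemma main_id {a : ℕ → ℕ} {x : ℝ} {D : ℕ → ℝ} (D0 : D 0 = 1) (D1 : D 1 = x) :
    ∀ {n : ℕ}, (∀ i < n, 1 ≤ a i) → (∀ i < n, D i = a i * D (i + 1) + D (i + 2)) →
      D (n + 1) = (-1 : ℝ) ^ n * (q a n * (x - S a n)) ∧
        (q a n : ℝ) * D n + qm a n * D (n + 1) = 1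
  | 0, _, _ => by simp [D0, D1]
  | n + 1, h1, h2 => by
    obtain ⟨e1, e2⟩ := main_id (n := n) D0 D1 (fun i hi => h1 i (by omega))
      (fun i hi => h2 i (by omega))
    have h3 := h2 n (by omega)
    have hq : (0 : ℝ) < q a n := by
      have := q_pos (a := a) (n := n) (fun i hi => h1 i (by omega))
      exact_mod_cast this
    have hq' : (0 : ℝ) < q a (n + 1) := by
      have := q_pos (a := a) (n := n + 1) h1
      exact_mod_cast this
    have hs : (q a (n + 1) : ℝ) = a n * q a n + qm a n := by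
      rw [q_succ]; push_cast; ring
    have key : (q a (n + 1) : ℝ) * D (n + 1) + q a n * D (n + 2) = 1 := by
      rw [hs]
      have : D (n + 2) = D n - a n * D (n + 1) := by linarith
      rw [this]; linarith [e2]
    refine ⟨?_, ?_⟩
    · rw [S_succ, pow_succ]
      have hsq : ((-1 : ℝ) ^ n) * ((-1 : ℝ) ^ n) = 1 := by
        rw [← mul_pow]; norm_num
      have e3 : x - S a n = (-1 : ℝ) ^ n * D (n + 1) / q a n := by
        rw [e1, eq_div_iff hq.ne']
        calc (x - S a n) * q a n = (((-1 : ℝ) ^ n) * ((-1 : ℝ) ^ n)) * ((x - S a n) * q a n) := by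
              rw [hsq]; ring
          _ = _ := by ring
      have e4 : D (n + 2) = (1 - q a (n + 1) * D (n + 1)) / q a n := by
        rw [eq_div_iff hq.ne']; linarith
      have : x - (S a n + (-1 : ℝ) ^ n * (1 / ((q a n : ℝ) * q a (n + 1))))
          = (-1 : ℝ) ^ n * (D (n + 1) / q a n - 1 / ((q a n : ℝ) * q a (n + 1))) := by
        rw [← sub_sub, e3]; ring
      rw [this]
      have : (-1 : ℝ) ^ n * -1 * (q a (n + 1) * ((-1 : ℝ) ^ n *
          (D (n + 1) / q a n - 1 / ((q a n : ℝ) * q a (n + 1)))))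
          = - (((-1 : ℝ) ^ n) * ((-1 : ℝ) ^ n)) * (q a (n + 1) *
          (D (n + 1) / q a n - 1 / ((q a n : ℝ) * q a (n + 1)))) := by ring
      rw [this, hsq, show n + 1 + 1 = n + 2 from rfl, e4]
      field_simp
      ring
    · rw [qm_succ]; exact key

/-- The Gauss map. -/
noncomputable def T : ℝ → ℝ := fun y => Int.fract (1 / y)

lemma gauss_of_D {a : ℕ → ℕ} {D : ℕ → ℝ} (ha : ∀ i, 1 ≤ a i) (hD : ∀ n, 0 < D n)
    (h : ∀ i, D i = a i * D (i + 1) + D (i + 2)) (n : ℕ) :
    T^[n] (D 1 / D 0) = D (n + 1) / D n ∧ ⌊1 / (D (n + 1) / D n)⌋ = (a n : ℤ) ∧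
      T (D (n + 1) / D n) = D (n + 2) / D (n + 1) := by
  have step : ∀ n, ⌊1 / (D (n + 1) / D n)⌋ = (a n : ℤ) ∧
      T (D (n + 1) / D n) = D (n + 2) / D (n + 1) := by
    intro n
    have e : 1 / (D (n + 1) / D n) = (a n : ℤ) + D (n + 2) / D (n + 1) := by
      rw [one_div_div, h n]
      have := (hD (n + 1)).ne'
      field_simp
      push_cast
      ring
    have hlt : D (n + 2) < D (n + 1) := by
      rw [show D (n + 1) = _ from h (n + 1)]
      have h1 : (1 : ℝ) ≤ a (n + 1) := by exact_mod_cast ha (n + 1)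
      have := hD (n + 2)
      have := hD (n + 3)
      nlinarith
    have h0 : 0 ≤ D (n + 2) / D (n + 1) := div_nonneg (hD _).le (hD _).le
    have h1 : D (n + 2) / D (n + 1) < 1 := (div_lt_one (hD _)).2 hlt
    constructor
    · rw [e, Int.floor_eq_iff]
      constructor
      · linarith
      · linarith
    · unfold T
      rw [e, Int.fract_intCast_add, Int.fract_eq_self.2 ⟨h0, h1⟩]
  refine ⟨?_, step n⟩
  induction n with
  | zero => simp
  | succ n ih =>
    rw [Function.iterate_succ_apply', ih, (step n).2]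

/-- existence of a real with given digits -/
theorem exists_of_digits (a : ℕ → ℕ) (ha : ∀ i, 1 ≤ a i) :
    ∃ g : ℝ, g ∈ Set.Ioo (0 : ℝ) 1 ∧ Tendsto (S a) atTop (𝓝 g) ∧
      ∀ n, ⌊1 / (T^[n] g)⌋ = (a n : ℤ) := by
  set f : ℕ → ℝ := fun i => 1 / ((q a i : ℝ) * q a (i + 1)) with hf
  have qpos : ∀ n, (0 : ℝ) < q a n := fun n => by
    have := q_pos (a := a) (n := n) (fun i _ => ha i)
    exact_mod_cast this
  have qlt : ∀ n, (q a n : ℝ) < q a (n + 2) := fun n => by
    have h1 := q_pos (a := a) (n := n + 1) (fun i _ => ha i)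
    have h2 := ha (n + 1)
    have : q a n < q a (n + 2) := by
      rw [q_succ, qm_succ]
      have : 0 < a (n + 1) * q a (n + 1) := Nat.mul_pos h2 h1
      omega
    exact_mod_cast this
  have flt : ∀ n, f (n + 1) < f n := by
    intro n
    simp only [hf]
    apply one_div_lt_one_div_of_lt (mul_pos (qpos _) (qpos _))
    have := qlt n
    have := qpos (n + 1)
    rw [show n + 1 + 1 = n + 2 from rfl]
    nlinarith
  have hanti : Antitone f := antitone_nat_of_succ_le fun n => (flt n).le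
  have hf0 : Tendsto f atTop (𝓝 0) := by
    refine tendsto_of_tendsto_of_tendsto_of_le_of_le tendsto_const_nhds
      tendsto_one_div_add_atTop_nhds_zero_nat ?_ ?_
    · intro n
      exact div_nonneg zero_le_one (mul_pos (qpos _) (qpos _)).le
    · intro n
      simp only [hf]
      apply one_div_le_one_div_of_le (by positivity)
      have h1 : (1 : ℝ) ≤ q a n := by
        have := q_pos (a := a) (n := n) (fun i _ => ha i)
        exact_mod_cast this
      have h2 : ((n : ℝ) + 1) ≤ q a (n + 1) := by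
        have := le_q (a := a) (n := n + 1) (fun i _ => ha i)
        exact_mod_cast this
      nlinarith
  obtain ⟨g, hg⟩ := hanti.tendsto_alternating_series_of_tendsto_zero hf0
  have hg' : Tendsto (S a) atTop (𝓝 g) := hg
  have heven : ∀ k, S a (2 * k) < g := by
    intro k
    have h1 : S a (2 * (k + 1)) ≤ g := hanti.alternating_series_le_tendsto hg (k + 1)
    have h2 : S a (2 * (k + 1)) = S a (2 * k) + f (2 * k) - f (2 * k + 1) := by
      rw [show 2 * (k + 1) = 2 * k + 1 + 1 by ring, S_succ, S_succ]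
      simp only [hf, pow_succ, pow_mul]
      norm_num
      ring
    have := flt (2 * k)
    linarith
  have hodd : ∀ k, g < S a (2 * k + 1) := by
    intro k
    have h1 : g ≤ S a (2 * (k + 1) + 1) := hanti.tendsto_le_alternating_series hg (k + 1)
    have h2 : S a (2 * (k + 1) + 1) = S a (2 * k + 1) - f (2 * k + 1) + f (2 * k + 2) := by
      rw [show 2 * (k + 1) + 1 = 2 * k + 1 + 1 + 1 by ring, S_succ, S_succ]
      simp only [hf, pow_succ, pow_mul]
      norm_num
      ring
    have := flt (2 * k + 1)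
    rw [show 2 * k + 1 + 1 = 2 * k + 2 from rfl] at this
    linarith
  have hsign : ∀ n, 0 < (-1 : ℝ) ^ n * (g - S a n) := by
    intro n
    rcases Nat.even_or_odd' n with ⟨k, rfl | rfl⟩
    · rw [pow_mul]; have := heven k; norm_num; linarith
    · rw [pow_succ, pow_mul]; have := hodd k; norm_num; linarith
  -- define D
  let DD : ℕ → ℝ × ℝ := fun n => Nat.rec (1, g) (fun n p => (p.2, p.1 - a n * p.2)) n
  let D : ℕ → ℝ := fun n => (DD n).1
  have hDD : ∀ n, DD (n + 1) = ((DD n).2, (DD n).1 - a n * (DD n).2) := fun n => rfl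
  have hD2 : ∀ n, (DD n).2 = D (n + 1) := fun n => rfl
  have D0 : D 0 = 1 := rfl
  have D1 : D 1 = g := rfl
  have hrec : ∀ i, D i = a i * D (i + 1) + D (i + 2) := by
    intro i
    have : D (i + 2) = D i - a i * D (i + 1) := rfl
    rw [this]; ring
  have hDpos : ∀ n, 0 < D n := by
    intro n
    cases n with
    | zero => rw [D0]; norm_num
    | succ n =>
      have := (main_id (a := a) (x := g) (D := D) D0 D1 (n := n) (fun i _ => ha i)
        (fun i _ => hrec i)).1
      rw [this]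
      have h1 := hsign n
      have h2 := qpos n
      have : (-1 : ℝ) ^ n * (q a n * (g - S a n)) = q a n * ((-1 : ℝ) ^ n * (g - S a n)) := by ring
      rw [this]
      exact mul_pos h2 h1
  have hG := gauss_of_D ha hDpos hrec
  have hg01 : D 1 / D 0 = g := by rw [D0, D1, div_one]
  refine ⟨g, ⟨?_, ?_⟩, hg', ?_⟩
  · have := hDpos 1; rwa [D1] at this
  · have h0 : D 0 = a 0 * D 1 + D 2 := hrec 0
    rw [D0, D1] at h0
    have h2 := hDpos 2
    have h1 : (1 : ℝ) ≤ a 0 := by exact_mod_cast ha 0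
    have hgp : 0 < g := by have := hDpos 1; rwa [D1] at this
    nlinarith
  · intro n
    have := hG n
    rw [hg01] at this
    rw [this.1, this.2.1]

end Run7.h610.CF
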