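import Mathlib

set_option autoImplicit false

/-!
The arithmetic core: one macro-step of the construction.
-/

namespace Run7.h610.CF

/-- choice of a digit with overshoot: for reals `w > q1 + qm`, there is a digit `d` with
`d q1 + qm < w ≤ d q1 + qm + q1`. -/
lemma exists_over (q1 qm0 : ℕ) (w : ℝ) (hq : 1 ≤ q1) (hw : (q1 : ℝ) + qm0 < w) :
    ∃ d : ℕ, ((d * q1 + qm0 : ℕ) : ℝ) < w ∧ w ≤ ((d * q1 + qm0 : ℕ) : ℝ) + q1 := by
  have hq' : (0 : ℝ) < q1 := by exact_mod_cast hq
  set t : ℝ := (w - qm0) / q1 with ht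
  have ht1 : 1 < t := by
    rw [ht, lt_div_iff₀ hq']; linarith
  have hc := Nat.ceil_lt_add_one (a := t) (by linarith)
  have hc2 := Nat.le_ceil t
  have hc1 : 1 ≤ ⌈t⌉₊ := Nat.one_le_iff_ne_zero.2 (by
    intro h; rw [h] at hc2; norm_num at hc2; linarith)
  refine ⟨⌈t⌉₊ - 1, ?_, ?_⟩
  · push_cast [Nat.cast_sub hc1]
    have : (⌈t⌉₊ : ℝ) - 1 < (w - qm0) / q1 := by linarith
    rw [lt_div_iff₀ hq'] at this
    linarith
  · push_cast [Nat.cast_sub hc1]
    have : (w - qm0) / q1 ≤ (⌈t⌉₊ : ℝ) := hc2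
    rw [div_le_iff₀ hq'] at this
    linarith

/-- The macro-step, in terms of the denominators `(q, qm)`, `(s, sm)` and the residual `y`. -/
theorem core (q qm0 s sm0 : ℕ) (y : ℝ) (R E : ℕ) (hq : 1 ≤ q) (hqm : qm0 ≤ q) (hs : 1 ≤ s)
    (hsm : sm0 ≤ s) (hqs : q ≤ s) (hy : 0 < y) (hirr : Irrational y) (hR : 5 ≤ R)
    (hE : 2 * E + 2 ≤ R) (hinv : y * q * s * R ≤ 1) :
    (∃ c d : ℕ, E ≤ c ∧ E ≤ d ∧
      0 < 1 / ((s : ℝ) * (d * s + sm0 : ℕ)) - (y - 1 / ((q : ℝ) * (c * q + qm0 : ℕ))) ∧
      (c * q + qm0 : ℕ) ≤ (d * s + sm0 : ℕ) ∧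
      (1 / ((s : ℝ) * (d * s + sm0 : ℕ)) - (y - 1 / ((q : ℝ) * (c * q + qm0 : ℕ)))) *
        (c * q + qm0 : ℕ) * (d * s + sm0 : ℕ) * (R + 1 : ℕ) ≤ 1) ∨
    (∃ c d : ℕ, E ≤ c ∧ E ≤ d ∧
      0 < y - 1 / ((q : ℝ) * (c * q + qm0 : ℕ)) +
        1 / (((c * q + qm0 : ℕ) : ℝ) * (d * (c * q + qm0) + q : ℕ)) ∧
      s ≤ (d * (c * q + qm0) + q : ℕ) ∧
      (y - 1 / ((q : ℝ) * (c * q + qm0 : ℕ)) +
        1 / (((c * q + qm0 : ℕ) : ℝ) * (d * (c * q + qm0) + q : ℕ))) *
        s * (d * (c * q + qm0) + q : ℕ) * (R + 1 : ℕ) ≤ 1) := by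
  have hq0 : (1 : ℝ) ≤ q := by exact_mod_cast hq
  have hs0 : (1 : ℝ) ≤ s := by exact_mod_cast hs
  have hR0 : (5 : ℝ) ≤ R := by exact_mod_cast hR
  have hqs0 : (q : ℝ) ≤ s := by exact_mod_cast hqs
  have hqm0 : (qm0 : ℝ) ≤ q := by exact_mod_cast hqm
  have hsm0' : (sm0 : ℝ) ≤ s := by exact_mod_cast hsm
  have hE0 : 2 * (E : ℝ) + 2 ≤ R := by exact_mod_cast hE
  have hqpos : (0 : ℝ) < q := by linarith
  have hspos : (0 : ℝ) < s := by linarith
  set w : ℝ := 1 / (q * y) with hw
  have hwpos : 0 < w := by positivity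
  have hyw : y = 1 / (q * w) := by
    rw [hw]; field_simp
  have hwR : (R : ℝ) * s ≤ w := by
    rw [hw, le_div_iff₀ (by positivity)]
    linarith
  have hws : (5 : ℝ) * s ≤ w :=
    le_trans (mul_le_mul_of_nonneg_right hR0 hspos.le) hwR
  -- w is irrational
  have hwne : ∀ N : ℕ, w ≠ N := by
    intro N h
    apply hirr
    refine ⟨1 / (q * N), ?_⟩
    push_cast
    rw [← h, ← hyw]
  -- first digit
  obtain ⟨c1, hc1, hc2⟩ := exists_over q qm0 w hq (by linarith)
  have hc2' : w < ((c1 * q + qm0 : ℕ) : ℝ) + q := by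
    refine lt_of_le_of_ne hc2 ?_
    have := hwne (c1 * q + qm0 + q)
    push_cast at this ⊢
    exact this
  have hc1R : (R : ℝ) - 2 < c1 := by
    by_contra hcon
    push Not at hcon
    have h1 : ((c1 * q + qm0 : ℕ) : ℝ) ≤ (R - 2) * q + q := by
      push_cast
      nlinarith
    have h2 : (R : ℝ) * q ≤ R * s := by nlinarith
    nlinarith
  have hEc1 : E ≤ c1 := by
    have : (E : ℝ) < c1 := by linarith
    exact_mod_cast this.le
  by_cases hcase : (R : ℝ) * (((c1 * q + qm0 : ℕ) : ℝ) + q - w) ≤ (R - 2) * q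
  · -- option (i): undershoot with c = c1 + 1
    left
    have hcast : (((c1 + 1) * q + qm0 : ℕ) : ℝ) = ((c1 * q + qm0 : ℕ) : ℝ) + q := by
      push_cast; ring
    set Q : ℝ := (((c1 + 1) * q + qm0 : ℕ) : ℝ) with hQ
    set δ : ℝ := Q - w with hδ
    have hδpos : 0 < δ := by rw [hδ, hcast]; linarith
    have hδq : (R : ℝ) * δ ≤ (R - 2) * q := by rw [hδ, hcast]; exact hcase
    have hQpos : 0 < Q := by linarith
    have hwQ : w < Q := by linarith
    have hy1 : y - 1 / (q * Q) = δ / (q * w * Q) := by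
      rw [hyw, hδ]; field_simp
    set y1 : ℝ := y - 1 / (q * Q) with hy1def
    have hy1pos : 0 < y1 := by rw [hy1]; positivity
    set w2 : ℝ := 1 / (s * y1) with hw2
    have hw2pos : 0 < w2 := by positivity
    have hy1w : y1 = 1 / (s * w2) := by rw [hw2]; field_simp
    have hw2eq : w2 = q * w * Q / (s * δ) := by
      rw [hw2, hy1]; field_simp
    -- w2 ≥ (R+2) Q
    have hw2ge : ((R : ℝ) + 2) * Q ≤ w2 := by
      rw [hw2eq, le_div_iff₀ (by positivity)]
      have h1 : ((R : ℝ) + 2) * (s * δ) ≤ q * w := by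
        -- R * δ ≤ (R-2) q,  s R ≤ w
        have h2 : ((R : ℝ) + 2) * (s * δ) * (R * R) ≤ q * w * (R * R) := by
          have h3 : (s * (R : ℝ)) * (R * δ) ≤ w * ((R - 2) * q) := by
            apply mul_le_mul _ hδq (by positivity) hwpos.le
            linarith
          have h4 : ((R : ℝ) + 2) * (s * δ) * (R * R) = (R + 2) * ((s * R) * (R * δ)) := by ring
          rw [h4]
          have h5 : ((R : ℝ) + 2) * ((s * R) * (R * δ)) ≤ (R + 2) * (w * ((R - 2) * q)) := by
            apply mul_le_mul_of_nonneg_left h3 (by positivity)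
          have h6 : ((R : ℝ) + 2) * (w * ((R - 2) * q)) = (R * R - 4) * (w * q) := by ring
          have h7 : ((R : ℝ) * R - 4) * (w * q) ≤ (R * R) * (w * q) := by
            apply mul_le_mul_of_nonneg_right _ (by positivity)
            linarith
          linarith
        exact le_of_mul_le_mul_right h2 (by positivity)
      have h8 : ((R : ℝ) + 2) * (s * δ) * Q ≤ q * w * Q :=
        mul_le_mul_of_nonneg_right h1 hQpos.le
      linarith
    have hsQ : (5 : ℝ) * s ≤ Q := by linarith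
    have hR7 : (7 : ℝ) * Q ≤ w2 :=
      le_trans (mul_le_mul_of_nonneg_right (by linarith) hQpos.le) hw2ge
    obtain ⟨d, hd1, hd2⟩ := exists_over s sm0 w2 hs (by linarith)
    set P : ℝ := ((d * s + sm0 : ℕ) : ℝ) with hP
    have hPge : ((R : ℝ) + 1) * Q ≤ P := by linarith
    have hPpos : 0 < P := lt_of_lt_of_le (by positivity) hPge
    have hw2ne : w2 ≠ P + s := by
      intro h
      apply hirr
      refine ⟨1 / (q * ((c1 + 1) * q + qm0)) + 1 / (s * (d * s + sm0 + s)), ?_⟩
      have e1 : (((1 / (q * ((c1 + 1) * q + qm0)) + 1 / (s * (d * s + sm0 + s)) : ℚ)) : ℝ)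
          = 1 / (q * Q) + 1 / (s * (P + s)) := by
        rw [hQ, hP]; push_cast; ring
      rw [e1, ← h, ← hy1w]
      ring
    have hd2' : w2 < P + s := lt_of_le_of_ne hd2 hw2ne
    have hy2 : 1 / (s * P) - y1 = (w2 - P) / (s * P * w2) := by
      rw [hy1w]; field_simp
    have hy2pos : 0 < 1 / ((s : ℝ) * P) - y1 := by
      rw [hy2]; apply div_pos (by linarith) (by positivity)
    refine ⟨c1 + 1, d, by omega, ?_, hy2pos, ?_, ?_⟩
    · -- E ≤ d
      by_contra hcon
      push Not at hcon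
      have h1 : (d : ℝ) + 1 ≤ E := by exact_mod_cast hcon
      have h2 : P ≤ (E - 1) * s + s := by
        rw [hP]; push_cast
        have : (d : ℝ) * s ≤ (E - 1) * s := mul_le_mul_of_nonneg_right (by linarith) hspos.le
        linarith
      have h3 : (E : ℝ) * s ≤ R * Q := by
        apply mul_le_mul (by linarith) (by linarith) hspos.le (by linarith)
      linarith
    · have : Q ≤ P := by
        have : (1 : ℝ) * Q ≤ (R + 1) * Q := mul_le_mul_of_nonneg_right (by linarith) hQpos.le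
        linarith
      rw [hQ, hP] at this
      exact_mod_cast this
    · have hb : (1 / ((s : ℝ) * P) - y1) ≤ 1 / (P * P) := by
        rw [hy2, div_le_div_iff₀ (by positivity) (by positivity)]
        have h1 : w2 - P ≤ s := by linarith
        have h2 : (w2 - P) * (P * P) ≤ s * (P * P) := mul_le_mul_of_nonneg_right h1 (by positivity)
        have h3 : (s : ℝ) * (P * P) ≤ s * (P * w2) := by
          apply mul_le_mul_of_nonneg_left _ hspos.le
          apply mul_le_mul_of_nonneg_left hd1.le hPpos.le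
        linarith
      have h1 : (1 / ((s : ℝ) * P) - y1) * Q * P * (R + 1 : ℕ) ≤
          1 / (P * P) * Q * P * (R + 1 : ℕ) := by
        gcongr
      refine h1.trans ?_
      have h2 : 1 / (P * P) * Q * P * (R + 1 : ℕ) = Q * (R + 1) / P := by
        push_cast; field_simp
      rw [h2, div_le_one hPpos]
      linarith
  · -- option (ii)
    right
    push Not at hcase
    set Q1 : ℝ := ((c1 * q + qm0 : ℕ) : ℝ) with hQ1
    set ρ : ℝ := w - Q1 with hρ
    have hρpos : 0 < ρ := by linarith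
    have hρlt : (R : ℝ) * ρ < 2 * q := by
      have : (R : ℝ) * (Q1 + q - w) = R * q - R * ρ := by rw [hρ]; ring
      rw [this] at hcase
      linarith
    have hc1pos : 1 ≤ c1 * q + qm0 := by
      have h1 : (3 : ℝ) < c1 := by linarith
      have h2 : 3 < c1 := by exact_mod_cast h1
      nlinarith
    have hQ1pos : 0 < Q1 := by
      rw [hQ1]; exact_mod_cast hc1pos
    have hy1 : 1 / (q * Q1) - y = ρ / (q * Q1 * w) := by
      rw [hyw, hρ]; field_simp
    set y1 : ℝ := 1 / (q * Q1) - y with hy1def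
    have hy1pos : 0 < y1 := by rw [hy1]; positivity
    set w3 : ℝ := 1 / (Q1 * y1) with hw3
    have hw3pos : 0 < w3 := by positivity
    have hy1w : y1 = 1 / (Q1 * w3) := by rw [hw3]; field_simp
    have hw3eq : w3 = q * w / ρ := by
      rw [hw3, hy1]; field_simp
    have hw3ge : w * R / 2 ≤ w3 := by
      rw [hw3eq, le_div_iff₀ hρpos]
      have : w * ((R : ℝ) * ρ) ≤ w * (2 * q) := mul_le_mul_of_nonneg_left hρlt.le hwpos.le
      linarith
    have hqQ : (q : ℝ) ≤ w / 5 := by linarith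
    have hwR5 : w * 5 ≤ w * R := mul_le_mul_of_nonneg_left hR0 hwpos.le
    obtain ⟨d, hd1, hd2⟩ := exists_over (c1 * q + qm0) q w3 hc1pos (by
      rw [← hQ1]; linarith)
    rw [← hQ1] at hd2
    set P : ℝ := ((d * (c1 * q + qm0) + q : ℕ) : ℝ) with hP
    have hPge : w * (R / 2 - 1) ≤ P := by linarith
    have hPpos : 0 < P := by linarith
    have hsP : ((R : ℝ) + 1) * s ≤ P := by
      have h1 : ((R : ℝ) + 1) * s ≤ (R * s) * (R / 2 - 1) := by
        have : ((R : ℝ) + 1) ≤ R * (R / 2 - 1) := by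
          have := mul_le_mul_of_nonneg_left hR0 (by linarith : (0 : ℝ) ≤ R)
          linarith
        have := mul_le_mul_of_nonneg_right this hspos.le
        linarith
      have h2 : ((R : ℝ) * s) * (R / 2 - 1) ≤ w * (R / 2 - 1) :=
        mul_le_mul_of_nonneg_right hwR (by linarith)
      linarith
    have hy2 : 1 / (Q1 * P) - y1 = (w3 - P) / (Q1 * P * w3) := by
      rw [hy1w]; field_simp
    have hy2pos : 0 < 1 / (Q1 * P) - y1 := by
      rw [hy2]; apply div_pos (by linarith) (by positivity)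
    have hform : y - 1 / ((q : ℝ) * Q1) + 1 / (Q1 * P) = 1 / (Q1 * P) - y1 := by
      rw [hy1def]; ring
    refine ⟨c1, d, hEc1, ?_, by rw [hform]; exact hy2pos, ?_, ?_⟩
    · by_contra hcon
      push Not at hcon
      have h1 : (d : ℝ) + 1 ≤ E := by exact_mod_cast hcon
      have hPeq : P = d * Q1 + q := by rw [hP, hQ1]; push_cast; ring
      have h2 : P ≤ (E - 1) * w + w / R := by
        rw [hPeq]
        have h3 : (q : ℝ) ≤ w / R := by
          rw [le_div_iff₀ (by linarith)]
          have : (R : ℝ) * q ≤ R * s := mul_le_mul_of_nonneg_left hqs0 (by linarith)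
          linarith
        have h4 : (d : ℝ) * Q1 ≤ (E - 1) * w := by
          have h5 : (d : ℝ) * Q1 ≤ d * w := by
            apply mul_le_mul_of_nonneg_left (by linarith) (by positivity)
          have h6 : (d : ℝ) * w ≤ (E - 1) * w := by
            apply mul_le_mul_of_nonneg_right (by linarith) hwpos.le
          linarith
        linarith
      have h3 : w / R ≤ w / 5 := by
        apply div_le_div_of_nonneg_left hwpos.le (by norm_num) hR0
      have h4 : w * (2 * (E : ℝ) + 2) ≤ w * R := mul_le_mul_of_nonneg_left hE0 hwpos.le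
      linarith
    · have : (s : ℝ) ≤ P := by
        have : (1 : ℝ) * s ≤ (R + 1) * s := mul_le_mul_of_nonneg_right (by linarith) hspos.le
        linarith
      rw [hP] at this
      exact_mod_cast this
    · rw [hform]
      have hb : (1 / (Q1 * P) - y1) ≤ 1 / (P * P) := by
        rw [hy2, div_le_div_iff₀ (by positivity) (by positivity)]
        have h1 : w3 - P ≤ Q1 := by linarith
        have h2 : (w3 - P) * (P * P) ≤ Q1 * (P * P) :=
          mul_le_mul_of_nonneg_right h1 (by positivity)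
        have h3 : Q1 * (P * P) ≤ Q1 * (P * w3) := by
          apply mul_le_mul_of_nonneg_left _ hQ1pos.le
          apply mul_le_mul_of_nonneg_left hd1.le hPpos.le
        linarith
      have h1 : (1 / (Q1 * P) - y1) * s * P * (R + 1 : ℕ) ≤
          1 / (P * P) * s * P * (R + 1 : ℕ) := by
        gcongr
      refine h1.trans ?_
      have h2 : 1 / (P * P) * s * P * (R + 1 : ℕ) = s * (R + 1) / P := by
        push_cast; field_simp
      rw [h2, div_le_one hPpos]
      linarith

end Run7.h610.CF
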