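import Mathlib
import Pool.Agent.Run7.h610.CFBasic
import Pool.Agent.Run7.h610.CFCore

set_option autoImplicit false

/-!
States of the construction and the macro-step on states.
-/

namespace Run7.h610.CF

open Filter Topology

/-- append the digit `c` at position `n` -/
def push (a : ℕ → ℕ) (n c : ℕ) : ℕ → ℕ := Function.update a n c

lemma push_lt {a : ℕ → ℕ} {n c i : ℕ} (h : i < n) : push a n c i = a i := by
  simp [push, Function.update_of_ne (by omega : i ≠ n)]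
@[simp] lemma push_self {a : ℕ → ℕ} {n c : ℕ} : push a n c n = c := by simp [push]

lemma q_push_le {a : ℕ → ℕ} {n c m : ℕ} (h : m ≤ n) : q (push a n c) m = q a m :=
  q_congr fun i hi => push_lt (by omega)
lemma qm_push_le {a : ℕ → ℕ} {n c m : ℕ} (h : m ≤ n) : qm (push a n c) m = qm a m :=
  qm_congr fun i hi => push_lt (by omega)
lemma S_push_le {a : ℕ → ℕ} {n c m : ℕ} (h : m ≤ n) : S (push a n c) m = S a m :=
  S_congr fun i hi => push_lt (by omega)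
lemma q_push_succ {a : ℕ → ℕ} {n c : ℕ} :
    q (push a n c) (n + 1) = c * q a n + qm a n := by
  rw [q_succ, push_self, q_push_le le_rfl, qm_push_le le_rfl]
lemma qm_push_succ {a : ℕ → ℕ} {n c : ℕ} :
    qm (push a n c) (n + 1) = q a n := by
  rw [qm_succ, q_push_le le_rfl]
lemma S_push_succ {a : ℕ → ℕ} {n c : ℕ} :
    S (push a n c) (n + 1) = S a n +
      (-1 : ℝ) ^ n * (1 / ((q a n : ℝ) * (c * q a n + qm a n : ℕ))) := by
  rw [S_succ, S_push_le le_rfl, q_push_le le_rfl, q_push_succ]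

/-- `(a', n')` extends `(a, n)` by digits `≥ E` -/
def Ext (E : ℕ) (a : ℕ → ℕ) (n : ℕ) (a' : ℕ → ℕ) (n' : ℕ) : Prop :=
  n ≤ n' ∧ (∀ i < n, a' i = a i) ∧ (∀ i, n ≤ i → i < n' → E ≤ a' i)

lemma Ext.refl (E : ℕ) (a : ℕ → ℕ) (n : ℕ) : Ext E a n a n :=
  ⟨le_rfl, fun _ _ => rfl, fun _ h1 h2 => absurd h2 (by omega)⟩

lemma Ext.trans {E : ℕ} {a a' a'' : ℕ → ℕ} {n n' n'' : ℕ} (h1 : Ext E a n a' n')
    (h2 : Ext E a' n' a'' n'') : Ext E a n a'' n'' := by
  refine ⟨h1.1.trans h2.1, fun i hi => ?_, fun i h3 h4 => ?_⟩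
  · rw [h2.2.1 i (lt_of_lt_of_le hi h1.1), h1.2.1 i hi]
  · rcases lt_or_ge i n' with h | h
    · rw [h2.2.1 i h]; exact h1.2.2 i h3 h
    · exact h2.2.2 i h h4

lemma Ext.mono {E E' : ℕ} {a a' : ℕ → ℕ} {n n' : ℕ} (h1 : Ext E a n a' n') (h : E' ≤ E) :
    Ext E' a n a' n' :=
  ⟨h1.1, h1.2.1, fun i h3 h4 => h.trans (h1.2.2 i h3 h4)⟩

lemma Ext.push {E : ℕ} (a : ℕ → ℕ) (n c : ℕ) (h : E ≤ c) : Ext E a n (push a n c) (n + 1) := by
  refine ⟨by omega, fun i hi => push_lt hi, fun i h1 h2 => ?_⟩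
  obtain rfl : i = n := by omega
  simpa using h

lemma Ext.pos {E : ℕ} {a a' : ℕ → ℕ} {n n' : ℕ} (h : Ext E a n a' n') (hE : 1 ≤ E)
    (ha : ∀ i < n, 1 ≤ a i) : ∀ i < n', 1 ≤ a' i := by
  intro i hi
  rcases lt_or_ge i n with h1 | h1
  · rw [h.2.1 i h1]; exact ha i h1
  · exact hE.trans (h.2.2 i h1 hi)

/-- the invariant -/
structure Good (x : ℝ) (R : ℕ) (a : ℕ → ℕ) (n : ℕ) (b : ℕ → ℕ) (m : ℕ) : Prop where
  ha : ∀ i < n, 1 ≤ a i
  hb : ∀ i < m, 1 ≤ b i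
  par : (-1 : ℝ) ^ n = (-1) ^ m
  pos : 0 < (-1 : ℝ) ^ n * (x - S a n - S b m)
  le : q a n ≤ q b m
  inv : (-1 : ℝ) ^ n * (x - S a n - S b m) * q a n * q b m * R ≤ 1

lemma S_rat (a : ℕ → ℕ) (n : ℕ) : ∃ r : ℚ, (r : ℝ) = S a n := by
  refine ⟨∑ i ∈ Finset.range n, (-1 : ℚ) ^ i * (1 / ((q a i : ℚ) * q a (i + 1))), ?_⟩
  simp [S]

lemma irr_res {x : ℝ} (hx : Irrational x) (a b : ℕ → ℕ) (n m : ℕ) :
    Irrational ((-1 : ℝ) ^ n * (x - S a n - S b m)) := by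
  obtain ⟨r, hr⟩ := S_rat a n
  obtain ⟨t, ht⟩ := S_rat b m
  rw [← hr, ← ht]
  have h : Irrational (x - r - t) := (hx.sub_ratCast r).sub_ratCast t
  rcases neg_one_pow_eq_or ℝ n with h1 | h1
  · rw [h1, one_mul]; exact h
  · rw [h1, neg_one_mul]; exact h.neg

lemma sq_one (n : ℕ) : (-1 : ℝ) ^ n * (-1) ^ n = 1 := by
  rw [← mul_pow]; norm_num

theorem macro_step {x : ℝ} (hx : Irrational x) {R : ℕ} (hR : 5 ≤ R) {E : ℕ} (hE1 : 1 ≤ E)
    (hE : 2 * E + 2 ≤ R) {a b : ℕ → ℕ} {n m : ℕ} (h : Good x R a n b m) :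
    (∃ (a' b' : ℕ → ℕ) (n' m' : ℕ), Good x (R + 1) a' n' b' m' ∧ Ext E a n a' n' ∧
        Ext E b m b' m' ∧ n < n' ∧ m < m') ∨
    (∃ (a' : ℕ → ℕ) (n' : ℕ), Good x (R + 1) b m a' n' ∧ Ext E a n a' n' ∧ n < n') := by
  have hqa := q_pos h.ha
  have hqb := q_pos h.hb
  have hma := qm_le h.ha
  have hmb := qm_le h.hb
  set y : ℝ := (-1 : ℝ) ^ n * (x - S a n - S b m) with hy
  have hz : x - S a n - S b m = (-1 : ℝ) ^ n * y := by
    rw [hy, ← mul_assoc, sq_one, one_mul]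
  rcases core (q a n) (qm a n) (q b m) (qm b m) y R E hqa hma hqb hmb h.le h.pos
    (irr_res hx a b n m) hR hE h.inv with ⟨c, d, hc, hd, h1, h2, h3⟩ | ⟨c, d, hc, hd, h1, h2, h3⟩
  · left
    have e1 := Ext.push a n c hc
    have e2 := Ext.push b m d hd
    have key : (-1 : ℝ) ^ (n + 1) * (x - S (push a n c) (n + 1) - S (push b m d) (m + 1)) =
        1 / ((q b m : ℝ) * (d * q b m + qm b m : ℕ)) -
          (y - 1 / ((q a n : ℝ) * (c * q a n + qm a n : ℕ))) := by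
      rw [S_push_succ, S_push_succ]
      have : x - (S a n + (-1 : ℝ) ^ n * (1 / ((q a n : ℝ) * (c * q a n + qm a n : ℕ)))) -
          (S b m + (-1 : ℝ) ^ m * (1 / ((q b m : ℝ) * (d * q b m + qm b m : ℕ)))) =
          (-1 : ℝ) ^ n * (y - 1 / ((q a n : ℝ) * (c * q a n + qm a n : ℕ)) -
            1 / ((q b m : ℝ) * (d * q b m + qm b m : ℕ))) := by
        rw [← h.par]
        linear_combination hz
      rw [this, pow_succ, mul_comm ((-1 : ℝ) ^ n) (-1), mul_assoc, ← mul_assoc ((-1 : ℝ) ^ n),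
        sq_one]
      ring
    refine ⟨push a n c, push b m d, n + 1, m + 1, ⟨e1.pos hE1 h.ha, e2.pos hE1 h.hb, ?_, ?_, ?_,
      ?_⟩, e1, e2, by omega, by omega⟩
    · rw [pow_succ, pow_succ, h.par]
    · rw [key]; exact h1
    · rw [q_push_succ, q_push_succ]; exact h2
    · rw [key, q_push_succ, q_push_succ]; exact h3
  · right
    have e1 := Ext.push a n c hc
    have e2 := Ext.push (push a n c) (n + 1) d hd
    have e12 := e1.trans e2
    have key : (-1 : ℝ) ^ m * (x - S b m - S (push (push a n c) (n + 1) d) (n + 1 + 1)) =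
        y - 1 / ((q a n : ℝ) * (c * q a n + qm a n : ℕ)) +
        1 / (((c * q a n + qm a n : ℕ) : ℝ) * (d * (c * q a n + qm a n) + q a n : ℕ)) := by
      rw [S_push_succ, q_push_succ, qm_push_succ, S_push_succ, ← h.par]
      have : x - S b m - (S a n + (-1 : ℝ) ^ n * (1 / ((q a n : ℝ) * (c * q a n + qm a n : ℕ))) +
          (-1 : ℝ) ^ (n + 1) * (1 / (((c * q a n + qm a n : ℕ) : ℝ) *
            (d * (c * q a n + qm a n) + q a n : ℕ)))) =
          (-1 : ℝ) ^ n * (y - 1 / ((q a n : ℝ) * (c * q a n + qm a n : ℕ)) +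
            1 / (((c * q a n + qm a n : ℕ) : ℝ) *
            (d * (c * q a n + qm a n) + q a n : ℕ))) := by
        rw [pow_succ]
        linear_combination hz
      rw [this, ← mul_assoc, sq_one, one_mul]
    have hqq : q (push (push a n c) (n + 1) d) (n + 1 + 1) =
        d * (c * q a n + qm a n) + q a n := by
      rw [q_push_succ, q_push_succ, qm_push_succ]
    refine ⟨push (push a n c) (n + 1) d, n + 1 + 1, ⟨h.hb, e12.pos hE1 h.ha, ?_, ?_, ?_, ?_⟩,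
      e12, by omega⟩
    · rw [← h.par, pow_succ, pow_succ]; ring
    · rw [key]; exact h1
    · rw [hqq]; exact h2
    · rw [key, hqq]; exact h3

lemma Good.mono {x : ℝ} {R R' : ℕ} {a b : ℕ → ℕ} {n m : ℕ} (h : Good x R a n b m)
    (hR : R' ≤ R) : Good x R' a n b m := by
  refine ⟨h.ha, h.hb, h.par, h.pos, h.le, le_trans ?_ h.inv⟩
  have hqa : (0 : ℝ) < q a n := by exact_mod_cast q_pos h.ha
  have hqb : (0 : ℝ) < q b m := by exact_mod_cast q_pos h.hb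
  have : (R' : ℝ) ≤ R := by exact_mod_cast hR
  apply mul_le_mul_of_nonneg_left this
  exact mul_nonneg (mul_nonneg h.pos.le hqa.le) hqb.le

def Sym (x : ℝ) (R : ℕ) (a : ℕ → ℕ) (n : ℕ) (b : ℕ → ℕ) (m : ℕ) : Prop :=
  Good x R a n b m ∨ Good x R b m a n

lemma Sym.swap {x : ℝ} {R : ℕ} {a b : ℕ → ℕ} {n m : ℕ} (h : Sym x R a n b m) :
    Sym x R b m a n := Or.symm h

theorem double_aux {x : ℝ} (hx : Irrational x) {R : ℕ} (hR : 5 ≤ R) {E : ℕ} (hE1 : 1 ≤ E)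
    (hE : 2 * E + 2 ≤ R) {a b : ℕ → ℕ} {n m : ℕ} (h : Good x R a n b m) :
    ∃ (a' b' : ℕ → ℕ) (n' m' : ℕ), Sym x (R + 1) a' n' b' m' ∧ Ext E a n a' n' ∧
        Ext E b m b' m' ∧ n < n' ∧ m < m' := by
  rcases macro_step hx hR hE1 hE h with ⟨a', b', n', m', h1, h2, h3, h4, h5⟩ | ⟨a', n', h1, h2, h3⟩
  · exact ⟨a', b', n', m', Or.inl h1, h2, h3, h4, h5⟩
  · rcases macro_step hx (R := R + 1) (by omega) hE1 (by omega) h1 with
      ⟨b', a'', m', n'', k1, k2, k3, k4, k5⟩ | ⟨b', m', k1, k2, k3⟩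
    · exact ⟨a'', b', n'', m', Or.inr (k1.mono (by omega)), h2.trans k3, k2, by omega, k4⟩
    · exact ⟨a', b', n', m', Or.inl (k1.mono (by omega)), h2, k2, h3, k3⟩

theorem double_step {x : ℝ} (hx : Irrational x) {R : ℕ} (hR : 5 ≤ R) {E : ℕ} (hE1 : 1 ≤ E)
    (hE : 2 * E + 2 ≤ R) {a b : ℕ → ℕ} {n m : ℕ} (h : Sym x R a n b m) :
    ∃ (a' b' : ℕ → ℕ) (n' m' : ℕ), Sym x (R + 1) a' n' b' m' ∧ Ext E a n a' n' ∧
        Ext E b m b' m' ∧ n < n' ∧ m < m' := by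
  rcases h with h | h
  · exact double_aux hx hR hE1 hE h
  · obtain ⟨b', a', m', n', h1, h2, h3, h4, h5⟩ := double_aux hx hR hE1 hE h
    exact ⟨a', b', n', m', h1.swap, h3, h2, h5, h4⟩

lemma exists_chain {α : Type} (P : ℕ → α → Prop) (r : ℕ → α → α → Prop) (h0 : ∃ a, P 0 a)
    (hs : ∀ k a, P k a → ∃ b, P (k + 1) b ∧ r k a b) :
    ∃ f : ℕ → α, (∀ k, P k (f k)) ∧ ∀ k, r k (f k) (f (k + 1)) := by
  classical
  obtain ⟨a0, ha0⟩ := h0
  choose! g hg using hs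
  let f : ℕ → α := fun k => Nat.rec a0 (fun k a => g k a) k
  have hf : ∀ k, P k (f k) := by
    intro k
    induction k with
    | zero => exact ha0
    | succ k ih => exact (hg k _ ih).1
  exact ⟨f, hf, fun k => (hg k _ (hf k)).2⟩

/-- extraction of the limiting digit sequence -/
lemma extract (A : ℕ → ℕ → ℕ) (N : ℕ → ℕ) (E : ℕ → ℕ) (hE1 : ∀ k, 1 ≤ E k)
    (hEm : Monotone E) (hET : Tendsto E atTop atTop)
    (h0 : ∀ i < N 0, 1 ≤ A 0 i) (h : ∀ k, Ext (E k) (A k) (N k) (A (k + 1)) (N (k + 1)))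
    (hN : ∀ k, N k < N (k + 1)) :
    ∃ a : ℕ → ℕ, (∀ i, 1 ≤ a i) ∧ Tendsto a atTop atTop ∧ Tendsto N atTop atTop ∧
      ∀ k, ∀ i < N k, a i = A k i := by
  have hNk : ∀ k, k ≤ N k := by
    intro k
    induction k with
    | zero => omega
    | succ k ih => have := hN k; omega
  have hExt : ∀ j k, j ≤ k → Ext (E j) (A j) (N j) (A k) (N k) := by
    intro j k hjk
    induction k, hjk using Nat.le_induction with
    | base => exact Ext.refl _ _ _
    | succ k hjk ih => exact ih.trans ((h k).mono (hEm hjk))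
  refine ⟨fun i => A (i + 1) i, ?_, ?_, ?_, ?_⟩
  · intro i
    have h1 := hExt 0 (i + 1) (by omega)
    have h2 := hNk (i + 1)
    exact h1.pos (hE1 0) h0 i (by omega)
  · rw [tendsto_atTop_atTop]
    intro B
    obtain ⟨K, hK⟩ := (tendsto_atTop_atTop.1 hET) B
    refine ⟨N K, fun i hi => ?_⟩
    have hKi : K ≤ i + 1 := by have := hNk K; omega
    have h1 := hExt K (i + 1) hKi
    have h2 := hNk (i + 1)
    exact (hK K le_rfl).trans (h1.2.2 i hi (by omega))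
  · exact tendsto_atTop_mono hNk tendsto_id
  · intro k i hi
    rcases le_total k (i + 1) with hk | hk
    · exact (hExt k (i + 1) hk).2.1 i hi
    · have h2 := hNk (i + 1)
      exact ((hExt (i + 1) k hk).2.1 i (by omega)).symm

theorem irr_main {x : ℝ} (hx : Irrational x) (h0 : ∃ (a b : ℕ → ℕ) (n m : ℕ), Sym x 5 a n b m) :
    ∃ a b : ℕ → ℕ, (∀ i, 1 ≤ a i) ∧ (∀ i, 1 ≤ b i) ∧ Tendsto a atTop atTop ∧
      Tendsto b atTop atTop ∧
      ∀ g1 g2 : ℝ, Tendsto (S a) atTop (𝓝 g1) → Tendsto (S b) atTop (𝓝 g2) → x = g1 + g2 := by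
  obtain ⟨f, hP, hr⟩ := exists_chain
    (α := (ℕ → ℕ) × (ℕ → ℕ) × ℕ × ℕ)
    (fun k s => Sym x (k + 5) s.1 s.2.2.1 s.2.1 s.2.2.2)
    (fun k s t => Ext ((k + 3) / 2) s.1 s.2.2.1 t.1 t.2.2.1 ∧
      Ext ((k + 3) / 2) s.2.1 s.2.2.2 t.2.1 t.2.2.2 ∧ s.2.2.1 < t.2.2.1 ∧ s.2.2.2 < t.2.2.2)
    (by
      obtain ⟨a, b, n, m, h⟩ := h0
      exact ⟨(a, b, n, m), by simpa using h⟩)
    (by
      rintro k ⟨a, b, n, m⟩ h
      obtain ⟨a', b', n', m', h1, h2, h3, h4, h5⟩ :=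
        double_step hx (R := k + 5) (by omega) (E := (k + 3) / 2) (by omega) (by omega) h
      refine ⟨(a', b', n', m'), ?_, h2, h3, h4, h5⟩
      have : k + 1 + 5 = k + 5 + 1 := by ring
      simpa [this] using h1)
  have hE1 : ∀ k : ℕ, 1 ≤ (k + 3) / 2 := fun k => by omega
  have hEm : Monotone (fun k : ℕ => (k + 3) / 2) := fun i j hij => Nat.div_le_div_right (by omega)
  have hET : Tendsto (fun k : ℕ => (k + 3) / 2) atTop atTop := by
    rw [tendsto_atTop_atTop]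
    intro B
    exact ⟨2 * B, fun k hk => by omega⟩
  have hdig : ∀ k, (∀ i < (f k).2.2.1, 1 ≤ (f k).1 i) ∧ (∀ i < (f k).2.2.2, 1 ≤ (f k).2.1 i) := by
    intro k
    rcases hP k with h | h
    · exact ⟨h.ha, h.hb⟩
    · exact ⟨h.hb, h.ha⟩
  obtain ⟨a, ha1, haT, haN, haA⟩ := extract (fun k => (f k).1) (fun k => (f k).2.2.1)
    (fun k => (k + 3) / 2) hE1 hEm hET (hdig 0).1 (fun k => (hr k).1) (fun k => (hr k).2.2.1)
  obtain ⟨b, hb1, hbT, hbN, hbA⟩ := extract (fun k => (f k).2.1) (fun k => (f k).2.2.2)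
    (fun k => (k + 3) / 2) hE1 hEm hET (hdig 0).2 (fun k => (hr k).2.1) (fun k => (hr k).2.2.2)
  refine ⟨a, b, ha1, hb1, haT, hbT, fun g1 g2 hg1 hg2 => ?_⟩
  have t1 := hg1.comp haN
  have t2 := hg2.comp hbN
  have bound : ∀ k, |x - (S a ((f k).2.2.1) + S b ((f k).2.2.2))| ≤ 1 / ((k : ℝ) + 1) := by
    intro k
    have e1 : S a ((f k).2.2.1) = S (f k).1 ((f k).2.2.1) := S_congr (haA k)
    have e2 : S b ((f k).2.2.2) = S (f k).2.1 ((f k).2.2.2) := S_congr (hbA k)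
    rw [e1, e2]
    have gen : ∀ (a b : ℕ → ℕ) (n m : ℕ), Good x (k + 5) a n b m →
        |x - (S a n + S b m)| ≤ 1 / ((k : ℝ) + 1) := by
      intro a b n m h
      have hqa : (1 : ℝ) ≤ q a n := by exact_mod_cast q_pos h.ha
      have hqb : (1 : ℝ) ≤ q b m := by exact_mod_cast q_pos h.hb
      have hy : |x - (S a n + S b m)| = (-1 : ℝ) ^ n * (x - S a n - S b m) := by
        have h1 := abs_of_pos h.pos
        rw [abs_mul, abs_neg_one_pow, one_mul] at h1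
        rw [← h1]
        congr 1
        ring
      rw [hy, le_div_iff₀ (by positivity)]
      refine le_trans ?_ h.inv
      set y := (-1 : ℝ) ^ n * (x - S a n - S b m) with hyd
      have hy0 : 0 < y := h.pos
      have hqq : (1 : ℝ) ≤ q a n * q b m := by nlinarith
      have : y * q a n * q b m * ((k + 5 : ℕ) : ℝ) = y * ((q a n * q b m) * ((k : ℝ) + 5)) := by
        push_cast; ring
      rw [this]
      apply mul_le_mul_of_nonneg_left _ hy0.le
      have hk : (0 : ℝ) ≤ k := Nat.cast_nonneg k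
      nlinarith
    rcases hP k with h | h
    · exact gen _ _ _ _ h
    · rw [add_comm (S (f k).1 _)]
      exact gen _ _ _ _ h
  have t3 : Tendsto (fun k => x - (S a ((f k).2.2.1) + S b ((f k).2.2.2))) atTop (𝓝 0) := by
    apply squeeze_zero_norm (a := fun k : ℕ => 1 / ((k : ℝ) + 1))
    · intro k; rw [Real.norm_eq_abs]; exact bound k
    · exact tendsto_one_div_add_atTop_nhds_zero_nat
  have t4 : Tendsto (fun k => x - (S a ((f k).2.2.1) + S b ((f k).2.2.2))) atTop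
      (𝓝 (x - (g1 + g2))) := tendsto_const_nhds.sub (t1.add t2)
  have := tendsto_nhds_unique t3 t4
  linarith

end Run7.h610.CF
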