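import Mathlib
import Pool.Agent.Run7.h610.CFStep

set_option autoImplicit false

/-!
The initial state for irrational `x`, the rational case, and the conclusion.
-/

namespace Run7.h610.CF

open Filter Topology

/-- digits of the Gauss map -/
noncomputable def dig (x : ℝ) (i : ℕ) : ℕ := ⌊1 / (T^[i] x)⌋₊

/-- products of the tails -/
noncomputable def Dx (x : ℝ) (n : ℕ) : ℝ := ∏ i ∈ Finset.range n, T^[i] x

lemma T_nonneg (y : ℝ) : 0 ≤ T y := Int.fract_nonneg _
lemma T_lt (y : ℝ) : T y < 1 := Int.fract_lt_one _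

lemma iter_mem {x : ℝ} (hx0 : 0 ≤ x) (hx1 : x ≤ 1) (n : ℕ) : 0 ≤ T^[n] x ∧ T^[n] x ≤ 1 := by
  cases n with
  | zero => simp [hx0, hx1]
  | succ n => rw [Function.iterate_succ_apply']; exact ⟨T_nonneg _, (T_lt _).le⟩

lemma Dx_rec {x : ℝ} (hx0 : 0 ≤ x) (hx1 : x ≤ 1) {n : ℕ} (h : T^[n] x ≠ 0) :
    1 ≤ dig x n ∧ Dx x n = dig x n * Dx x (n + 1) + Dx x (n + 2) := by
  obtain ⟨h0, h1⟩ := iter_mem hx0 hx1 n
  have hpos : 0 < T^[n] x := lt_of_le_of_ne h0 (Ne.symm h)
  constructor
  · unfold dig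
    rw [Nat.one_le_floor_iff, le_div_iff₀ hpos]
    linarith
  · unfold Dx
    rw [Finset.prod_range_succ, Finset.prod_range_succ, Finset.prod_range_succ,
      Function.iterate_succ_apply']
    have hf : T (T^[n] x) = 1 / T^[n] x - dig x n := by
      unfold dig T
      rw [natCast_floor_eq_intCast_floor (by positivity)]
      rfl
    rw [hf]
    field_simp
    ring

lemma Dx_zero (x : ℝ) : Dx x 0 = 1 := by simp [Dx]
lemma Dx_one (x : ℝ) : Dx x 1 = x := by simp [Dx]

/-- initial state -/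
theorem initial {x : ℝ} (hx : Irrational x) (hx0 : 0 < x) (hx1 : x ≤ 1) :
    ∃ (a b : ℕ → ℕ) (n m : ℕ), Sym x 5 a n b m := by
  have hirr : ∀ n, Irrational (T^[n] x) := by
    intro n
    induction n with
    | zero => exact hx
    | succ n ih =>
      rw [Function.iterate_succ_apply']
      unfold T
      rw [one_div, Int.fract]
      exact (ih.inv).sub_intCast _
  have hne : ∀ n, T^[n] x ≠ 0 := fun n => (hirr n).ne_zero
  have hpos : ∀ n, 0 < T^[n] x := fun n =>
    lt_of_le_of_ne (iter_mem hx0.le hx1 n).1 (Ne.symm (hne n))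
  have hd : ∀ i, 1 ≤ dig x i := fun i => (Dx_rec hx0.le hx1 (hne i)).1
  have hrec : ∀ i, Dx x i = dig x i * Dx x (i + 1) + Dx x (i + 2) :=
    fun i => (Dx_rec hx0.le hx1 (hne i)).2
  have hDpos : ∀ n, 0 < Dx x n := fun n => Finset.prod_pos fun i _ => hpos i
  obtain ⟨e1, e2⟩ := main_id (a := dig x) (D := Dx x) (Dx_zero x) (Dx_one x) (n := 4)
    (fun i _ => hd i) (fun i _ => hrec i)
  obtain ⟨_, e3⟩ := main_id (a := dig x) (D := Dx x) (Dx_zero x) (Dx_one x) (n := 5)
    (fun i _ => hd i) (fun i _ => hrec i)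
  have hq4 : (1 : ℝ) ≤ q (dig x) 4 := by exact_mod_cast q_pos (n := 4) (fun i _ => hd i)
  have hq5 : (5 : ℝ) ≤ q (dig x) 5 := by exact_mod_cast le_q (n := 5) (fun i _ => hd i)
  have hD5 := hDpos 5
  have hD6 := hDpos 6
  rw [show (4 : ℕ) + 1 = 5 from rfl] at e1 e2
  rw [show (5 : ℕ) + 1 = 6 from rfl] at e3
  have e1' : Dx x 5 = q (dig x) 4 * (x - S (dig x) 4) := by rw [e1]; norm_num
  have hmul : (5 : ℝ) * Dx x 5 ≤ 1 := by
    have h1 : (5 : ℝ) * Dx x 5 ≤ q (dig x) 5 * Dx x 5 :=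
      mul_le_mul_of_nonneg_right hq5 hD5.le
    have h2 : (0 : ℝ) ≤ qm (dig x) 5 * Dx x 6 := by positivity
    linarith
  refine ⟨fun _ => 1, dig x, 0, 4, Or.inl ⟨?_, ?_, ?_, ?_, ?_, ?_⟩⟩
  · intro i hi; omega
  · intro i _; exact hd i
  · norm_num
  · rw [S_zero, pow_zero, one_mul, sub_zero]
    have : 0 < q (dig x) 4 * (x - S (dig x) 4) := by rw [← e1']; exact hD5
    exact (mul_pos_iff_of_pos_left (by linarith)).1 this
  · rw [q_zero]; exact q_pos (n := 4) (fun i _ => hd i)
  · rw [S_zero, pow_zero, one_mul, sub_zero, q_zero]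
    have : (x - S (dig x) 4) * ((1 : ℕ) : ℝ) * q (dig x) 4 * ((5 : ℕ) : ℝ)
        = 5 * (q (dig x) 4 * (x - S (dig x) 4)) := by push_cast; ring
    rw [this, ← e1']
    exact hmul

/-- the Gauss map of a rational reaches `0` -/
lemma reach_zero : ∀ (p r : ℕ), ∃ N : ℕ, T^[N] ((p : ℝ) / r) = 0 := by
  intro p
  induction p using Nat.strong_induction_on with
  | _ p ih =>
    intro r
    rcases Nat.eq_zero_or_pos p with rfl | hp
    · exact ⟨0, by simp⟩
    · obtain ⟨N, hN⟩ := ih (r % p) (Nat.mod_lt _ hp) p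
      refine ⟨N + 1, ?_⟩
      rw [Function.iterate_succ_apply]
      have : T ((p : ℝ) / r) = ((r % p : ℕ) : ℝ) / p := by
        unfold T
        rw [one_div_div, Int.fract_div_natCast_eq_div_natCast_mod]
      rw [this, hN]

lemma rat_cf_aux {x : ℝ} (hx0 : 0 < x) (hx1 : x ≤ 1) (hr : ∃ p r : ℕ, x = (p : ℝ) / r) :
    ∃ N : ℕ, 1 ≤ N ∧ (∀ i < N, 1 ≤ dig x i) ∧ x = S (dig x) N ∧ (2 ≤ N → 2 ≤ dig x (N - 1)) := by
  classical
  obtain ⟨p, r, hpr⟩ := hr
  have hex : ∃ N : ℕ, T^[N] x = 0 := by rw [hpr]; exact reach_zero p r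
  set N := Nat.find hex with hN
  have hN0 : T^[N] x = 0 := Nat.find_spec hex
  have hlt : ∀ i < N, T^[i] x ≠ 0 := fun i hi => Nat.find_min hex hi
  have hN1 : 1 ≤ N := by
    by_contra h
    have h0 : N = 0 := by omega
    rw [h0] at hN0
    simp at hN0
    linarith
  have hd : ∀ i < N, 1 ≤ dig x i := fun i hi => (Dx_rec hx0.le hx1 (hlt i hi)).1
  refine ⟨N, hN1, hd, ?_, ?_⟩
  · obtain ⟨e1, _⟩ := main_id (a := dig x) (D := Dx x) (Dx_zero x) (Dx_one x) (n := N) hd
      (fun i hi => (Dx_rec hx0.le hx1 (hlt i hi)).2)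
    have h0 : Dx x (N + 1) = 0 := by
      unfold Dx
      rw [Finset.prod_range_succ, hN0, mul_zero]
    rw [h0] at e1
    have hq : (0 : ℝ) < q (dig x) N := by exact_mod_cast q_pos hd
    have hs : (-1 : ℝ) ^ N ≠ 0 := by
      apply pow_ne_zero; norm_num
    have : (q (dig x) N : ℝ) * (x - S (dig x) N) = 0 := by
      rcases mul_eq_zero.1 e1.symm with h | h
      · exact absurd h hs
      · exact h
    rcases mul_eq_zero.1 this with h | h
    · exact absurd h hq.ne'
    · linarith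
  · intro h2
    obtain ⟨M, hM⟩ : ∃ M, N = M + 1 + 1 := ⟨N - 2, by omega⟩
    have hMlt : T^[M + 1] x < 1 := by
      rw [Function.iterate_succ_apply']; exact T_lt _
    have hMne : T^[M + 1] x ≠ 0 := hlt (M + 1) (by omega)
    have hMpos : 0 < T^[M + 1] x :=
      lt_of_le_of_ne (iter_mem hx0.le hx1 (M + 1)).1 (Ne.symm hMne)
    have hz : T (T^[M + 1] x) = 0 := by
      rw [← Function.iterate_succ_apply' T (M + 1) x, show (M + 1).succ = N from hM.symm]
      exact hN0
    have hf : (1 : ℝ) / T^[M + 1] x = dig x (M + 1) := by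
      unfold T at hz
      unfold dig
      rw [natCast_floor_eq_intCast_floor (by positivity)]
      have := Int.self_sub_floor (1 / T^[M + 1] x)
      unfold T at this ⊢
      rw [hz] at this
      linarith
    have h1 : (1 : ℝ) < dig x (M + 1) := by
      rw [← hf, lt_div_iff₀ hMpos]; linarith
    have h1' : 1 < dig x (M + 1) := by exact_mod_cast h1
    have : N - 1 = M + 1 := by omega
    rw [this]
    omega

/-- finite expansion of odd length -/
lemma rat_cf {x : ℝ} (hx0 : 0 < x) (hx1 : x ≤ 1) (hr : ∃ p r : ℕ, x = (p : ℝ) / r) :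
    ∃ (c : ℕ → ℕ) (m : ℕ), (∀ i < m, 1 ≤ c i) ∧ x = S c m ∧ (-1 : ℝ) ^ m = -1 := by
  obtain ⟨N, hN1, hd, hx, h2⟩ := rat_cf_aux hx0 hx1 hr
  rcases Nat.even_or_odd N with he | ho
  · have hN2 : 2 ≤ N := by
      rcases he with ⟨k, hk⟩; omega
    have hlast := h2 hN2
    obtain ⟨M, rfl⟩ : ∃ M, N = M + 1 := ⟨N - 1, by omega⟩
    rw [Nat.add_sub_cancel] at hlast
    set a := dig x with ha
    refine ⟨push (push a M (a M - 1)) (M + 1) 1, M + 1 + 1, ?_, ?_, ?_⟩
    · intro i hi
      rcases Nat.lt_succ_iff_lt_or_eq.1 hi with h | h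
      · rw [push_lt h]
        rcases Nat.lt_succ_iff_lt_or_eq.1 h with h | h
        · rw [push_lt h]; exact hd i (by omega)
        · rw [h, push_self]; omega
      · rw [h, push_self]
    · rw [S_push_succ, S_push_succ, q_push_succ, qm_push_succ, hx, S_succ, q_succ]
      have hqM : (1 : ℝ) ≤ q a M := by
        exact_mod_cast q_pos (a := a) (n := M) (fun i hi => hd i (by omega))
      have haM : (2 : ℝ) ≤ a M := by exact_mod_cast hlast
      have hqm : (0 : ℝ) ≤ qm a M := Nat.cast_nonneg _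
      push_cast [Nat.cast_sub (by omega : 1 ≤ a M)]
      have e1 : 0 < ((a M : ℝ) - 1) * q a M + qm a M := by nlinarith
      have hq0 : (0 : ℝ) < q a M := by linarith
      have e3 : (a M : ℝ) * q a M + qm a M = (((a M : ℝ) - 1) * q a M + qm a M) + q a M := by
        ring
      rw [e3, pow_succ]
      set u : ℝ := ((a M : ℝ) - 1) * q a M + qm a M with hu
      have hu0 : u ≠ 0 := e1.ne'
      have hu1 : u + q a M ≠ 0 := by positivity
      have hu2 : 1 * u + (q a M : ℝ) ≠ 0 := by rw [one_mul]; exact hu1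
      field_simp
      ring
    · rw [pow_succ]
      rw [he.neg_one_pow]; norm_num
  · exact ⟨dig x, N, hd, hx, ho.neg_one_pow⟩

/-- digits of the first number (rational case), `s = q c m`, `t = qm c m` -/
def al (s t : ℕ) (j : ℕ) : ℕ :=
  if j = 0 then s * s * 1 + t * s else if j % 2 = 0 then s * s * (j + 1) else j + 1

/-- digits of the second number (rational case) -/
def be (c : ℕ → ℕ) (m s : ℕ) (i : ℕ) : ℕ :=
  if i < m then c i else if (i - m) % 2 = 0 then (i - m) + 1 else s * s * ((i - m) + 1)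

lemma rat_pattern (c : ℕ → ℕ) (m : ℕ) : ∀ k : ℕ,
    q (al (q c m) (qm c m)) (2 * k) * q c m = q (be c m (q c m)) (m + 2 * k) ∧
    q (al (q c m) (qm c m)) (2 * k + 1) = q c m * q (be c m (q c m)) (m + 2 * k + 1) := by
  set s := q c m with hs
  set t := qm c m with ht
  have hb : ∀ i < m, be c m s i = c i := fun i hi => by simp [be, hi]
  have hqb : q (be c m s) m = s := by rw [q_congr hb]
  have hqmb : qm (be c m s) m = t := by rw [qm_congr hb]
  intro k
  induction k with
  | zero =>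
    refine ⟨?_, ?_⟩
    · rw [mul_zero, q_zero, add_zero, hqb, one_mul]
    · rw [mul_zero, zero_add, add_zero, q_succ, q_succ, hqb, hqmb, q_zero, qm_zero]
      have : be c m s m = 1 := by simp [be]
      rw [this]
      simp [al]
      ring
  | succ k ih =>
    obtain ⟨i1, i2⟩ := ih
    have hA : q (al s t) (2 * k + 2) = al s t (2 * k + 1) * q (al s t) (2 * k + 1)
        + q (al s t) (2 * k) := by
      rw [show 2 * k + 2 = 2 * k + 1 + 1 from rfl, q_succ, qm_succ]
    have hB : q (be c m s) (m + 2 * k + 2) = be c m s (m + 2 * k + 1) *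
        q (be c m s) (m + 2 * k + 1) + q (be c m s) (m + 2 * k) := by
      rw [show m + 2 * k + 2 = m + 2 * k + 1 + 1 from rfl, q_succ, qm_succ]
    have hA' : q (al s t) (2 * k + 3) = al s t (2 * k + 2) * q (al s t) (2 * k + 2)
        + q (al s t) (2 * k + 1) := by
      rw [show 2 * k + 3 = 2 * k + 2 + 1 from rfl, q_succ, qm_succ]
    have hB' : q (be c m s) (m + 2 * k + 3) = be c m s (m + 2 * k + 2) *
        q (be c m s) (m + 2 * k + 2) + q (be c m s) (m + 2 * k + 1) := by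
      rw [show m + 2 * k + 3 = m + 2 * k + 2 + 1 from rfl, q_succ, qm_succ]
    have a1 : al s t (2 * k + 1) = 2 * k + 2 := by
      simp [al]
    have a2 : al s t (2 * k + 2) = s * s * (2 * k + 3) := by
      have : (2 * k + 2) % 2 = 0 := by omega
      simp [al, this]
    have b1 : be c m s (m + 2 * k + 1) = s * s * (2 * k + 2) := by
      have h1 : ¬ (m + 2 * k + 1 < m) := by omega
      have h2 : m + 2 * k + 1 - m = 2 * k + 1 := by omega
      simp [be, h1, h2]
    have b2 : be c m s (m + 2 * k + 2) = 2 * k + 3 := by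
      have h1 : ¬ (m + 2 * k + 2 < m) := by omega
      have h2 : m + 2 * k + 2 - m = 2 * k + 2 := by omega
      have h3 : (2 * k + 2) % 2 = 0 := by omega
      simp [be, h1, h2, h3]
    have c1 : q (al s t) (2 * k + 2) * s = q (be c m s) (m + 2 * k + 2) := by
      rw [hA, hB, a1, b1, ← i1, i2]; ring
    have c2 : q (al s t) (2 * k + 3) = s * q (be c m s) (m + 2 * k + 3) := by
      rw [hA', hB', a2, b2, ← c1, i2]; ring
    exact ⟨c1, c2⟩

theorem rat_main {x : ℝ} (hx0 : 0 < x) (hx1 : x ≤ 1) (hr : ∃ p r : ℕ, x = (p : ℝ) / r) :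
    ∃ a b : ℕ → ℕ, (∀ i, 1 ≤ a i) ∧ (∀ i, 1 ≤ b i) ∧ Tendsto a atTop atTop ∧
      Tendsto b atTop atTop ∧
      ∀ g1 g2 : ℝ, Tendsto (S a) atTop (𝓝 g1) → Tendsto (S b) atTop (𝓝 g2) → x = g1 + g2 := by
  obtain ⟨c, m, hc, hx, hm⟩ := rat_cf hx0 hx1 hr
  have hpat := rat_pattern c m
  have hs1 : 1 ≤ q c m := q_pos hc
  set s := q c m with hs
  set t := qm c m with ht
  have hss : 1 ≤ s * s := Nat.mul_pos hs1 hs1
  have hal : ∀ j, j + 1 ≤ al s t j := by
    intro j
    unfold al
    split_ifs with h1 h2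
    · subst h1; omega
    · exact Nat.le_mul_of_pos_left _ hss
    · exact le_rfl
  have hbe : ∀ i, m ≤ i → (i - m) + 1 ≤ be c m s i := by
    intro i hi
    unfold be
    rw [if_neg (by omega)]
    split_ifs
    · exact le_rfl
    · exact Nat.le_mul_of_pos_left _ hss
  have hbec : ∀ i < m, be c m s i = c i := fun i hi => by simp [be, hi]
  refine ⟨al s t, be c m s, ?_, ?_, ?_, ?_, ?_⟩
  · intro i; have := hal i; omega
  · intro i
    rcases lt_or_ge i m with h | h
    · rw [hbec i h]; exact hc i h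
    · have := hbe i h; omega
  · exact tendsto_atTop_mono (fun j => (Nat.le_succ j).trans (hal j)) tendsto_id
  · rw [tendsto_atTop_atTop]
    intro B
    refine ⟨m + B, fun i hi => ?_⟩
    have := hbe i (by omega)
    omega
  · intro g1 g2 h1 h2
    have hprod : ∀ n, q (al s t) n * q (al s t) (n + 1) =
        q (be c m s) (m + n) * q (be c m s) (m + n + 1) := by
      intro n
      rcases Nat.even_or_odd' n with ⟨k, rfl | rfl⟩
      · rw [(hpat k).2, ← (hpat k).1]; ring
      · have h3 := (hpat (k + 1)).1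
        rw [show 2 * k + 1 + 1 = 2 * (k + 1) by ring, (hpat k).2,
          show m + (2 * k + 1) + 1 = m + 2 * (k + 1) by ring, ← h3]
        rw [show m + (2 * k + 1) = m + 2 * k + 1 by ring]
        ring
    have hsum : ∀ n, S (al s t) n + S (be c m s) (m + n) = x := by
      intro n
      induction n with
      | zero => rw [S_zero, add_zero, zero_add, S_congr hbec, hx]
      | succ n ih =>
        rw [S_succ, ← add_assoc m n 1, S_succ]
        have hp : ((q (al s t) n : ℝ) * q (al s t) (n + 1)) =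
            (q (be c m s) (m + n) : ℝ) * q (be c m s) (m + n + 1) := by
          exact_mod_cast hprod n
        rw [hp, pow_add, hm]
        linarith
    have h3 : Tendsto (fun n => S (be c m s) (m + n)) atTop (𝓝 g2) := by
      have : (fun n => S (be c m s) (m + n)) = (fun n => S (be c m s) (n + m)) := by
        funext n; rw [add_comm]
      rw [this]
      exact (tendsto_add_atTop_iff_nat m).2 h2
    have h4 := h1.add h3
    have h5 : Tendsto (fun n => S (al s t) n + S (be c m s) (m + n)) atTop (𝓝 x) := by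
      simp only [hsum]; exact tendsto_const_nhds
    exact tendsto_nhds_unique h5 h4

theorem main {x : ℝ} (hx0 : 0 < x) (hx1 : x ≤ 1) :
    ∃ g₁ g₂ : ℝ, g₁ ∈ Set.Ioo (0 : ℝ) 1 ∧ g₂ ∈ Set.Ioo (0 : ℝ) 1 ∧
      Tendsto (fun n : ℕ => ⌊1 / (T^[n] g₁)⌋) atTop atTop ∧
      Tendsto (fun n : ℕ => ⌊1 / (T^[n] g₂)⌋) atTop atTop ∧ x = g₁ + g₂ := by
  have key : ∃ a b : ℕ → ℕ, (∀ i, 1 ≤ a i) ∧ (∀ i, 1 ≤ b i) ∧ Tendsto a atTop atTop ∧
      Tendsto b atTop atTop ∧
      ∀ g1 g2 : ℝ, Tendsto (S a) atTop (𝓝 g1) → Tendsto (S b) atTop (𝓝 g2) → x = g1 + g2 := by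
    by_cases hx : Irrational x
    · exact irr_main hx (initial hx hx0 hx1)
    · apply rat_main hx0 hx1
      unfold Irrational at hx
      push Not at hx
      obtain ⟨r, rfl⟩ := hx
      have hr0 : 0 < r := by exact_mod_cast hx0
      refine ⟨r.num.toNat, r.den, ?_⟩
      have h1 : ((r.num.toNat : ℕ) : ℝ) = (r.num : ℝ) := by
        have h2 : ((r.num.toNat : ℕ) : ℤ) = r.num := Int.toNat_of_nonneg (Rat.num_nonneg.2 hr0.le)
        exact_mod_cast congrArg (fun z : ℤ => (z : ℝ)) h2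
      rw [h1]
      exact_mod_cast (Rat.num_div_den r).symm
  obtain ⟨a, b, ha, hb, hat, hbt, hsum⟩ := key
  obtain ⟨g1, hg1, hS1, hd1⟩ := exists_of_digits a ha
  obtain ⟨g2, hg2, hS2, hd2⟩ := exists_of_digits b hb
  refine ⟨g1, g2, hg1, hg2, ?_, ?_, hsum g1 g2 hS1 hS2⟩
  · simp only [hd1]
    exact tendsto_natCast_atTop_atTop.comp hat
  · simp only [hd2]
    exact tendsto_natCast_atTop_atTop.comp hbt

end Run7.h610.CF
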